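import Pool.Agent.helper14.CF.Model

/-!
# CF-4c: third order models: comparisons and variables

Template: the last two sections of `QF/Model.lean` (private lemmas of `CF/Model.lean` may be copied).
-/

namespace Pool.Agent.helper14.CF

open Complex
open Pool.Agent.helper31.IA (Z Small get RealL)
open Pool.Agent.helper31.IB (fd One bz mg ofZ)

/-! ### comparisons -/

/-- the complementary positions -/
def lc (n : Nat) : List Nat := (PL ++ PQ ++ PT).filter fun i => decide (i ∉ rm n)

private theorem mul_im0 {a b : ℂ} (ha : a.im = 0) (hb : b.im = 0) : (a * b).im = 0 := by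
  rw [Complex.mul_im, ha, hb]
  simp

private theorem mono_real {nr : Nat} {ε : List ℂ} (hr : RealL nr ε) (hnr : nr ≤ 4) {b : Nat}
    (hmem : b ∈ rm nr) : (mono ε b).im = 0 := by
  interval_cases nr
  · simp [rm] at hmem
  · have h0 := hr 0 (by norm_num)
    simp only [rm, List.mem_cons, List.not_mem_nil, or_false] at hmem
    rcases hmem with rfl | rfl | rfl
    · simpa [mono] using h0
    · simpa [mono] using mul_im0 h0 h0
    · simpa [mono] using mul_im0 (mul_im0 h0 h0) h0
  · have h0 := hr 0 (by norm_num)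
    have h1 := hr 1 (by norm_num)
    simp only [rm, List.mem_cons, List.not_mem_nil, or_false] at hmem
    rcases hmem with rfl | rfl | rfl | rfl | rfl | rfl | rfl | rfl | rfl
    · simpa [mono] using h0
    · simpa [mono] using h1
    · simpa [mono] using mul_im0 h0 h0
    · simpa [mono] using mul_im0 h0 h1
    · simpa [mono] using mul_im0 h1 h1
    · simpa [mono] using mul_im0 (mul_im0 h0 h0) h0
    · simpa [mono] using mul_im0 (mul_im0 h0 h0) h1
    · simpa [mono] using mul_im0 (mul_im0 h0 h1) h1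
    · simpa [mono] using mul_im0 (mul_im0 h1 h1) h1
  · have h0 := hr 0 (by norm_num)
    have h1 := hr 1 (by norm_num)
    have h2 := hr 2 (by norm_num)
    simp only [rm, List.mem_cons, List.not_mem_nil, or_false] at hmem
    rcases hmem with rfl | rfl | rfl | rfl | rfl | rfl | rfl | rfl | rfl | rfl | rfl | rfl |
      rfl | rfl | rfl | rfl | rfl | rfl | rfl
    · simpa [mono] using h0
    · simpa [mono] using h1
    · simpa [mono] using h2
    · simpa [mono] using mul_im0 h0 h0
    · simpa [mono] using mul_im0 h0 h1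
    · simpa [mono] using mul_im0 h0 h2
    · simpa [mono] using mul_im0 h1 h1
    · simpa [mono] using mul_im0 h1 h2
    · simpa [mono] using mul_im0 h2 h2
    · simpa [mono] using mul_im0 (mul_im0 h0 h0) h0
    · simpa [mono] using mul_im0 (mul_im0 h0 h0) h1
    · simpa [mono] using mul_im0 (mul_im0 h0 h0) h2
    · simpa [mono] using mul_im0 (mul_im0 h0 h1) h1
    · simpa [mono] using mul_im0 (mul_im0 h0 h1) h2
    · simpa [mono] using mul_im0 (mul_im0 h0 h2) h2
    · simpa [mono] using mul_im0 (mul_im0 h1 h1) h1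
    · simpa [mono] using mul_im0 (mul_im0 h1 h1) h2
    · simpa [mono] using mul_im0 (mul_im0 h1 h2) h2
    · simpa [mono] using mul_im0 (mul_im0 h2 h2) h2
  · have h0 := hr 0 (by norm_num)
    have h1 := hr 1 (by norm_num)
    have h2 := hr 2 (by norm_num)
    have h3 := hr 3 (by norm_num)
    simp only [rm, List.mem_cons, List.not_mem_nil, or_false] at hmem
    rcases hmem with rfl | rfl | rfl | rfl | rfl | rfl | rfl | rfl | rfl | rfl | rfl | rfl |
      rfl | rfl | rfl | rfl | rfl | rfl | rfl | rfl | rfl | rfl | rfl | rfl |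
      rfl | rfl | rfl | rfl | rfl | rfl | rfl | rfl | rfl | rfl
    · simpa [mono] using h0
    · simpa [mono] using h1
    · simpa [mono] using h2
    · simpa [mono] using h3
    · simpa [mono] using mul_im0 h0 h0
    · simpa [mono] using mul_im0 h0 h1
    · simpa [mono] using mul_im0 h0 h2
    · simpa [mono] using mul_im0 h0 h3
    · simpa [mono] using mul_im0 h1 h1
    · simpa [mono] using mul_im0 h1 h2
    · simpa [mono] using mul_im0 h2 h2
    · simpa [mono] using mul_im0 h1 h3
    · simpa [mono] using mul_im0 h2 h3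
    · simpa [mono] using mul_im0 h3 h3
    · simpa [mono] using mul_im0 (mul_im0 h0 h0) h0
    · simpa [mono] using mul_im0 (mul_im0 h0 h0) h1
    · simpa [mono] using mul_im0 (mul_im0 h0 h0) h2
    · simpa [mono] using mul_im0 (mul_im0 h0 h0) h3
    · simpa [mono] using mul_im0 (mul_im0 h0 h1) h1
    · simpa [mono] using mul_im0 (mul_im0 h0 h1) h2
    · simpa [mono] using mul_im0 (mul_im0 h0 h2) h2
    · simpa [mono] using mul_im0 (mul_im0 h0 h1) h3
    · simpa [mono] using mul_im0 (mul_im0 h0 h2) h3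
    · simpa [mono] using mul_im0 (mul_im0 h1 h1) h1
    · simpa [mono] using mul_im0 (mul_im0 h0 h3) h3
    · simpa [mono] using mul_im0 (mul_im0 h1 h1) h2
    · simpa [mono] using mul_im0 (mul_im0 h1 h2) h2
    · simpa [mono] using mul_im0 (mul_im0 h1 h1) h3
    · simpa [mono] using mul_im0 (mul_im0 h2 h2) h2
    · simpa [mono] using mul_im0 (mul_im0 h1 h2) h3
    · simpa [mono] using mul_im0 (mul_im0 h2 h2) h3
    · simpa [mono] using mul_im0 (mul_im0 h1 h3) h3
    · simpa [mono] using mul_im0 (mul_im0 h2 h3) h3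
    · simpa [mono] using mul_im0 (mul_im0 h3 h3) h3

private theorem mem_lc {n i : Nat} : i ∈ lc n ↔ (i ∈ PL ∨ i ∈ PQ ∨ i ∈ PT) ∧ i ∉ rm n := by
  unfold lc
  rw [List.mem_filter, List.mem_append, List.mem_append, decide_eq_true_eq, or_assoc]

set_option maxRecDepth 20000 in
private theorem rm_props {n : Nat} (hn : n ≤ 4) : (rm n).Nodup ∧ (∀ i ∈ rm n, i < 70) ∧
    (lc n).Nodup ∧ (∀ i ∈ lc n, i < 70) ∧ (rm n ++ lc n).Perm (PL ++ PQ ++ PT) ∧
    (rm n).length + 3 * (lc n).length ≤ 102 := by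
  interval_cases n <;> refine ⟨by decide, by decide, by decide, by decide, by decide, by decide⟩

private theorem re_list (a : Nat → GaussianInt) (ε : List ℂ) (l : List Nat) :
    (evl l a ε).re = (l.map fun k => (toC (a k) * mono ε k).re).sum := by
  unfold evl
  induction l with
  | nil => simp
  | cons k l ih =>
    simp only [List.map_cons, List.sum_cons, Complex.add_re]
    rw [ih]

private theorem list_low (g : Nat → ℝ) (d : Nat → Nat) (c : ℝ) (l : List Nat)
    (h : ∀ k ∈ l, -((d k : ℝ) + c) ≤ g k) :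
    -((((l.map d).sum : Nat) : ℝ) + c * (l.length : ℝ)) ≤ (l.map g).sum := by
  induction l with
  | nil => simp
  | cons k l ih =>
    simp only [List.map_cons, List.sum_cons, List.length_cons]
    have h1 := h k (List.mem_cons_self ..)
    have h2 := ih fun i hi => h i (List.mem_cons_of_mem _ hi)
    push_cast
    push_cast at h2
    linarith

private theorem norm_toC_sq (z : GaussianInt) : ‖toC z‖ ^ 2 = (z.re : ℝ) ^ 2 + (z.im : ℝ) ^ 2 := by
  rw [← Complex.normSq_eq_norm_sq, Complex.normSq_apply, GaussianInt.intCast_re,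
    GaussianInt.intCast_im]
  ring

private theorem norm_cd (X k : Nat) :
    ‖toC (cd X k)‖ = Real.sqrt ((sd X k : ℝ) ^ 2 + (sd X (k + 70) : ℝ) ^ 2) := by
  rw [← Real.sqrt_sq (norm_nonneg (toC (cd X k))), norm_toC_sq]
  rfl

private theorem norm_cd_le {X : Nat} (hX : Good X) {k : Nat} (hk : k < 70) :
    ‖toC (cd X k)‖ ≤ (dg (magX X) k : ℝ) + 3 := by
  rw [norm_cd]
  exact ((magX_spec hX k).1 hk).2

private theorem full_eq : full = 2 ^ 116 - 1 := rfl

private theorem land_full_dg (y : Nat) : Nat.land y full = dg y 0 := by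
  rw [full_eq, land_mask, dg_zero]

/-- a monomial at a position in `rm nr` is real: the coefficient contributes at most `|Re|`; the other
coefficients contribute at most their absolute value. -/
theorem isPos_sound {nr : Nat} {ε : List ℂ} (hε : Small ε) (hr : RealL nr ε) {x : A} {u : ℂ}
    (hx : Mem ε x u) (h : x.isPos nr = true) : 0 < u.re := by
  unfold A.isPos at h
  simp only [Bool.and_eq_true] at h
  obtain ⟨⟨hok, hnr⟩, hle⟩ := h
  have hnr4 : nr ≤ 4 := Nat.le_of_ble_eq_true hnr
  have hle2 := Nat.le_of_ble_eq_true hle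
  have hx' := hx hok
  have hg := hx'.good
  obtain ⟨p1, p2, p3, p4, p5, p6⟩ := rm_props hnr4
  have hR := mask_sum (y := absX x.X) (M := Nat.mul (psel (rm nr)) full) (l := rm nr) p1 p2
    dg_real (fun i hi => lt_of_le_of_lt ((absX_spec hg i).1 (by have := p2 i hi; omega)).1
      (by norm_num))
  have hC := mask_sum (y := magX x.X)
    (M := Nat.mul (Nat.sub (Nat.add (Nat.add pL pQ) pT) (psel (rm nr))) full)
    (l := lc nr) p3 p4 (fun i => by
      rw [dg_cplx i]
      by_cases hi : i ∈ lc nr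
      · rw [if_pos hi, if_pos (mem_lc.1 hi)]
      · rw [if_neg hi, if_neg (fun h => hi (mem_lc.2 h))])
    (fun i hi => ((magX_spec hg i).1 (p4 i hi)).1)
  rw [hR, hC, land_full_dg] at hle2
  simp only [Nat.add_eq] at hle2
  obtain ⟨ρ, hu, hρ, -, -, -⟩ := hx'.split hε
  set g : Nat → ℝ := fun k => (toC (cd x.X k) * mono ε k).re with hgd
  have b1 : ∀ k ∈ rm nr, -((dg (absX x.X) k : ℝ) + 1) ≤ g k := by
    intro k hk
    have h1 := ((absX_spec hg k).1 (by have := p2 k hk; omega)).2.1
    have h2 : |(sd x.X k : ℝ)| ≤ (dg (absX x.X) k : ℝ) + 1 := by exact_mod_cast h1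
    have h3 : g k = (sd x.X k : ℝ) * (mono ε k).re := by
      rw [hgd]
      simp only
      rw [Complex.mul_re, mono_real hr hnr4 hk, mul_zero, sub_zero, ← GaussianInt.intCast_re]
      rfl
    have h4 : |(mono ε k).re| ≤ 1 := (Complex.abs_re_le_norm _).trans (mono_small hε _)
    have h5 : |g k| ≤ (dg (absX x.X) k : ℝ) + 1 := by
      rw [h3, abs_mul]
      exact (mul_le_of_le_one_right (abs_nonneg _) h4).trans h2
    exact (abs_le.1 h5).1
  have b2 : ∀ k ∈ lc nr, -((dg (magX x.X) k : ℝ) + 3) ≤ g k := by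
    intro k hk
    have h1 := norm_cd_le hg (p4 k hk)
    have h5 : |g k| ≤ (dg (magX x.X) k : ℝ) + 3 := by
      refine (Complex.abs_re_le_norm _).trans ?_
      rw [norm_mul]
      exact (mul_le_of_le_one_right (norm_nonneg _) (mono_small hε _)).trans h1
    exact (abs_le.1 h5).1
  have s1 := list_low g (dg (absX x.X)) 1 (rm nr) b1
  have s2 := list_low g (dg (magX x.X)) 3 (lc nr) b2
  have s3 : (evL (cd x.X) ε).re + ((evQ (cd x.X) ε).re + (evT (cd x.X) ε).re) =
      ((rm nr).map g).sum + ((lc nr).map g).sum := by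
    have t1 : (evL (cd x.X) ε).re = (PL.map g).sum := re_list _ _ _
    have t2 : (evQ (cd x.X) ε).re = (PQ.map g).sum := re_list _ _ _
    have t3 : (evT (cd x.X) ε).re = (PT.map g).sum := re_list _ _ _
    rw [t1, t2, t3, ← List.sum_append, ← List.map_append, ← List.sum_append, ← List.map_append,
      ← List.sum_append, ← List.map_append, ← List.append_assoc]
    exact ((p5.map g).sum_eq).symm
  have h6 : (((rm nr).length : ℝ) + 3 * ((lc nr).length : ℝ)) ≤ 102 := by exact_mod_cast p6
  have h7 : (toC (cd x.X 0)).re = (dg x.X 0 : ℝ) - 2 ^ 53 := by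
    rw [← GaussianInt.intCast_re]
    have e : (cd x.X 0).re = (dg x.X 0 : ℤ) - 2 ^ 53 := rfl
    rw [e]
    push_cast
    ring
  have h8 := (abs_le.1 ((Complex.abs_re_le_norm ρ).trans hρ)).1
  have h9 : (9007199254740992 : ℝ) + (((rm nr).map (dg (absX x.X))).sum : Nat) +
      ((((lc nr).map (dg (magX x.X))).sum : Nat) + ((x.r : ℝ) + 150)) ≤ (dg x.X 0 : ℝ) := by
    exact_mod_cast hle2
  have h10 : (u * 2 ^ 40).re = u.re * 2 ^ 40 := by
    have e : (2 : ℂ) ^ 40 = ((2 ^ 40 : ℝ) : ℂ) := by push_cast; rfl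
    rw [e, Complex.re_mul_ofReal]
  have h11 : 0 < u.re * 2 ^ 40 := by
    rw [← h10, hu]
    simp only [Complex.add_re]
    rw [h7]
    have h12 : (9007199254740992 : ℝ) = 2 ^ 53 := by norm_num
    rw [h12] at h9
    linarith
  exact pos_of_mul_pos_left h11 (by positivity)

theorem isLt_sound {ε : List ℂ} (hε : Small ε) {x : A} {u : ℂ} (hx : Mem ε x u) {B : Nat}
    (h : x.isLt B = true) : ‖u‖ < (B : ℝ) / 2 ^ 40 := by
  unfold A.isLt at h
  simp only [Bool.and_eq_true] at h
  obtain ⟨⟨hok, hDB⟩, hle⟩ := h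
  have hDB2 : x.D + 1 ≤ B := Nat.le_of_ble_eq_true hDB
  have hle2 := Nat.le_of_ble_eq_true hle
  have hx' := hx hok
  obtain ⟨ρ, hu, -, hl, hq, hk, -⟩ := hx'.split hε
  obtain ⟨hone, hzd⟩ := cen_spec hx'.good
  have hc : ‖toC (cd x.X 0)‖ < (B : ℝ) - x.D := by
    have hp : ∀ a b : Nat, (((a : ℤ) - b : ℤ) : ℝ) ^ 2 ≤ ((a + b : Nat) : ℝ) ^ 2 := by
      intro a b
      push_cast
      have ha : (0 : ℝ) ≤ a := Nat.cast_nonneg _
      have hb : (0 : ℝ) ≤ b := Nat.cast_nonneg _
      nlinarith [mul_nonneg ha hb]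
    have h1 : (((fd (cen x.X) 0 + fd (cen x.X) 2 : Nat) : ℝ)) ^ 2 +
        (((fd (cen x.X) 1 + fd (cen x.X) 3 : Nat) : ℝ)) ^ 2 + 1 ≤ ((B : ℝ) - x.D) ^ 2 := by
      have h2 : (fd (cen x.X) 0 + fd (cen x.X) 2) ^ 2 + (fd (cen x.X) 1 + fd (cen x.X) 3) ^ 2 + 1 ≤
        (B - x.D) ^ 2 := by
        rw [sq, sq, sq]
        exact hle2
      have h3 : ((B - x.D : Nat) : ℝ) = (B : ℝ) - x.D := Nat.cast_sub (by omega)
      rw [← h3]
      exact_mod_cast h2
    have h5 : (0 : ℝ) ≤ (B : ℝ) - x.D := by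
      have : (x.D : ℝ) + 1 ≤ B := by exact_mod_cast hDB2
      linarith
    apply lt_of_pow_lt_pow_left₀ 2 h5
    rw [← hzd, norm_toC_sq]
    have a1 := hp (fd (cen x.X) 0) (fd (cen x.X) 2)
    have a2 := hp (fd (cen x.X) 1) (fd (cen x.X) 3)
    have e1 : (zd (cen x.X)).re = (fd (cen x.X) 0 : ℤ) - fd (cen x.X) 2 := rfl
    have e2 : (zd (cen x.X)).im = (fd (cen x.X) 1 : ℤ) - fd (cen x.X) 3 := rfl
    rw [e1, e2]
    linarith
  rw [lt_div_iff₀ (by positivity)]
  have e : ‖u‖ * 2 ^ 40 = ‖u * 2 ^ 40‖ := by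
    rw [norm_mul, norm_pow]
    norm_num
  rw [e, hu]
  have n1 := norm_add_le (toC (cd x.X 0))
    (evL (cd x.X) ε + (evQ (cd x.X) ε + (evT (cd x.X) ε + ρ)))
  have n2 := norm_add_le (evL (cd x.X) ε) (evQ (cd x.X) ε + (evT (cd x.X) ε + ρ))
  have n3 := norm_add_le (evQ (cd x.X) ε) (evT (cd x.X) ε + ρ)
  linarith

/-! ### variables -/

private theorem mono_zero (ε : List ℂ) : mono ε 0 = 1 := by simp [mono]

private theorem ev_single (z : GaussianInt) {p : Nat} (hp : p < 70) (ε : List ℂ) :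
    ev (fun k => if p = k then z else 0) ε = toC z * mono ε p := by
  unfold ev
  rw [Finset.sum_eq_single p]
  · simp only [if_true]
  · intro k _ hk
    simp only [if_neg (Ne.symm hk), map_zero, zero_mul]
  · intro h
    exact absurd (Finset.mem_range.2 hp) h

private theorem ev_cen (z : GaussianInt) (ε : List ℂ) :
    ev (fun k => if k = 0 then z else 0) ε = toC z := by
  have h := ev_single z (p := 0) (by norm_num) ε
  rw [mono_zero, mul_one] at h
  rw [← h]
  refine ev_congr (fun k _ => ?_) ε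
  by_cases h0 : k = 0
  · rw [if_pos h0, if_pos h0.symm]
  · rw [if_neg h0, if_neg (Ne.symm h0)]

private theorem mono_pos (ε : List ℂ) {j : Nat} (hj : j < 4) : mono ε (pos j) = get ε j := by
  interval_cases j <;> simp [mono, pos]

private theorem pos_lt {j : Nat} (hj : j < 4) : 0 < pos j ∧ pos j < 70 := by
  interval_cases j <;> simp [pos]

private theorem toC_nat (n : Nat) : toC ⟨n, 0⟩ = (n : ℂ) := by
  rw [GaussianInt.toComplex_def']
  simp

/-- one real variable: noise symbol `j` has the value `(t - c)/h` (`0` if `h = 0`) -/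
theorem mem_var {c h j : Nat} (hj : j < 4) {ε : List ℂ} {t : ℝ}
    (ht : (t : ℂ) = (((c : ℝ) / 2 ^ 40 : ℝ) : ℂ) + (((h : ℝ) / 2 ^ 40 : ℝ) : ℂ) * get ε j) :
    Mem ε (mU (Nat.add fD (Nat.add c (Nat.shiftLeft h (Nat.mul 116 (pos j))))) 0
      (Nat.ble c 9007199254740991 && Nat.ble h 9007199254740991)) (t : ℂ) := by
  refine mem_mU (a := fun k => if k = 0 then ⟨c, 0⟩ else if k = pos j then ⟨h, 0⟩ else 0)
    fun hb hU => ?_
  rw [Bool.and_eq_true] at hb
  refine ⟨var_spec (Nat.le_of_ble_eq_true hb.1) (Nat.le_of_ble_eq_true hb.2) hj hU, ?_⟩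
  have hp := pos_lt hj
  have e : ev (fun k => if k = 0 then (⟨c, 0⟩ : GaussianInt) else if k = pos j then ⟨h, 0⟩ else 0) ε =
      (c : ℂ) + (h : ℂ) * get ε j := by
    have e1 : ev (fun k => if k = 0 then (⟨c, 0⟩ : GaussianInt) else if k = pos j then ⟨h, 0⟩ else 0) ε
        = ev (fun k => if k = 0 then (⟨c, 0⟩ : GaussianInt) else 0) ε +
          ev (fun k => if pos j = k then (⟨h, 0⟩ : GaussianInt) else 0) ε := by
      rw [← ev_add]
      refine ev_congr (fun k _ => ?_) ε
      by_cases h0 : k = 0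
      · rw [if_pos h0, if_pos h0, if_neg (by omega), add_zero]
      · rw [if_neg h0, if_neg h0, zero_add]
        by_cases h1 : k = pos j
        · rw [if_pos h1, if_pos h1.symm]
        · rw [if_neg h1, if_neg (Ne.symm h1)]
    rw [e1, ev_cen, ev_single _ hp.2, mono_pos ε hj, toC_nat, toC_nat]
  rw [e, ht]
  push_cast
  have e2 : ((c : ℂ) / 2 ^ 40 + (h : ℂ) / 2 ^ 40 * get ε j) * 2 ^ 40 - ((c : ℂ) + (h : ℂ) * get ε j) =
      0 := by
    field_simp
    ring
  rw [e2, norm_zero]

theorem mem_disc {j : Nat} (hj : j < 4) (ε : List ℂ) :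
    Mem ε (mU (Nat.add fD (Nat.shiftLeft 1099511627776 (Nat.mul 116 (pos j)))) 0 true)
      (get ε j) := by
  refine mem_mU (a := fun k => if k = pos j then ⟨1099511627776, 0⟩ else 0) fun _ hU => ?_
  refine ⟨disc_spec hj hU, ?_⟩
  have hp := pos_lt hj
  have e : ev (fun k => if k = pos j then (⟨1099511627776, 0⟩ : GaussianInt) else 0) ε =
      2 ^ 40 * get ε j := by
    have e1 : ev (fun k => if k = pos j then (⟨1099511627776, 0⟩ : GaussianInt) else 0) ε
        = ev (fun k => if pos j = k then (⟨((1099511627776 : Nat) : ℤ), 0⟩ : GaussianInt) else 0) ε := by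
      refine ev_congr (fun k _ => ?_) ε
      by_cases h1 : k = pos j
      · rw [if_pos h1, if_pos h1.symm]
        rfl
      · rw [if_neg h1, if_neg (Ne.symm h1)]
    rw [e1, ev_single _ hp.2, mono_pos ε hj, toC_nat]
    norm_num
  rw [e, mul_comm, sub_self, norm_zero]
  norm_num

end Pool.Agent.helper14.CF
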