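import Pool.Agent.helper14.CF.Defs
import Mathlib

/-!
# CF-1: digits in base `2^116`

Adapted from `IB/Field.lean`.
-/

namespace Pool.Agent.helper14.CF

set_option exponentiation.threshold 2000

/-- digit `i` in base `2^116` -/
def dg (X i : Nat) : Nat := X / 2 ^ (116 * i) % 2 ^ 116

theorem dg_eq (X i : Nat) : dg X i = X / 2 ^ (116 * i) % 2 ^ 116 := rfl

theorem dg_lt (X i : Nat) : dg X i < 2 ^ 116 := by
  rw [dg_eq]
  exact Nat.mod_lt _ (by positivity)

theorem dg_zero_left (i : Nat) : dg 0 i = 0 := by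
  rw [dg_eq, Nat.zero_div, Nat.zero_mod]

theorem dg_zero (X : Nat) : dg X 0 = X % 2 ^ 116 := by
  rw [dg_eq]
  norm_num

theorem dg_succ (X i : Nat) : dg X (i + 1) = dg (X / 2 ^ 116) i := by
  rw [dg_eq, dg_eq, Nat.div_div_eq_div_mul, ← pow_add]
  have h : 116 * (i + 1) = 116 + 116 * i := by ring
  rw [h]

theorem dg_ext {X Y : Nat} (h : ∀ i, dg X i = dg Y i) : X = Y := by
  have key : ∀ n : Nat, ∀ X Y : Nat, X ≤ n → (∀ i, dg X i = dg Y i) → X = Y := by
    intro n
    induction n using Nat.strong_induction_on with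
    | _ n ih =>
      intro X Y hX hXY
      have h0 := hXY 0
      rw [dg_zero, dg_zero] at h0
      rcases Nat.eq_zero_or_pos X with h | h
      · subst h
        have key0 : ∀ m : Nat, ∀ Y : Nat, Y ≤ m → (∀ i, dg Y i = 0) → Y = 0 := by
          intro m
          induction m using Nat.strong_induction_on with
          | _ m ih2 =>
            intro Y hY hY0
            by_contra hne
            have h1 := hY0 0
            rw [dg_zero] at h1
            have h2 : Y / 2 ^ 116 < Y := Nat.div_lt_self (Nat.pos_of_ne_zero hne) (by norm_num)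
            have h3 := ih2 (Y / 2 ^ 116) (lt_of_lt_of_le h2 hY) (Y / 2 ^ 116) le_rfl (by
              intro i
              rw [← dg_succ]
              exact hY0 (i + 1))
            have h4 := Nat.div_add_mod Y (2 ^ 116)
            rw [h3, h1] at h4
            apply hne
            rw [← h4]
            norm_num
        exact (key0 Y Y le_rfl (fun i => by rw [← hXY i, dg_zero_left])).symm
      · have h2 : X / 2 ^ 116 < X := Nat.div_lt_self h (by norm_num)
        have h3 := ih (X / 2 ^ 116) (lt_of_lt_of_le h2 hX) (X / 2 ^ 116) (Y / 2 ^ 116) le_rfl (by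
          intro i
          rw [← dg_succ, ← dg_succ]
          exact hXY (i + 1))
        have h4 := Nat.div_add_mod X (2 ^ 116)
        have h5 := Nat.div_add_mod Y (2 ^ 116)
        rw [← h4, ← h5, h3, h0]
  exact key X X Y le_rfl h

theorem dg_of_lt {X n : Nat} (h : X < 2 ^ (116 * n)) {i : Nat} (hi : n ≤ i) : dg X i = 0 := by
  rw [dg_eq]
  have h1 : X < 2 ^ (116 * i) :=
    lt_of_lt_of_le h (Nat.pow_le_pow_right (by norm_num) (by omega))
  rw [Nat.div_eq_of_lt h1, Nat.zero_mod]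

theorem lt_of_dg {X n : Nat} (h : ∀ i, n ≤ i → dg X i = 0) : X < 2 ^ (116 * n) := by
  have h1 : X / 2 ^ (116 * n) = 0 := by
    apply dg_ext
    intro i
    rw [dg_zero_left, ← h (n + i) (by omega), dg_eq, dg_eq, Nat.div_div_eq_div_mul, ← pow_add,
      ← Nat.mul_add]
  exact (Nat.div_eq_zero_iff_lt (by positivity)).mp h1

theorem le_of_dg {X Y : Nat} (h : ∀ i, dg X i ≤ dg Y i) : X ≤ Y := by
  have key : ∀ n : Nat, ∀ X Y : Nat, X ≤ n → (∀ i, dg X i ≤ dg Y i) → X ≤ Y := by
    intro n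
    induction n using Nat.strong_induction_on with
    | _ n ih =>
      intro X Y hX hXY
      rcases Nat.eq_zero_or_pos X with h | h
      · subst h
        exact Nat.zero_le _
      · have h0 := hXY 0
        rw [dg_zero, dg_zero] at h0
        have h2 : X / 2 ^ 116 < X := Nat.div_lt_self h (by norm_num)
        have h3 := ih (X / 2 ^ 116) (lt_of_lt_of_le h2 hX) (X / 2 ^ 116) (Y / 2 ^ 116) le_rfl (by
          intro i
          rw [← dg_succ, ← dg_succ]
          exact hXY (i + 1))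
        have h4 := Nat.div_add_mod X (2 ^ 116)
        have h5 := Nat.div_add_mod Y (2 ^ 116)
        rw [← h4, ← h5]
        exact Nat.add_le_add (Nat.mul_le_mul_left _ h3) h0
  exact key X X Y le_rfl h

theorem dg_land (X Y i : Nat) : dg (Nat.land X Y) i = Nat.land (dg X i) (dg Y i) := by
  have e1 : Nat.land X Y = X &&& Y := rfl
  have e2 : Nat.land (dg X i) (dg Y i) = dg X i &&& dg Y i := rfl
  rw [e1, e2]
  have h : ∀ Z : Nat, dg Z i = (Z >>> (116 * i)) &&& (2 ^ 116 - 1) := fun Z => by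
    rw [dg_eq, Nat.and_two_pow_sub_one_eq_mod, Nat.shiftRight_eq_div_pow]
  rw [h, h, h, Nat.shiftRight_and_distrib]
  apply Nat.eq_of_testBit_eq
  intro j
  simp only [Nat.testBit_and]
  cases Nat.testBit (X >>> (116 * i)) j <;> cases Nat.testBit (Y >>> (116 * i)) j <;>
    cases Nat.testBit (2 ^ 116 - 1) j <;> rfl

theorem land_zero_right (a : Nat) : Nat.land a 0 = 0 := by
  exact Nat.and_zero a

theorem land_mask (a k : Nat) : Nat.land a (2 ^ k - 1) = a % 2 ^ k := by
  exact Nat.and_two_pow_sub_one_eq_mod a k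

theorem dg_shr (X k i : Nat) : dg (Nat.shiftRight X (116 * k)) i = dg X (i + k) := by
  have e1 : Nat.shiftRight X (116 * k) = X >>> (116 * k) := rfl
  rw [e1, dg_eq, dg_eq, Nat.shiftRight_eq_div_pow, Nat.div_div_eq_div_mul, ← pow_add,
    ← Nat.mul_add, Nat.add_comm k i]

theorem dg_shl (X k i : Nat) :
    dg (Nat.shiftLeft X (116 * k)) i = if i < k then 0 else dg X (i - k) := by
  have e1 : Nat.shiftLeft X (116 * k) = X * 2 ^ (116 * k) := Nat.shiftLeft_eq X (116 * k)
  rw [e1]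
  split_ifs with h
  · obtain ⟨d, rfl⟩ : ∃ d, k = i + (d + 1) := ⟨k - i - 1, by omega⟩
    rw [dg_eq]
    have h1 : X * 2 ^ (116 * (i + (d + 1))) = (X * 2 ^ (116 * d) * 2 ^ 116) * 2 ^ (116 * i) := by
      have h2 : 116 * (i + (d + 1)) = 116 * d + 116 + 116 * i := by ring
      rw [h2, pow_add, pow_add]
      ring
    rw [h1, Nat.mul_div_cancel _ (by positivity), Nat.mul_mod_left]
  · obtain ⟨d, rfl⟩ : ∃ d, i = d + k := ⟨i - k, by omega⟩
    have h3 : d + k - k = d := by omega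
    rw [h3, dg_eq, dg_eq]
    have h1 : 116 * (d + k) = 116 * k + 116 * d := by ring
    rw [h1, pow_add, ← Nat.div_div_eq_div_mul, Nat.mul_div_cancel _ (by positivity)]

/-- general shift -/
theorem dg_shr_gen {X s i : Nat} (hs : s ≤ 116) :
    dg (Nat.shiftRight X s) i = dg X i / 2 ^ s + (dg X (i + 1) % 2 ^ s) * 2 ^ (116 - s) := by
  have e1 : Nat.shiftRight X s = X / 2 ^ s := Nat.shiftRight_eq_div_pow X s
  rw [e1, dg_eq, dg_eq, dg_eq, Nat.div_div_eq_div_mul, ← pow_add]
  have h1 : 116 * (i + 1) = 116 * i + 116 := by ring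
  rw [h1, pow_add 2 (116 * i) 116, ← Nat.div_div_eq_div_mul X (2 ^ (116 * i)) (2 ^ 116), Nat.add_comm s,
    pow_add 2 (116 * i) s, ← Nat.div_div_eq_div_mul X (2 ^ (116 * i)) (2 ^ s)]
  set W := X / 2 ^ (116 * i) with hW
  obtain ⟨t, ht⟩ : ∃ t, 116 = s + t := ⟨116 - s, by omega⟩
  have ht2 : 116 - s = t := by omega
  rw [ht2]
  have hp : (2 : Nat) ^ 116 = 2 ^ s * 2 ^ t := by
    rw [← pow_add, ← ht]
  have hs0 : 0 < (2 : Nat) ^ s := by positivity
  have ht0 : 0 < (2 : Nat) ^ t := by positivity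
  have hpr : (2 : Nat) ^ s * 2 ^ t = 2 ^ t * 2 ^ s := Nat.mul_comm _ _
  have hq1 : W / 2 ^ s / 2 ^ t = W / 2 ^ 116 := by
    rw [Nat.div_div_eq_div_mul, ← hp]
  have hq2 : W / 2 ^ s % 2 ^ t = W % 2 ^ 116 / 2 ^ s := by
    rw [hp, Nat.mod_mul_right_div_self]
  have hq3 : W / 2 ^ s % 2 ^ 116 = W / 2 ^ s % 2 ^ t + 2 ^ t * (W / 2 ^ s / 2 ^ t % 2 ^ s) := by
    rw [hp, hpr]
    exact Nat.mod_mul
  have hq4 : W / 2 ^ 116 % 2 ^ 116 % 2 ^ s = W / 2 ^ 116 % 2 ^ s := by
    apply Nat.mod_mod_of_dvd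
    exact ⟨2 ^ t, hp⟩
  rw [hq3, hq2, hq1, hq4, Nat.mul_comm (2 ^ t)]

/-- shift inside the fields: the mask has `116 - k` ones in the field `i` -/
theorem dg_shr_mask {X M k i : Nat} (hk : k ≤ 116) (hM : dg M i = 2 ^ (116 - k) - 1) :
    dg (Nat.land (Nat.shiftRight X k) M) i = dg X i / 2 ^ k := by
  rw [dg_land, hM, dg_shr_gen hk, land_mask]
  have ht0 : 0 < (2 : Nat) ^ (116 - k) := by positivity
  rw [Nat.add_mul_mod_self_right]
  apply Nat.mod_eq_of_lt
  rw [Nat.div_lt_iff_lt_mul (by positivity), ← pow_add]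
  have h1 : 116 - k + k = 116 := by omega
  rw [h1]
  exact dg_lt X i

/-- no overflow in any field -/
theorem dg_add {X Y : Nat} (h : ∀ i, dg X i + dg Y i < 2 ^ 116) (i : Nat) :
    dg (X + Y) i = dg X i + dg Y i := by
  induction i generalizing X Y with
  | zero =>
    have h0 := h 0
    rw [dg_zero, dg_zero] at h0
    rw [dg_zero, dg_zero, dg_zero, Nat.add_mod, Nat.mod_eq_of_lt h0]
  | succ n ih =>
    have h0 := h 0
    rw [dg_zero, dg_zero] at h0
    rw [dg_succ, dg_succ, dg_succ]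
    have h1 : (X + Y) / 2 ^ 116 = X / 2 ^ 116 + Y / 2 ^ 116 := by
      rw [Nat.add_div (by positivity), if_neg (by omega), Nat.add_zero]
    rw [h1]
    apply ih
    intro i
    rw [← dg_succ, ← dg_succ]
    exact h (i + 1)

/-- no borrow in any field -/
theorem dg_sub {X Y : Nat} (h : ∀ i, dg Y i ≤ dg X i) (i : Nat) :
    dg (X - Y) i = dg X i - dg Y i := by
  have hle : Y ≤ X := le_of_dg h
  induction i generalizing X Y with
  | zero =>
    have h0 := h 0
    rw [dg_zero, dg_zero] at h0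
    rw [dg_zero, dg_zero, dg_zero]
    omega
  | succ n ih =>
    have h0 := h 0
    rw [dg_zero, dg_zero] at h0
    rw [dg_succ, dg_succ, dg_succ]
    have h1 : (X - Y) / 2 ^ 116 = X / 2 ^ 116 - Y / 2 ^ 116 := by
      omega
    have h2 : ∀ i, dg (Y / 2 ^ 116) i ≤ dg (X / 2 ^ 116) i := by
      intro i
      rw [← dg_succ, ← dg_succ]
      exact h (i + 1)
    rw [h1]
    exact ih h2 (le_of_dg h2)

theorem dg_mul_one {X c : Nat} (h : ∀ i, dg X i * c < 2 ^ 116) (i : Nat) :
    dg (X * c) i = dg X i * c := by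
  induction i generalizing X with
  | zero =>
    have h0 := h 0
    rw [dg_zero] at h0
    rw [dg_zero, dg_zero, Nat.mul_mod, Nat.mod_eq_of_lt (a := X % 2 ^ 116 * (c % 2 ^ 116))]
    · rcases Nat.eq_zero_or_pos (X % 2 ^ 116) with h1 | h1
      · rw [h1, Nat.zero_mul, Nat.zero_mul]
      · have h2 : c < 2 ^ 116 := lt_of_le_of_lt (Nat.le_mul_of_pos_left c h1) h0
        rw [Nat.mod_eq_of_lt h2]
    · exact lt_of_le_of_lt (Nat.mul_le_mul_left _ (Nat.mod_le _ _)) h0
  | succ n ih =>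
    have h0 := h 0
    rw [dg_zero] at h0
    rw [dg_succ, dg_succ]
    have h1 : X * c / 2 ^ 116 = X / 2 ^ 116 * c := by
      have h4 := Nat.div_add_mod X (2 ^ 116)
      have h5 : X * c = X % 2 ^ 116 * c + 2 ^ 116 * (X / 2 ^ 116 * c) := by
        calc X * c = (2 ^ 116 * (X / 2 ^ 116) + X % 2 ^ 116) * c := by rw [h4]
          _ = _ := by ring
      rw [h5, Nat.add_mul_div_left _ _ (by positivity), Nat.div_eq_of_lt h0, Nat.zero_add]
    rw [h1]
    apply ih
    intro i
    rw [← dg_succ]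
    exact h (i + 1)


theorem dg_xor (X Y i : Nat) : dg (Nat.xor X Y) i = Nat.xor (dg X i) (dg Y i) := by
  have e1 : Nat.xor X Y = X ^^^ Y := rfl
  have e2 : Nat.xor (dg X i) (dg Y i) = dg X i ^^^ dg Y i := rfl
  rw [e1, e2]
  have h : ∀ Z : Nat, dg Z i = (Z >>> (116 * i)) &&& (2 ^ 116 - 1) := fun Z => by
    rw [dg_eq, Nat.and_two_pow_sub_one_eq_mod, Nat.shiftRight_eq_div_pow]
  rw [h, h, h, Nat.shiftRight_xor_distrib]
  apply Nat.eq_of_testBit_eq
  intro j
  simp only [Nat.testBit_and, Nat.testBit_xor]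
  cases Nat.testBit (X >>> (116 * i)) j <;> cases Nat.testBit (Y >>> (116 * i)) j <;>
    cases Nat.testBit (2 ^ 116 - 1) j <;> rfl

theorem dg_mod_pow (X n i : Nat) : dg (X % 2 ^ (116 * n)) i = if i < n then dg X i else 0 := by
  split_ifs with h
  · obtain ⟨d, rfl⟩ : ∃ d, n = i + (d + 1) := ⟨n - i - 1, by omega⟩
    rw [dg_eq, dg_eq]
    have h1 : 116 * (i + (d + 1)) = 116 * i + (116 * d + 116) := by ring
    rw [h1, pow_add 2 (116 * i), Nat.mod_mul_right_div_self, pow_add, Nat.mul_comm (2 ^ (116 * d)),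
      Nat.mod_mod_of_dvd _ (Dvd.intro _ rfl)]
  · exact dg_of_lt (Nat.mod_lt _ (by positivity)) (by omega)

/-- the number with the digits `d i`, `i < n` -/
theorem dg_mk (d : Nat → Nat) (n : Nat) (h : ∀ i, i < n → d i < 2 ^ 116) (i : Nat) :
    dg (∑ j ∈ Finset.range n, d j * 2 ^ (116 * j)) i = if i < n then d i else 0 := by
  induction n generalizing d i with
  | zero => simp [dg_zero_left]
  | succ n ih =>
    rw [Finset.sum_range_succ']
    have e0 : ∀ k : Nat, d (k + 1) * 2 ^ (116 * (k + 1)) = 2 ^ 116 * (d (k + 1) * 2 ^ (116 * k)) := by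
      intro k
      rw [Nat.mul_add, Nat.mul_one, pow_add, ← Nat.mul_assoc, Nat.mul_comm]
    have e : ∑ k ∈ Finset.range n, d (k + 1) * 2 ^ (116 * (k + 1)) + d 0 * 2 ^ (116 * 0) =
        d 0 + 2 ^ 116 * ∑ k ∈ Finset.range n, d (k + 1) * 2 ^ (116 * k) := by
      rw [Finset.sum_congr rfl (fun k _ => e0 k), ← Finset.mul_sum, Nat.mul_zero, pow_zero,
        Nat.mul_one, Nat.add_comm]
    rw [e]
    have h0 := h 0 (Nat.succ_pos n)
    cases i with
    | zero =>
      rw [dg_zero, Nat.add_mul_mod_self_left, Nat.mod_eq_of_lt h0, if_pos (Nat.succ_pos n)]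
    | succ i =>
      have h1 := ih (fun k => d (k + 1)) (fun k hk => h (k + 1) (by omega)) i
      generalize ∑ k ∈ Finset.range n, d (k + 1) * 2 ^ (116 * k) = S at *
      have h2 : (d 0 + 2 ^ 116 * S) / 2 ^ 116 = S := by
        rw [Nat.add_mul_div_left _ _ (by positivity), Nat.div_eq_of_lt h0, Nat.zero_add]
      rw [dg_succ, h2, h1]
      by_cases h3 : i < n
      · rw [if_pos h3, if_pos (Nat.succ_lt_succ h3)]
      · rw [if_neg h3, if_neg (fun h4 => h3 (Nat.lt_of_succ_lt_succ h4))]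

theorem eq_sum {X n : Nat} (h : X < 2 ^ (116 * n)) :
    X = ∑ j ∈ Finset.range n, dg X j * 2 ^ (116 * j) := by
  apply dg_ext
  intro i
  rw [dg_mk _ n (fun j _ => dg_lt X j) i]
  split_ifs with h1
  · rfl
  · exact dg_of_lt h (by omega)

/-- sum of digits -/
theorem mod_full {X n : Nat} (h : X < 2 ^ (116 * n))
    (hs : ∑ j ∈ Finset.range n, dg X j < 2 ^ 116 - 1) :
    Nat.mod X full = ∑ j ∈ Finset.range n, dg X j := by
  have hf : full = 2 ^ 116 - 1 := rfl
  have key : ∀ n : Nat, ∀ d : Nat → Nat, ∃ q, ∑ j ∈ Finset.range n, d j * 2 ^ (116 * j) =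
      ∑ j ∈ Finset.range n, d j + (2 ^ 116 - 1) * q := by
    intro n
    induction n with
    | zero => intro d; exact ⟨0, by simp⟩
    | succ n ih =>
      intro d
      obtain ⟨q, hq⟩ := ih (fun k => d (k + 1))
      refine ⟨q + ∑ k ∈ Finset.range n, d (k + 1) + (2 ^ 116 - 1) * q, ?_⟩
      rw [Finset.sum_range_succ', Finset.sum_range_succ']
      have e : ∑ k ∈ Finset.range n, d (k + 1) * 2 ^ (116 * (k + 1)) =
          2 ^ 116 * ∑ k ∈ Finset.range n, d (k + 1) * 2 ^ (116 * k) := by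
        rw [Finset.mul_sum]
        apply Finset.sum_congr rfl
        intro k _
        rw [Nat.mul_add, Nat.mul_one, pow_add]
        ring
      rw [e, hq, Nat.mul_zero, pow_zero, Nat.mul_one]
      have e2 : (2 : Nat) ^ 116 = (2 ^ 116 - 1) + 1 := by norm_num
      generalize ∑ k ∈ Finset.range n, d (k + 1) = s
      generalize (2 : Nat) ^ 116 - 1 = f at *
      rw [e2]
      ring
  obtain ⟨q, hq⟩ := key n (dg X)
  have h1 : Nat.mod X full = X % (2 ^ 116 - 1) := by rw [hf]; rfl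
  rw [h1]
  conv_lhs => rw [eq_sum h, hq]
  rw [Nat.add_mul_mod_self_left, Nat.mod_eq_of_lt hs]

end Pool.Agent.helper14.CF
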