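import Pool.Agent.helper14.CF.Model

/-!
# CF-5a: digits of the intermediate results of inv, exp, log
-/

namespace Pool.Agent.helper14.CF

open Complex
open Pool.Agent.helper31.IA (Z Small get RealL)
open Pool.Agent.helper31.IB (fd One bz mg ofZ zinv dmag)
open Pool.Agent.helper31.IF (zexp zlog)

/-! ### auxiliary -/

private theorem fbd {z w : GaussianInt} {m n : ℤ} (hm : 0 ≤ m)
    (hz : |z.re| ≤ m ∧ |z.im| ≤ m) (hw : |w.re| ≤ n ∧ |w.im| ≤ n) :
    |(z * w).re| ≤ 2 * (m * n) ∧ |(z * w).im| ≤ 2 * (m * n) := by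
  have mm : ∀ s t : ℤ, |s| ≤ m → |t| ≤ n → |s * t| ≤ m * n := by
    intro s t hs ht
    rw [abs_mul]
    exact mul_le_mul hs ht (abs_nonneg _) hm
  have h1 := abs_le.1 (mm _ _ hz.1 hw.1)
  have h2 := abs_le.1 (mm _ _ hz.2 hw.2)
  have h3 := abs_le.1 (mm _ _ hz.1 hw.2)
  have h4 := abs_le.1 (mm _ _ hz.2 hw.1)
  constructor
  · rw [Zsqrtd.re_mul, abs_le]
    constructor <;> linarith [h1.1, h1.2, h2.1, h2.2]
  · rw [Zsqrtd.im_mul, abs_le]
    constructor <;> linarith [h3.1, h3.2, h4.1, h4.2]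

private theorem fcd {X : Nat} (hX : Good X) (k : Nat) :
    |(cd X k).re| ≤ 2 ^ 53 ∧ |(cd X k).im| ≤ 2 ^ 53 := by
  have h1 := sd_bound hX k
  have h2 := sd_bound hX (k + 70)
  constructor
  · show |sd X k| ≤ 2 ^ 53
    rw [abs_le]
    exact ⟨h1.1, h1.2.le⟩
  · show |sd X (k + 70)| ≤ 2 ^ 53
    rw [abs_le]
    exact ⟨h2.1, h2.2.le⟩

private theorem fst {X : Nat} {a : Nat → GaussianInt} (hX : St X a) {k : Nat} (hk : k < 70) :
    |(a k).re| ≤ 2 ^ 53 ∧ |(a k).im| ≤ 2 ^ 53 := by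
  rw [← hX.eq k hk]
  exact fcd hX.good k

private theorem fzero : |(0 : GaussianInt).re| ≤ 2 ^ 53 ∧ |(0 : GaussianInt).im| ≤ 2 ^ 53 := by
  constructor
  · show |(0 : ℤ)| ≤ 2 ^ 53
    norm_num
  · show |(0 : ℤ)| ≤ 2 ^ 53
    norm_num

private theorem fcd0 {X : Nat} (hX : Good X) (k : Nat) :
    |(if k = 0 then (0 : GaussianInt) else cd X k).re| ≤ 2 ^ 53 ∧
      |(if k = 0 then (0 : GaussianInt) else cd X k).im| ≤ 2 ^ 53 := by
  by_cases h : k = 0
  · rw [if_pos h]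
    exact fzero
  · rw [if_neg h]
    exact fcd hX k

/-- product with a number `|z| ≤ 2^54` and a digit `≤ 2^54` -/
private theorem fprod {z w : GaussianInt} {n : Nat} (hz : |z.re| ≤ n ∧ |z.im| ≤ n)
    (hn : n ≤ 2 ^ 54) (hw : |w.re| ≤ 2 ^ 54 ∧ |w.im| ≤ 2 ^ 54) :
    |(z * w).re| ≤ 5 * 2 ^ 108 ∧ |(z * w).im| ≤ 5 * 2 ^ 108 := by
  have hn2 : ((n : ℕ) : ℤ) ≤ 2 ^ 54 := by exact_mod_cast hn
  have h := fbd (m := 2 ^ 54) (n := 2 ^ 54) (by positivity)
    ⟨hz.1.trans hn2, hz.2.trans hn2⟩ hw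
  have e : (2 : ℤ) * (2 ^ 54 * 2 ^ 54) ≤ 5 * 2 ^ 108 := by norm_num
  exact ⟨h.1.trans e, h.2.trans e⟩

private theorem f5354 {w : GaussianInt} (hw : |w.re| ≤ 2 ^ 53 ∧ |w.im| ≤ 2 ^ 53) :
    |w.re| ≤ 2 ^ 54 ∧ |w.im| ≤ 2 ^ 54 := by
  have e : (2 : ℤ) ^ 53 ≤ 2 ^ 54 := by norm_num
  exact ⟨hw.1.trans e, hw.2.trans e⟩

private theorem fadd {v w : GaussianInt} (hv : |v.re| ≤ 2 ^ 53 ∧ |v.im| ≤ 2 ^ 53)
    (hw : |w.re| ≤ 2 ^ 53 ∧ |w.im| ≤ 2 ^ 53) :
    |(v + w).re| ≤ 2 ^ 54 ∧ |(v + w).im| ≤ 2 ^ 54 := by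
  have e : (2 : ℤ) ^ 53 + 2 ^ 53 = 2 ^ 54 := by norm_num
  rw [Zsqrtd.re_add, Zsqrtd.im_add, ← e]
  exact ⟨(abs_add_le _ _).trans (add_le_add hv.1 hw.1),
    (abs_add_le _ _).trans (add_le_add hv.2 hw.2)⟩

private theorem fsub {v w : GaussianInt} (hv : |v.re| ≤ 2 ^ 53 ∧ |v.im| ≤ 2 ^ 53)
    (hw : |w.re| ≤ 2 ^ 53 ∧ |w.im| ≤ 2 ^ 53) :
    |(v - w).re| ≤ 2 ^ 54 ∧ |(v - w).im| ≤ 2 ^ 54 := by
  have e : (2 : ℤ) ^ 53 + 2 ^ 53 = 2 ^ 54 := by norm_num
  rw [Zsqrtd.re_sub, Zsqrtd.im_sub, ← e]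
  exact ⟨(abs_sub _ _).trans (add_le_add hv.1 hw.1),
    (abs_sub _ _).trans (add_le_add hv.2 hw.2)⟩

private theorem evl_congr {l : List Nat} {a b : Nat → GaussianInt} (h : ∀ k ∈ l, a k = b k)
    (ε : List ℂ) : evl l a ε = evl l b ε := by
  unfold evl
  congr 1
  apply List.map_congr_left
  intro k hk
  rw [h k hk]

private theorem evl_mul (l : List Nat) (z : GaussianInt) (a : Nat → GaussianInt) (ε : List ℂ) :
    evl l (fun k => z * a k) ε = toC z * evl l a ε := by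
  unfold evl
  rw [← List.sum_map_mul_left]
  congr 1
  apply List.map_congr_left
  intro k _
  rw [map_mul, mul_assoc]

private theorem evl_add (l : List Nat) (a b : Nat → GaussianInt) (ε : List ℂ) :
    evl l (fun k => a k + b k) ε = evl l a ε + evl l b ε := by
  unfold evl
  induction l with
  | nil => simp
  | cons i l ih =>
    simp only [List.map_cons, List.sum_cons, map_add] at ih ⊢
    rw [ih]
    ring

private theorem evl_sub (l : List Nat) (a b : Nat → GaussianInt) (ε : List ℂ) :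
    evl l (fun k => a k - b k) ε = evl l a ε - evl l b ε := by
  unfold evl
  induction l with
  | nil => simp
  | cons i l ih =>
    simp only [List.map_cons, List.sum_cons, map_sub] at ih ⊢
    rw [ih]
    ring

/-- deviation from the centre -/
private theorem ev_dev (a : Nat → GaussianInt) (ε : List ℂ) :
    ev (fun k => if k = 0 then 0 else a k) ε = ev a ε - toC (a 0) := by
  have h1 : ev (res [0] a) ε = evl [0] a ε :=
    ev_res (by simp) (by intro i hi; rw [List.mem_singleton] at hi; omega) a ε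
  have h2 : evl [0] a ε = toC (a 0) := by
    simp [evl, mono]
  have h3 := ev_sub a (res [0] a) ε
  rw [h1, h2] at h3
  rw [← h3]
  apply ev_congr
  intro k _
  unfold res
  by_cases hk : k = 0
  · subst hk
    simp
  · rw [if_neg hk, if_neg (by simpa using hk), sub_zero]

/-- a vector with digits at the quadratic positions only -/
private theorem ev_quad {a : Nat → GaussianInt} (hs : ∀ k, k ∉ PQ → a k = 0) (ε : List ℂ) :
    evQ a ε = ev a ε := by
  show evl PQ a ε = ev a ε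
  rw [← ev_res (l := PQ) (by decide) (fun i hi => PQ_lt hi) a ε]
  apply ev_congr
  intro k _
  unfold res
  by_cases hk : k ∈ PQ
  · rw [if_pos hk]
  · rw [if_neg hk, hs k hk]

private theorem CV_zero {l1 l2 : List Nat} {k : Nat} (h : ∀ i ∈ l1, ∀ j ∈ l2, i + j ≠ k)
    (a b : Nat → GaussianInt) : CV l1 l2 a b k = 0 := by
  unfold CV
  apply List.sum_eq_zero
  intro x hx
  obtain ⟨i, hi, rfl⟩ := List.mem_map.1 hx
  apply List.sum_eq_zero
  intro y hy
  obtain ⟨j, hj, rfl⟩ := List.mem_map.1 hy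
  rw [if_neg (h i hi j hj)]

private theorem fl_zero {s : Nat} {a : Nat → GaussianInt} {k : Nat} (h : a k = 0) :
    fl s a k = 0 := by
  unfold fl
  rw [h]
  apply Zsqrtd.ext
  · show (0 : ℤ) / 2 ^ s = 0
    exact Int.zero_ediv _
  · show (0 : ℤ) / 2 ^ s = 0
    exact Int.zero_ediv _

/-- second factor of the cubic part -/
private def snd (c a : Nat → GaussianInt) (k : Nat) : GaussianInt :=
  if k ∈ PL then c k else 2 * c k + a k

private theorem PL_not_PQ {k : Nat} (hk : k ∈ PL) : k ∉ PQ := by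
  have h : ∀ k ∈ PL, k ∉ PQ := by decide
  exact h k hk

private theorem PLQ_lt {i j : Nat} (hi : i ∈ PL) (hj : j ∈ PLQ) : i + j < 70 := by
  have h : ∀ i ∈ PL, ∀ j ∈ PLQ, i + j < 70 := by decide
  exact h i hi j hj

private theorem snd_V {c a : Nat → GaussianInt} (hs : ∀ k, k ∉ PQ → a k = 0) :
    V (res PL c) + (V (res PQ c) + V (res PQ c)) + V a = V (res PLQ (snd c a)) := by
  rw [← V_add, ← V_add, ← V_add]
  apply V_congr
  intro k _
  unfold res snd PLQ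
  by_cases h1 : k ∈ PL
  · rw [if_pos h1, if_neg (PL_not_PQ h1), if_pos (List.mem_append_left _ h1), if_pos h1,
      hs k (PL_not_PQ h1)]
    ring
  · by_cases h2 : k ∈ PQ
    · rw [if_neg h1, if_pos h2, if_pos (List.mem_append_right _ h2), if_neg h1]
      ring
    · rw [if_neg h1, if_neg h2, hs k h2, if_neg (by
        rw [List.mem_append]
        exact not_or.2 ⟨h1, h2⟩)]
      ring

private theorem snd_ev {c a : Nat → GaussianInt} (hs : ∀ k, k ∉ PQ → a k = 0) (ε : List ℂ) :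
    ev (CV PL PLQ c (snd c a)) ε = evL c ε * (evL c ε + 2 * evQ c ε + ev a ε) := by
  rw [ev_LQ]
  have h1 : evL (snd c a) ε = evL c ε := by
    apply evl_congr
    intro k hk
    unfold snd
    rw [if_pos hk]
  have h2 : evQ (snd c a) ε = 2 * evQ c ε + ev a ε := by
    have h3 : evQ (snd c a) ε = evQ (fun k => 2 * c k + a k) ε := by
      apply evl_congr
      intro k hk
      unfold snd
      rw [if_neg (fun h => PL_not_PQ h hk)]
    rw [h3, ← ev_quad hs ε]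
    have h4 := evl_add PQ (fun k => 2 * c k) a ε
    have h5 := evl_mul PQ 2 c ε
    have h6 : toC (2 : GaussianInt) = 2 := map_ofNat toC 2
    rw [h6] at h5
    show evl PQ (fun k => 2 * c k + a k) ε = 2 * evl PQ c ε + evl PQ a ε
    rw [h4, h5]
  rw [h1, h2]
  ring

private theorem snd_bd {c a : Nat → GaussianInt}
    (hc : ∀ k, |(c k).re| ≤ 2 ^ 53 ∧ |(c k).im| ≤ 2 ^ 53)
    (ha : ∀ k, k < 70 → |(a k).re| ≤ 2 ^ 53 ∧ |(a k).im| ≤ 2 ^ 53) (k : Nat) :
    |(CV PL PLQ c (snd c a) k).re| ≤ 5 * 2 ^ 108 ∧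
      |(CV PL PLQ c (snd c a) k).im| ≤ 5 * 2 ^ 108 := by
  have h := CV_bound (l1 := PL) (l2 := PLQ) (a := c) (b := snd c a) (m := 2 ^ 53)
    (n := 3 * 2 ^ 53) (c := 3) (by positivity) (by positivity) (fun i _ => hc i) (fun j hj => ?_) k
    (cnt_LQ k)
  · have e : (2 : ℤ) * ((3 : ℕ) : ℤ) * (2 ^ 53 * (3 * 2 ^ 53)) ≤ 5 * 2 ^ 108 := by norm_num
    exact ⟨h.1.trans e, h.2.trans e⟩
  · have h1 := hc j
    unfold snd
    by_cases hp : j ∈ PL
    · rw [if_pos hp]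
      exact ⟨h1.1.trans (by norm_num), h1.2.trans (by norm_num)⟩
    · rw [if_neg hp]
      have hj2 : j < 70 := by
        rcases List.mem_append.1 hj with h2 | h2
        · exact PL_lt h2
        · exact PQ_lt h2
      have h2 := ha j hj2
      have e2 : (2 : GaussianInt) * c j = c j + c j := two_mul _
      rw [e2, Zsqrtd.re_add, Zsqrtd.re_add, Zsqrtd.im_add, Zsqrtd.im_add]
      rw [abs_le, abs_le] at h1 h2
      rw [abs_le, abs_le]
      refine ⟨⟨?_, ?_⟩, ?_, ?_⟩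
      · linarith [h1.1.1, h2.1.1]
      · linarith [h1.1.2, h2.1.2]
      · linarith [h1.2.1, h2.2.1]
      · linarith [h1.2.2, h2.2.2]

private theorem PL_nodup : PL.Nodup := by decide

private theorem PLQ_nodup : PLQ.Nodup := by decide

private theorem cub_V {X F : Nat} {a : Nat → GaussianInt} (hX : Good X)
    (hF : ((F : ℕ) : ZMod NN) = V a) (hs : ∀ k, k ∉ PQ → a k = 0) :
    ((Nat.mul (linV X) (Nat.add (Nat.add (linV X) (Nat.add (quaV X) (quaV X))) F) : ℕ) :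
      ZMod NN) = V (CV PL PLQ (cd X) (snd (cd X) a)) := by
  have e : Nat.add (Nat.add (linV X) (Nat.add (quaV X) (quaV X))) F =
      linV X + (quaV X + quaV X) + F := rfl
  rw [Nat.mul_eq, Nat.cast_mul, e, Nat.cast_add, Nat.cast_add, Nat.cast_add, val_L hX, val_Q hX, hF,
    snd_V hs]
  exact V_res_mul PL_nodup PLQ_nodup (fun i hi j hj => PLQ_lt hi hj) _ _

private theorem neg_supp {a : Nat → GaussianInt} (hs : ∀ k, k ∉ PQ → a k = 0) :
    ∀ k, k ∉ PQ → (fun k => -a k) k = 0 := by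
  intro k hk
  show -a k = 0
  rw [hs k hk, neg_zero]

private theorem V_neg (a : Nat → GaussianInt) : V (fun k => -a k) = -V a := by
  have h := V_sub (fun _ => 0) a
  rw [V_zero, zero_sub] at h
  rw [← h]
  apply V_congr
  intro k _
  show -a k = 0 - a k
  ring

private theorem ev_neg (a : Nat → GaussianInt) (ε : List ℂ) : ev (fun k => -a k) ε = -ev a ε := by
  have h := ev_mul (-1) a ε
  rw [map_neg, map_one, neg_one_mul] at h
  rw [← h]
  apply ev_congr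
  intro k _
  show -a k = -1 * a k
  ring

private theorem neg_bd {W : Nat} {a : Nat → GaussianInt} (hW : St W a) :
    ∀ k, k < 70 → |((fun k => -a k) k).re| ≤ 2 ^ 53 ∧ |((fun k => -a k) k).im| ≤ 2 ^ 53 := by
  intro k hk
  have h := fst hW hk
  have e1 : ((fun k => -a k) k).re = -(a k).re := rfl
  have e2 : ((fun k => -a k) k).im = -(a k).im := rfl
  rw [e1, e2, abs_neg, abs_neg]
  exact h

/-! ### unit F1: digits of the intermediate results -/

/-- deviation times a number -/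
theorem devmul_spec {ε : List ℂ} (hε : Small ε) {X c n : Nat} {z : GaussianInt} (hX : Good X)
    (hc : ((c : ℕ) : ZMod NN) = phi z) (hz : |z.re| ≤ n ∧ |z.im| ≤ n) (hn : n ≤ 2 ^ 54)
    (h : okU (r40 (Nat.mul (dev X) c)) = true) :
    ∃ a, St (cut (r40 (Nat.mul (dev X) c))) a ∧
      ‖ev a ε - toC z * (ev (cd X) ε - toC (cd X 0)) / 2 ^ 40‖ ≤ 50 ∧
      ‖evL a ε - toC z * evL (cd X) ε / 2 ^ 40‖ ≤ 6 ∧
      ‖evQ a ε - toC z * evQ (cd X) ε / 2 ^ 40‖ ≤ 15 := by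
  have hP : ((Nat.mul (dev X) c : ℕ) : ZMod NN) = V (fun k => z * (if k = 0 then 0 else cd X k)) := by
    rw [Nat.mul_eq, Nat.cast_mul, val_D hX, hc, mul_comm, ← V_mul]
  have hst := r40_spec hP (fun k _ => fprod hz hn (f5354 (fcd0 hX k))) h
  refine ⟨fl 40 (fun k => z * (if k = 0 then 0 else cd X k)), hst, ?_, ?_, ?_⟩
  · have h1 := ev_fl hε 40 (fun k => z * (if k = 0 then 0 else cd X k))
    rw [ev_mul, ev_dev] at h1
    exact h1
  · have h1 := evL_fl hε 40 (fun k => z * (if k = 0 then 0 else cd X k))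
    have h2 : evL (fun k => z * (if k = 0 then 0 else cd X k)) ε = toC z * evL (cd X) ε := by
      show evl PL _ ε = toC z * evl PL _ ε
      rw [evl_mul PL z (fun k => if k = 0 then 0 else cd X k) ε]
      have h3 : ∀ k ∈ PL, k ≠ 0 := by decide
      have h4 : evl PL (fun k => if k = 0 then 0 else cd X k) ε = evl PL (cd X) ε :=
        evl_congr (fun k hk => if_neg (h3 k hk)) ε
      rw [h4]
    rw [h2] at h1
    exact h1
  · have h1 := evQ_fl hε 40 (fun k => z * (if k = 0 then 0 else cd X k))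
    have h2 : evQ (fun k => z * (if k = 0 then 0 else cd X k)) ε = toC z * evQ (cd X) ε := by
      show evl PQ _ ε = toC z * evl PQ _ ε
      rw [evl_mul PQ z (fun k => if k = 0 then 0 else cd X k) ε]
      have h3 : ∀ k ∈ PQ, k ≠ 0 := by decide
      have h4 : evl PQ (fun k => if k = 0 then 0 else cd X k) ε = evl PQ (cd X) ε :=
        evl_congr (fun k hk => if_neg (h3 k hk)) ε
      rw [h4]
    rw [h2] at h1
    exact h1

/-- square of the linear part -/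
theorem sq_spec {ε : List ℂ} (hε : Small ε) {X : Nat} (hX : Good X)
    (h : okU (r40 (Nat.mul (linV X) (linV X))) = true) :
    ∃ a, St (cut (r40 (Nat.mul (linV X) (linV X)))) a ∧ (∀ k, k ∉ PQ → a k = 0) ∧
      ‖ev a ε - evL (cd X) ε ^ 2 / 2 ^ 40‖ ≤ 50 := by
  have hP : ((Nat.mul (linV X) (linV X) : ℕ) : ZMod NN) = V (CV PL PL (cd X) (cd X)) := by
    rw [Nat.mul_eq, Nat.cast_mul, val_L hX]
    exact V_res_mul PL_nodup PL_nodup (by decide) _ _
  have hb : ∀ k, |(CV PL PL (cd X) (cd X) k).re| ≤ 5 * 2 ^ 108 ∧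
      |(CV PL PL (cd X) (cd X) k).im| ≤ 5 * 2 ^ 108 := by
    intro k
    have h1 := CV_bound (l1 := PL) (l2 := PL) (a := cd X) (b := cd X) (m := 2 ^ 53)
      (n := 2 ^ 53) (c := 2) (by positivity) (by positivity) (fun i _ => fcd hX i)
      (fun i _ => fcd hX i) k (cnt_LL k)
    have e : (2 : ℤ) * ((2 : ℕ) : ℤ) * (2 ^ 53 * 2 ^ 53) ≤ 5 * 2 ^ 108 := by norm_num
    exact ⟨h1.1.trans e, h1.2.trans e⟩
  have hst := r40_spec hP (fun k _ => hb k) h
  refine ⟨fl 40 (CV PL PL (cd X) (cd X)), hst, fun k hk => ?_, ?_⟩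
  · apply fl_zero
    apply CV_zero
    intro i hi j hj he
    have h1 : ∀ i ∈ PL, ∀ j ∈ PL, i + j ∈ PQ := by decide
    exact hk (he ▸ h1 i hi j hj)
  · have h1 := ev_fl hε 40 (CV PL PL (cd X) (cd X))
    rw [ev_LL, ← pow_two] at h1
    exact h1

/-- a quadratic form times a number `≤ 1` -/
theorem third_spec {ε : List ℂ} (hε : Small ε) {P κ : Nat} {a : Nat → GaussianInt} (hP : St P a)
    (hs : ∀ k, k ∉ PQ → a k = 0) (hκ : κ ≤ 2 ^ 40)
    (h : okU (r40 (Nat.mul (Nat.add P kX) κ)) = true) :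
    ∃ b, St (cut (r40 (Nat.mul (Nat.add P kX) κ))) b ∧ (∀ k, k ∉ PQ → b k = 0) ∧
      ‖ev b ε - ev a ε * (κ : ℂ) / 2 ^ 40‖ ≤ 50 := by
  have hP2 : ((Nat.mul (Nat.add P kX) κ : ℕ) : ZMod NN) =
      V (fun k => ((κ : ℕ) : GaussianInt) * a k) := by
    rw [Nat.mul_eq, Nat.cast_mul, val_X hP.good, V_mul, map_natCast, mul_comm, V_congr hP.eq]
  have hκ2 : ((κ : ℕ) : ℤ) ≤ 2 ^ 54 := by
    have h1 : ((κ : ℕ) : ℤ) ≤ 2 ^ 40 := by exact_mod_cast hκ
    exact h1.trans (by norm_num)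
  have hκ3 : |(((κ : ℕ) : GaussianInt)).re| ≤ ((2 ^ 54 : ℕ) : ℤ) ∧
      |(((κ : ℕ) : GaussianInt)).im| ≤ ((2 ^ 54 : ℕ) : ℤ) := by
    have e1 : (((κ : ℕ) : GaussianInt)).re = (κ : ℤ) := Zsqrtd.re_natCast κ
    have e2 : (((κ : ℕ) : GaussianInt)).im = 0 := Zsqrtd.im_natCast κ
    rw [e1, e2, abs_zero, Nat.abs_cast]
    constructor
    · exact_mod_cast hκ2
    · positivity
  have hst := r40_spec hP2 (fun k hk => fprod hκ3 le_rfl (f5354 (fst hP hk))) h
  refine ⟨fl 40 (fun k => ((κ : ℕ) : GaussianInt) * a k), hst, fun k hk => ?_, ?_⟩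
  · apply fl_zero
    show ((κ : ℕ) : GaussianInt) * a k = 0
    rw [hs k hk, mul_zero]
  · have h1 := ev_fl hε 40 (fun k => ((κ : ℕ) : GaussianInt) * a k)
    rw [ev_mul, map_natCast, mul_comm] at h1
    exact h1

/-- `lin (lin + 2 quad + w) / 2` -/
theorem cub_spec {ε : List ℂ} (hε : Small ε) {X W : Nat} {a : Nat → GaussianInt} (hX : Good X)
    (hW : St W a) (hs : ∀ k, k ∉ PQ → a k = 0)
    (h : okU (r41 (Nat.mul (linV X) (Nat.add (Nat.add (linV X) (Nat.add (quaV X) (quaV X)))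
      (Nat.add W kX)))) = true) :
    ∃ b, St (cut (r41 (Nat.mul (linV X) (Nat.add (Nat.add (linV X) (Nat.add (quaV X) (quaV X)))
        (Nat.add W kX))))) b ∧
      ‖ev b ε - evL (cd X) ε * (evL (cd X) ε + 2 * evQ (cd X) ε + ev a ε) / 2 ^ 41‖ ≤ 50 := by
  have hF : ((Nat.add W kX : ℕ) : ZMod NN) = V a := by
    rw [val_X hW.good, V_congr hW.eq]
  have hst := r41_spec (cub_V hX hF hs) (fun k _ => snd_bd (fcd hX) (fun k hk => fst hW hk) k) h
  refine ⟨fl 41 (CV PL PLQ (cd X) (snd (cd X) a)), hst, ?_⟩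
  have h1 := ev_fl hε 41 (CV PL PLQ (cd X) (snd (cd X) a))
  rw [snd_ev hs] at h1
  exact h1

/-- `lin (lin + 2 quad - w)` -/
theorem cubN40_spec {ε : List ℂ} (hε : Small ε) {X W : Nat} {a : Nat → GaussianInt} (hX : Good X)
    (hW : St W a) (hs : ∀ k, k ∉ PQ → a k = 0)
    (h : okU (r40 (Nat.mul (linV X) (Nat.add (Nat.add (linV X) (Nat.add (quaV X) (quaV X)))
      (Nat.sub kN W)))) = true) :
    ∃ b, St (cut (r40 (Nat.mul (linV X) (Nat.add (Nat.add (linV X) (Nat.add (quaV X) (quaV X)))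
        (Nat.sub kN W))))) b ∧
      ‖ev b ε - evL (cd X) ε * (evL (cd X) ε + 2 * evQ (cd X) ε - ev a ε) / 2 ^ 40‖ ≤ 50 := by
  have hF : ((Nat.sub kN W : ℕ) : ZMod NN) = V (fun k => -a k) := by
    rw [val_N hW, V_neg]
  have hst := r40_spec (cub_V hX hF (neg_supp hs))
    (fun k _ => snd_bd (fcd hX) (neg_bd hW) k) h
  refine ⟨fl 40 (CV PL PLQ (cd X) (snd (cd X) (fun k => -a k))), hst, ?_⟩
  have h1 := ev_fl hε 40 (CV PL PLQ (cd X) (snd (cd X) (fun k => -a k)))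
  rw [snd_ev (neg_supp hs), ev_neg, ← sub_eq_add_neg] at h1
  exact h1

/-- `lin (lin + 2 quad - w) / 2` -/
theorem cubN41_spec {ε : List ℂ} (hε : Small ε) {X W : Nat} {a : Nat → GaussianInt} (hX : Good X)
    (hW : St W a) (hs : ∀ k, k ∉ PQ → a k = 0)
    (h : okU (r41 (Nat.mul (linV X) (Nat.add (Nat.add (linV X) (Nat.add (quaV X) (quaV X)))
      (Nat.sub kN W)))) = true) :
    ∃ b, St (cut (r41 (Nat.mul (linV X) (Nat.add (Nat.add (linV X) (Nat.add (quaV X) (quaV X)))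
        (Nat.sub kN W))))) b ∧
      ‖ev b ε - evL (cd X) ε * (evL (cd X) ε + 2 * evQ (cd X) ε - ev a ε) / 2 ^ 41‖ ≤ 50 := by
  have hF : ((Nat.sub kN W : ℕ) : ZMod NN) = V (fun k => -a k) := by
    rw [val_N hW, V_neg]
  have hst := r41_spec (cub_V hX hF (neg_supp hs))
    (fun k _ => snd_bd (fcd hX) (neg_bd hW) k) h
  refine ⟨fl 41 (CV PL PLQ (cd X) (snd (cd X) (fun k => -a k))), hst, ?_⟩
  have h1 := ev_fl hε 41 (CV PL PLQ (cd X) (snd (cd X) (fun k => -a k)))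
  rw [snd_ev (neg_supp hs), ev_neg, ← sub_eq_add_neg] at h1
  exact h1

/-- deviation plus a stored number, times a number (`exp`) -/
theorem expmul_spec {ε : List ℂ} (hε : Small ε) {X S c n : Nat} {z : GaussianInt}
    {b : Nat → GaussianInt} (hX : Good X) (hS : St S b)
    (hc : ((c : ℕ) : ZMod NN) = phi z) (hz : |z.re| ≤ n ∧ |z.im| ≤ n) (hn : n ≤ 2 ^ 54)
    (h : okU (r40 (Nat.mul (Nat.add (dev X) (Nat.add S kX)) c)) = true) :
    ∃ a, St (cut (r40 (Nat.mul (Nat.add (dev X) (Nat.add S kX)) c))) a ∧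
      ‖ev a ε - (ev (cd X) ε - toC (cd X 0) + ev b ε) * toC z / 2 ^ 40‖ ≤ 50 := by
  have hP : ((Nat.mul (Nat.add (dev X) (Nat.add S kX)) c : ℕ) : ZMod NN) =
      V (fun k => z * ((if k = 0 then 0 else cd X k) + b k)) := by
    have e : Nat.add (dev X) (Nat.add S kX) = dev X + Nat.add S kX := rfl
    rw [Nat.mul_eq, Nat.cast_mul, e, Nat.cast_add, val_D hX, val_X hS.good, hc, mul_comm,
      V_congr hS.eq, ← V_add, ← V_mul]
  have hst := r40_spec hP (fun k hk => fprod hz hn (fadd (fcd0 hX k) (fst hS hk))) h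
  refine ⟨fl 40 (fun k => z * ((if k = 0 then 0 else cd X k) + b k)), hst, ?_⟩
  have h1 := ev_fl hε 40 (fun k => z * ((if k = 0 then 0 else cd X k) + b k))
  rw [ev_mul, ev_add, ev_dev, mul_comm] at h1
  exact h1

/-- difference of stored numbers, times a number (`inv`) -/
theorem invmul_spec {ε : List ℂ} (hε : Small ε) {S Y c n : Nat} {z : GaussianInt}
    {b y : Nat → GaussianInt} (hS : St S b) (hY : St Y y)
    (hc : ((c : ℕ) : ZMod NN) = phi z) (hz : |z.re| ≤ n ∧ |z.im| ≤ n) (hn : n ≤ 2 ^ 54)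
    (h : okU (r40 (Nat.mul (Nat.sub (Nat.add S NN) Y) c)) = true) :
    ∃ a, St (cut (r40 (Nat.mul (Nat.sub (Nat.add S NN) Y) c))) a ∧
      ‖ev a ε - (ev b ε - ev y ε) * toC z / 2 ^ 40‖ ≤ 50 := by
  have hP : ((Nat.mul (Nat.sub (Nat.add S NN) Y) c : ℕ) : ZMod NN) =
      V (fun k => z * (b k - y k)) := by
    rw [Nat.mul_eq, Nat.cast_mul, val_sub hS hY, hc, mul_comm, ← V_sub, ← V_mul]
  have hst := r40_spec hP (fun k hk => fprod hz hn (fsub (fst hS hk) (fst hY hk))) h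
  refine ⟨fl 40 (fun k => z * (b k - y k)), hst, ?_⟩
  have h1 := ev_fl hε 40 (fun k => z * (b k - y k))
  rw [ev_mul, ev_sub, mul_comm] at h1
  exact h1

end Pool.Agent.helper14.CF
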