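import Pool.Agent.helper31.IB.Fun

/-!
# CF-5c: exponential, analytic part (units `2^40`)

Template: `QF/Fun.lean`.
-/

namespace Pool.Agent.helper14.CF

open Complex

private theorem fe_nd (z : ℂ) (n : ℕ) : ‖z / 2 ^ n‖ = ‖z‖ / 2 ^ n := by
  rw [norm_div, norm_pow]
  norm_num

/-- remainder of the exponential -/
private theorem fe_rem {δ : ℂ} {x : ℝ} (h : ‖δ‖ ≤ x) (hx : x ≤ 1) :
    ‖Complex.exp δ - (1 + δ + δ ^ 2 / 2 + δ ^ 3 / 6)‖ ≤ x ^ 4 * (4 + x) / 96 := by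
  have hx0 : 0 ≤ x := (norm_nonneg _).trans h
  have hb := Complex.exp_bound (x := δ) (h.trans hx) (n := 5) (by norm_num)
  have hs : ∑ m ∈ Finset.range 5, δ ^ m / (Nat.factorial m : ℂ) =
      1 + δ + δ ^ 2 / 2 + δ ^ 3 / 6 + δ ^ 4 / 24 := by
    simp [Finset.sum_range_succ, Nat.factorial]
  rw [hs] at hb
  have e1 : Complex.exp δ - (1 + δ + δ ^ 2 / 2 + δ ^ 3 / 6) =
      (Complex.exp δ - (1 + δ + δ ^ 2 / 2 + δ ^ 3 / 6 + δ ^ 4 / 24)) + δ ^ 4 / 24 := by ring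
  rw [e1]
  have h6 : ‖δ ^ 4 / 24‖ ≤ x ^ 4 / 24 := by
    rw [norm_div, norm_pow]
    have : ‖(24 : ℂ)‖ = 24 := by simp
    rw [this]
    gcongr
  have h4 : ‖Complex.exp δ - (1 + δ + δ ^ 2 / 2 + δ ^ 3 / 6 + δ ^ 4 / 24)‖ ≤
      x ^ 5 * (1 / 96) := by
    refine hb.trans ?_
    have h5 : ((Nat.succ 5 : ℕ) : ℝ) * (((Nat.factorial 5 : ℕ) : ℝ) * ((5 : ℕ) : ℝ))⁻¹ ≤ 1 / 96 := by
      norm_num [Nat.factorial]
    have h7 : ‖δ‖ ^ 5 ≤ x ^ 5 := by gcongr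
    exact mul_le_mul h7 h5 (by positivity) (by positivity)
  refine (norm_add_le_of_le h4 h6).trans (le_of_eq ?_)
  ring

private theorem fe_bd {δ : ℂ} {x : ℝ} (h : ‖δ‖ ≤ x) (hx : x ≤ 1) :
    ‖Complex.exp δ‖ ≤ 1 + 2 * x := by
  have h1 := Complex.norm_exp_sub_one_le (h.trans hx)
  have e1 : Complex.exp δ = 1 + (Complex.exp δ - 1) := by ring
  rw [e1]
  have h3 : ‖(1 : ℂ)‖ ≤ 1 := by simp
  refine (norm_add_le_of_le h3 h1).trans ?_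
  linarith

private theorem fe_sq {lin quad κ : ℂ} {D G Q : ℝ} (hlin : ‖lin‖ ≤ G) (hquad : ‖quad‖ ≤ Q)
    (hκ : ‖κ‖ ≤ D - G - Q) :
    ‖(lin + quad + κ) ^ 2 - lin * (lin + 2 * quad)‖ ≤ D ^ 2 - G * (G + 2 * Q) := by
  have hG : 0 ≤ G := (norm_nonneg _).trans hlin
  have hQ : 0 ≤ Q := (norm_nonneg _).trans hquad
  have hDG : 0 ≤ D - G - Q := (norm_nonneg _).trans hκ
  have e : (lin + quad + κ) ^ 2 - lin * (lin + 2 * quad) =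
      2 * (lin * κ) + (quad + κ) ^ 2 := by ring
  have h1 : ‖quad + κ‖ ≤ D - G := (norm_add_le_of_le hquad hκ).trans (by linarith)
  have hDG1 : 0 ≤ D - G := (norm_nonneg _).trans h1
  have h2 : ‖2 * (lin * κ)‖ ≤ 2 * (G * (D - G - Q)) := by
    rw [norm_mul, norm_mul]
    have : ‖(2 : ℂ)‖ = 2 := by simp
    rw [this]
    gcongr
  have h3 : ‖(quad + κ) ^ 2‖ ≤ (D - G) ^ 2 := by
    rw [norm_pow]
    gcongr
  rw [e]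
  refine (norm_add_le_of_le h2 h3).trans (le_of_eq ?_)
  ring

private theorem fe_cub {lin κ : ℂ} {D G : ℝ} (hlin : ‖lin‖ ≤ G) (hκ : ‖κ‖ ≤ D - G) :
    ‖(lin + κ) ^ 3 - lin ^ 3‖ ≤ D ^ 3 - G ^ 3 := by
  have hG : 0 ≤ G := (norm_nonneg _).trans hlin
  have hDG : 0 ≤ D - G := (norm_nonneg _).trans hκ
  have hD : 0 ≤ D := by linarith
  have e : (lin + κ) ^ 3 - lin ^ 3 = κ * ((lin + κ) ^ 2 + (lin + κ) * lin + lin ^ 2) := by ring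
  have h1 : ‖lin + κ‖ ≤ D := (norm_add_le_of_le hlin hκ).trans (by linarith)
  have h2 : ‖(lin + κ) ^ 2‖ ≤ D ^ 2 := by
    rw [norm_pow]
    gcongr
  have h3 : ‖(lin + κ) * lin‖ ≤ D * G := by
    rw [norm_mul]
    gcongr
  have h4 : ‖lin ^ 2‖ ≤ G ^ 2 := by
    rw [norm_pow]
    gcongr
  have h5 := norm_add_le_of_le (norm_add_le_of_le h2 h3) h4
  rw [e, norm_mul]
  calc ‖κ‖ * ‖(lin + κ) ^ 2 + (lin + κ) * lin + lin ^ 2‖ ≤ (D - G) * (D ^ 2 + D * G + G ^ 2) :=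
        mul_le_mul hκ h5 (norm_nonneg _) hDG
    _ = D ^ 3 - G ^ 3 := by ring

/-- error of the third order term -/
private theorem fe_w {lin p w : ℂ} {G : ℝ} (hlin : ‖lin‖ ≤ G) (hG1 : G ≤ 2 ^ 40)
    (hp : ‖p - lin ^ 2 / 2 ^ 40‖ ≤ 50) (hw : ‖w - p * 366503875925 / 2 ^ 40‖ ≤ 50) :
    ‖w - lin ^ 2 / (3 * 2 ^ 40)‖ ≤ 68 := by
  have hG : 0 ≤ G := (norm_nonneg _).trans hlin
  have e : w - lin ^ 2 / (3 * 2 ^ 40) = (w - p * 366503875925 / 2 ^ 40) +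
      ((p - lin ^ 2 / 2 ^ 40) * (366503875925 / 2 ^ 40) +
        -(lin ^ 2 / (3 * 2 ^ 80))) := by
    ring
  have h1 : ‖(p - lin ^ 2 / 2 ^ 40) * (366503875925 / 2 ^ 40)‖ ≤ 50 * (1 / 3) := by
    rw [norm_mul]
    have h2 : ‖(366503875925 : ℂ) / 2 ^ 40‖ ≤ 1 / 3 := by
      rw [fe_nd]
      have : ‖(366503875925 : ℂ)‖ = 366503875925 := by simp
      rw [this]
      norm_num
    exact mul_le_mul hp h2 (norm_nonneg _) (by norm_num)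
  have h3 : ‖-(lin ^ 2 / (3 * 2 ^ 80))‖ ≤ 1 / 3 := by
    rw [norm_neg]
    have e2 : lin ^ 2 / (3 * 2 ^ 80) = (lin ^ 2 / 3) / 2 ^ 80 := by ring
    rw [e2, fe_nd, norm_div, norm_pow]
    have h4 : ‖(3 : ℂ)‖ = 3 := by simp
    rw [h4, div_le_iff₀ (by positivity)]
    have h5 : ‖lin‖ ^ 2 ≤ (2 ^ 40) ^ 2 := by
      have : ‖lin‖ ≤ 2 ^ 40 := hlin.trans hG1
      gcongr
    linarith
  rw [e]
  refine (norm_add_le_of_le hw (norm_add_le_of_le h1 h3)).trans ?_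
  norm_num

/-- F3 -/
theorem exp_core {c lin quad cub ρ e p w s t : ℂ} {M E2 D G Q r : ℝ}
    (he : ‖e - Complex.exp (c / 2 ^ 40) * 2 ^ 40‖ ≤ E2) (hM : ‖e‖ ≤ M)
    (hlin : ‖lin‖ ≤ G) (hquad : ‖quad‖ ≤ Q) (hR : ‖cub + ρ‖ ≤ D - G - Q) (hρ : ‖ρ‖ ≤ r)
    (hq : ‖lin + quad + cub‖ ≤ D) (hD1 : D ≤ 2 ^ 40)
    (hp : ‖p - lin ^ 2 / 2 ^ 40‖ ≤ 50) (hw : ‖w - p * 366503875925 / 2 ^ 40‖ ≤ 50)
    (hs : ‖s - lin * (lin + 2 * quad + w) / 2 ^ 41‖ ≤ 50)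
    (ht : ‖t - (lin + quad + cub + s) * e / 2 ^ 40‖ ≤ 50) :
    ‖Complex.exp ((c + (lin + quad + cub + ρ)) / 2 ^ 40) * 2 ^ 40 - (e + t)‖ ≤
      E2 + E2 * (2 * D) / 2 ^ 40 + M * (r + ((D ^ 2 - G * (G + 2 * Q)) / 2 ^ 41 +
        ((D ^ 3 - G ^ 3) / (6 * 2 ^ 80) + D ^ 4 * (2 ^ 42 + D) / (24 * 2 ^ 162)) + 110)) / 2 ^ 40 +
        60 := by
  have hM0 : 0 ≤ M := (norm_nonneg _).trans hM
  have hE0 : 0 ≤ E2 := (norm_nonneg _).trans he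
  have hG0 : 0 ≤ G := (norm_nonneg _).trans hlin
  have hQ0 : 0 ≤ Q := (norm_nonneg _).trans hquad
  have hDGQ : 0 ≤ D - G - Q := (norm_nonneg _).trans hR
  have hD0 : 0 ≤ D := by linarith
  have hG1 : G ≤ 2 ^ 40 := by linarith
  have hsq := fe_sq hlin hquad hR
  have hκ : ‖quad + (cub + ρ)‖ ≤ D - G := (norm_add_le_of_le hquad hR).trans (by linarith)
  have hcb := fe_cub hlin hκ
  have hD : ‖lin + (quad + (cub + ρ))‖ ≤ D := (norm_add_le_of_le hlin hκ).trans (by linarith)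
  have hww := fe_w hlin hG1 hp hw
  obtain ⟨δ, hδ0⟩ : ∃ δ : ℂ, δ = lin + quad + cub + ρ := ⟨_, rfl⟩
  have eδ : lin + (quad + (cub + ρ)) = δ := by rw [hδ0]; ring
  have eδ2 : lin + quad + (cub + ρ) = δ := by rw [hδ0]; ring
  rw [eδ2] at hsq
  rw [eδ] at hcb hD
  rw [← hδ0]
  have hx : ‖δ / 2 ^ 40‖ ≤ D / 2 ^ 40 := by
    rw [fe_nd]
    gcongr
  have hx1 : D / 2 ^ 40 ≤ 1 := by
    rw [div_le_one (by positivity)]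
    exact hD1
  have hR4 := fe_rem hx hx1
  have hB := fe_bd hx hx1
  obtain ⟨R, hR0⟩ : ∃ R : ℂ, R = Complex.exp (δ / 2 ^ 40) -
    (1 + δ / 2 ^ 40 + (δ / 2 ^ 40) ^ 2 / 2 + (δ / 2 ^ 40) ^ 3 / 6) := ⟨_, rfl⟩
  rw [← hR0] at hR4
  have hid : Complex.exp ((c + δ) / 2 ^ 40) * 2 ^ 40 - (e + t) =
      -((e - Complex.exp (c / 2 ^ 40) * 2 ^ 40) * Complex.exp (δ / 2 ^ 40)) +
      e * (ρ + ((δ ^ 2 - lin * (lin + 2 * quad)) / 2 ^ 41 + ((δ ^ 3 - lin ^ 3) / (6 * 2 ^ 80) +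
        R * 2 ^ 40) + (-(s - lin * (lin + 2 * quad + w) / 2 ^ 41) +
          -(lin * (w - lin ^ 2 / (3 * 2 ^ 40)) / 2 ^ 41)))) / 2 ^ 40 +
      -(t - (lin + quad + cub + s) * e / 2 ^ 40) := by
    rw [add_div, Complex.exp_add, hR0]
    have e1 : lin + quad + cub = δ - ρ := by rw [hδ0]; ring
    rw [e1]
    ring
  have b1 : ‖-((e - Complex.exp (c / 2 ^ 40) * 2 ^ 40) * Complex.exp (δ / 2 ^ 40))‖ ≤
      E2 * (1 + 2 * (D / 2 ^ 40)) := by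
    rw [norm_neg, norm_mul]
    gcongr
  have c1 : ‖(δ ^ 2 - lin * (lin + 2 * quad)) / 2 ^ 41‖ ≤ (D ^ 2 - G * (G + 2 * Q)) / 2 ^ 41 := by
    rw [fe_nd]
    gcongr
  have c2 : ‖(δ ^ 3 - lin ^ 3) / (6 * 2 ^ 80)‖ ≤ (D ^ 3 - G ^ 3) / (6 * 2 ^ 80) := by
    rw [norm_div]
    have : ‖(6 : ℂ) * 2 ^ 80‖ = 6 * 2 ^ 80 := by
      rw [norm_mul, norm_pow]
      simp
    rw [this]
    gcongr
  have c3 : ‖R * 2 ^ 40‖ ≤ (D / 2 ^ 40) ^ 4 * (4 + D / 2 ^ 40) / 96 * 2 ^ 40 := by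
    rw [norm_mul, norm_pow]
    have : ‖(2 : ℂ)‖ = 2 := by simp
    rw [this]
    gcongr
  have c4 : ‖-(s - lin * (lin + 2 * quad + w) / 2 ^ 41)‖ ≤ 50 := by rw [norm_neg]; exact hs
  have c5 : ‖-(lin * (w - lin ^ 2 / (3 * 2 ^ 40)) / 2 ^ 41)‖ ≤ 34 := by
    rw [norm_neg, fe_nd, norm_mul, div_le_iff₀ (by positivity)]
    calc ‖lin‖ * ‖w - lin ^ 2 / (3 * 2 ^ 40)‖ ≤ 2 ^ 40 * 68 :=
          mul_le_mul (hlin.trans hG1) hww (norm_nonneg _) (by positivity)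
      _ = 34 * 2 ^ 41 := by norm_num
  have c6 := norm_add_le_of_le hρ (norm_add_le_of_le (norm_add_le_of_le c1
    (norm_add_le_of_le c2 c3)) (norm_add_le_of_le c4 c5))
  have b3 : ‖-(t - (lin + quad + cub + s) * e / 2 ^ 40)‖ ≤ 50 := by rw [norm_neg]; exact ht
  have e1 : (D / 2 ^ 40) ^ 4 * (4 + D / 2 ^ 40) / 96 * 2 ^ 40 =
      D ^ 4 * (2 ^ 42 + D) / (24 * 2 ^ 162) := by
    field_simp
    ring
  rw [e1] at c6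
  obtain ⟨N, hN⟩ : ∃ N : ℝ, N = r + ((D ^ 2 - G * (G + 2 * Q)) / 2 ^ 41 +
        ((D ^ 3 - G ^ 3) / (6 * 2 ^ 80) + D ^ 4 * (2 ^ 42 + D) / (24 * 2 ^ 162)) + 110) := ⟨_, rfl⟩
  rw [← hN]
  have c7 : ‖ρ + ((δ ^ 2 - lin * (lin + 2 * quad)) / 2 ^ 41 + ((δ ^ 3 - lin ^ 3) / (6 * 2 ^ 80) +
        R * 2 ^ 40) + (-(s - lin * (lin + 2 * quad + w) / 2 ^ 41) +
          -(lin * (w - lin ^ 2 / (3 * 2 ^ 40)) / 2 ^ 41)))‖ ≤ N := by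
    refine c6.trans ?_
    rw [hN]
    linarith
  have b2 : ‖e * (ρ + ((δ ^ 2 - lin * (lin + 2 * quad)) / 2 ^ 41 + ((δ ^ 3 - lin ^ 3) /
      (6 * 2 ^ 80) + R * 2 ^ 40) + (-(s - lin * (lin + 2 * quad + w) / 2 ^ 41) +
          -(lin * (w - lin ^ 2 / (3 * 2 ^ 40)) / 2 ^ 41)))) / 2 ^ 40‖ ≤ M * N / 2 ^ 40 := by
    rw [fe_nd, norm_mul]
    exact div_le_div_of_nonneg_right (mul_le_mul hM c7 (norm_nonneg _) hM0) (by positivity)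
  rw [hid]
  refine (norm_add_le_of_le (norm_add_le_of_le b1 b2) b3).trans ?_
  have e2 : E2 * (1 + 2 * (D / 2 ^ 40)) = E2 + E2 * (2 * D) / 2 ^ 40 := by ring
  rw [e2]
  linarith

end Pool.Agent.helper14.CF
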