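import Pool.Agent.helper31.IB.Fun

/-!
# CF-5b: inverse, analytic part (units `2^40`)

Template: `QF/Fun.lean`.
-/

namespace Pool.Agent.helper14.CF

open Complex

private theorem fi_nd (z : ℂ) (n : ℕ) : ‖z / 2 ^ n‖ = ‖z‖ / 2 ^ n := by
  rw [norm_div, norm_pow]
  norm_num

private theorem fi_sq {lin quad κ : ℂ} {D G Q : ℝ} (hlin : ‖lin‖ ≤ G) (hquad : ‖quad‖ ≤ Q)
    (hκ : ‖κ‖ ≤ D - G - Q) :
    ‖(lin + quad + κ) ^ 2 - (lin ^ 2 + 2 * lin * quad)‖ ≤ D ^ 2 - G * (G + 2 * Q) := by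
  have hG : 0 ≤ G := (norm_nonneg _).trans hlin
  have hQ : 0 ≤ Q := (norm_nonneg _).trans hquad
  have hK : 0 ≤ D - G - Q := (norm_nonneg _).trans hκ
  have e : (lin + quad + κ) ^ 2 - (lin ^ 2 + 2 * lin * quad) =
      quad ^ 2 + 2 * (lin + quad) * κ + κ ^ 2 := by ring
  have h1 : ‖quad ^ 2‖ ≤ Q ^ 2 := by
    rw [norm_pow]
    gcongr
  have h2 : ‖2 * (lin + quad) * κ‖ ≤ 2 * (G + Q) * (D - G - Q) := by
    have h3 : ‖lin + quad‖ ≤ G + Q := (norm_add_le _ _).trans (add_le_add hlin hquad)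
    have h4 : ‖(2 : ℂ)‖ = 2 := by simp
    rw [norm_mul, norm_mul, h4]
    gcongr
  have h3 : ‖κ ^ 2‖ ≤ (D - G - Q) ^ 2 := by
    rw [norm_pow]
    gcongr
  rw [e]
  calc ‖quad ^ 2 + 2 * (lin + quad) * κ + κ ^ 2‖
      ≤ Q ^ 2 + 2 * (G + Q) * (D - G - Q) + (D - G - Q) ^ 2 :=
        norm_add_le_of_le (norm_add_le_of_le h1 h2) h3
    _ = D ^ 2 - G * (G + 2 * Q) := by ring

private theorem fi_cube {lin m : ℂ} {D G : ℝ} (hlin : ‖lin‖ ≤ G) (hm : ‖m‖ ≤ D - G) :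
    ‖(lin + m) ^ 3 - lin ^ 3‖ ≤ D ^ 3 - G ^ 3 := by
  have hG : 0 ≤ G := (norm_nonneg _).trans hlin
  have hDG : 0 ≤ D - G := (norm_nonneg _).trans hm
  have hD : 0 ≤ D := by linarith
  have hlm : ‖lin + m‖ ≤ D := by
    have h1 := norm_add_le lin m
    linarith
  have e : (lin + m) ^ 3 - lin ^ 3 = m * ((lin + m) ^ 2 + (lin + m) * lin + lin ^ 2) := by ring
  have h1 : ‖(lin + m) ^ 2‖ ≤ D ^ 2 := by
    rw [norm_pow]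
    gcongr
  have h2 : ‖(lin + m) * lin‖ ≤ D * G := by
    rw [norm_mul]
    gcongr
  have h3 : ‖lin ^ 2‖ ≤ G ^ 2 := by
    rw [norm_pow]
    gcongr
  have h4 : ‖(lin + m) ^ 2 + (lin + m) * lin + lin ^ 2‖ ≤ D ^ 2 + D * G + G ^ 2 :=
    norm_add_le_of_le (norm_add_le_of_le h1 h2) h3
  rw [e, norm_mul]
  calc ‖m‖ * ‖(lin + m) ^ 2 + (lin + m) * lin + lin ^ 2‖
      ≤ (D - G) * (D ^ 2 + D * G + G ^ 2) := mul_le_mul hm h4 (norm_nonneg _) hDG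
    _ = D ^ 3 - G ^ 3 := by ring

private theorem fi_rnd {A B L N p : ℂ} {h : ℝ} (h0 : 0 ≤ h) (hh : h ≤ 2 ^ 39)
    (hA : ‖A‖ ≤ h) (hB : ‖B‖ ≤ h) (hL : ‖L - A‖ ≤ 6) (hN : ‖N - B‖ ≤ 15)
    (hp : ‖p - L ^ 2 / 2 ^ 40‖ ≤ 50) :
    ‖A * (A + 2 * B - A ^ 2 / 2 ^ 40) - L * (L + 2 * N - p)‖ ≤ 450 * 2 ^ 40 := by
  have hL2 : ‖L‖ ≤ h + 6 := by
    have e : L = A + (L - A) := by ring
    rw [e]
    exact (norm_add_le _ _).trans (add_le_add hA hL)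
  have hN2 : ‖N‖ ≤ h + 15 := by
    have e : N = B + (N - B) := by ring
    rw [e]
    exact (norm_add_le _ _).trans (add_le_add hB hN)
  have e : A * (A + 2 * B - A ^ 2 / 2 ^ 40) - L * (L + 2 * N - p) =
      -((L - A) * (L + A)) + -(2 * ((L - A) * N + A * (N - B))) + L * (p - L ^ 2 / 2 ^ 40) +
        (L - A) * (L ^ 2 + L * A + A ^ 2) / 2 ^ 40 := by ring
  have h1 : ‖-((L - A) * (L + A))‖ ≤ 6 * (2 * h + 6) := by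
    rw [norm_neg, norm_mul]
    have h2 : ‖L + A‖ ≤ 2 * h + 6 := (norm_add_le _ _).trans (by linarith)
    gcongr
  have h2 : ‖-(2 * ((L - A) * N + A * (N - B)))‖ ≤ 2 * (6 * (h + 15) + h * 15) := by
    have h3 : ‖(L - A) * N‖ ≤ 6 * (h + 15) := by
      rw [norm_mul]
      gcongr
    have h4 : ‖A * (N - B)‖ ≤ h * 15 := by
      rw [norm_mul]
      gcongr
    have h5 : ‖(2 : ℂ)‖ = 2 := by simp
    rw [norm_neg, norm_mul, h5]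
    have h6 : ‖(L - A) * N + A * (N - B)‖ ≤ 6 * (h + 15) + h * 15 := norm_add_le_of_le h3 h4
    gcongr
  have h3 : ‖L * (p - L ^ 2 / 2 ^ 40)‖ ≤ (h + 6) * 50 := by
    rw [norm_mul]
    gcongr
  have h4 : ‖(L - A) * (L ^ 2 + L * A + A ^ 2) / 2 ^ 40‖ ≤ 18 * (h + 6) := by
    have h5 : ‖L ^ 2‖ ≤ (h + 6) ^ 2 := by
      rw [norm_pow]
      gcongr
    have h6 : ‖L * A‖ ≤ (h + 6) * (h + 6) := by
      rw [norm_mul]
      have : ‖A‖ ≤ h + 6 := by linarith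
      gcongr
    have h7 : ‖A ^ 2‖ ≤ (h + 6) ^ 2 := by
      rw [norm_pow]
      have : ‖A‖ ≤ h + 6 := by linarith
      gcongr
    have h8 : ‖L ^ 2 + L * A + A ^ 2‖ ≤ (h + 6) ^ 2 + (h + 6) * (h + 6) + (h + 6) ^ 2 :=
      norm_add_le_of_le (norm_add_le_of_le h5 h6) h7
    rw [fi_nd, norm_mul, div_le_iff₀ (by positivity)]
    have h9 : h + 6 ≤ 2 ^ 40 := by
      have : (2 : ℝ) ^ 39 + 6 ≤ 2 ^ 40 := by norm_num
      linarith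
    calc ‖L - A‖ * ‖L ^ 2 + L * A + A ^ 2‖
        ≤ 6 * ((h + 6) ^ 2 + (h + 6) * (h + 6) + (h + 6) ^ 2) := by gcongr
      _ = 18 * (h + 6) * (h + 6) := by ring
      _ ≤ 18 * (h + 6) * 2 ^ 40 := by gcongr
  rw [e]
  refine (norm_add_le_of_le (norm_add_le_of_le (norm_add_le_of_le h1 h2) h3) h4).trans ?_
  have h10 : (122 : ℝ) * 2 ^ 39 + 624 ≤ 450 * 2 ^ 40 := by norm_num
  linarith

/-- F2 -/
theorem inv_core {c lin quad cub ρ w y L N p s t : ℂ} {U D G Q r h : ℝ} (hc : c ≠ 0)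
    (hw : ‖w - 2 ^ 80 / c‖ ≤ 2) (hU : ‖w‖ ≤ U) (hU2 : ‖(2 : ℂ) ^ 80 / c‖ ≤ U) (hU3 : U ≤ 2 ^ 52)
    (hU4 : 2 ≤ U)
    (hlin : ‖lin‖ ≤ G) (hquad : ‖quad‖ ≤ Q) (hR : ‖cub + ρ‖ ≤ D - G - Q) (hρ : ‖ρ‖ ≤ r)
    (hq : ‖lin + quad + cub‖ ≤ D) (hh : U * D / 2 ^ 40 ≤ h) (hh2 : h ≤ 2 ^ 39)
    (hy : ‖y - w * (lin + quad + cub) / 2 ^ 40‖ ≤ 50) (hL : ‖L - w * lin / 2 ^ 40‖ ≤ 6)
    (hN : ‖N - w * quad / 2 ^ 40‖ ≤ 15) (hp : ‖p - L ^ 2 / 2 ^ 40‖ ≤ 50)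
    (hs : ‖s - L * (L + 2 * N - p) / 2 ^ 40‖ ≤ 50) (ht : ‖t - (s - y) * w / 2 ^ 40‖ ≤ 50) :
    c + (lin + quad + cub + ρ) ≠ 0 ∧ ‖2 ^ 80 / (c + (lin + quad + cub + ρ)) - (w + t)‖ ≤
      U ^ 2 * (2 ^ 160 * r + U * (2 ^ 80 * (D ^ 2 - G * (G + 2 * Q)) + U * (D ^ 3 - G ^ 3))) /
        2 ^ 240 + U * h ^ 4 / (2 ^ 120 * (2 ^ 40 - h)) + (600 * U / 2 ^ 40 + 190) := by
  obtain ⟨W, hW⟩ : ∃ W : ℂ, W = 2 ^ 80 / c := ⟨_, rfl⟩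
  rw [← hW] at hw hU2
  have hU0 : 0 ≤ U := by linarith
  have hG0 : 0 ≤ G := (norm_nonneg _).trans hlin
  have hQ0 : 0 ≤ Q := (norm_nonneg _).trans hquad
  have hD0 : 0 ≤ D := (norm_nonneg _).trans hq
  have hDG : 0 ≤ D - G - Q := (norm_nonneg _).trans hR
  have hr0 : 0 ≤ r := (norm_nonneg _).trans hρ
  have hUD : U * D ≤ h * 2 ^ 40 := by rwa [div_le_iff₀ (by positivity)] at hh
  have hUG : U * G ≤ h * 2 ^ 40 :=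
    le_trans (mul_le_mul_of_nonneg_left (by linarith) hU0) hUD
  have hUQ : U * Q ≤ h * 2 ^ 40 :=
    le_trans (mul_le_mul_of_nonneg_left (by linarith) hU0) hUD
  have hh0 : 0 ≤ h := le_trans (by positivity) hh
  have hsq := fi_sq hlin hquad hR
  have hcu : ‖(lin + (quad + (cub + ρ))) ^ 3 - lin ^ 3‖ ≤ D ^ 3 - G ^ 3 := by
    refine fi_cube hlin ?_
    have h1 := norm_add_le quad (cub + ρ)
    linarith
  have hD : ‖lin + quad + cub + ρ‖ ≤ D := by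
    have h1 := norm_add_le (lin + quad) (cub + ρ)
    have h2 := norm_add_le lin quad
    have e : lin + quad + (cub + ρ) = lin + quad + cub + ρ := by ring
    rw [e] at h1
    linarith
  obtain ⟨δ, hδ0⟩ : ∃ δ : ℂ, δ = lin + quad + cub + ρ := ⟨_, rfl⟩
  have eδ : lin + quad + (cub + ρ) = δ := by rw [hδ0]; ring
  have eδ2 : lin + (quad + (cub + ρ)) = δ := by rw [hδ0]; ring
  rw [eδ] at hsq
  rw [eδ2] at hcu
  rw [← hδ0] at hD ⊢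
  obtain ⟨v, hv⟩ : ∃ v : ℂ, v = δ / c := ⟨_, rfl⟩
  have hvW : v = W * δ / 2 ^ 80 := by rw [hv, hW]; field_simp
  have hcv : c + δ = c * (1 + v) := by rw [hv]; field_simp
  have hvn : ‖v‖ ≤ h / 2 ^ 40 := by
    rw [hvW, fi_nd, norm_mul, div_le_iff₀ (by positivity)]
    refine (mul_le_mul hU2 hD (norm_nonneg _) hU0).trans (hUD.trans (le_of_eq ?_))
    ring
  have hhK : h / 2 ^ 40 ≤ 1 / 2 := by
    rw [div_le_iff₀ (by positivity)]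
    linarith
  have hhK0 : 0 ≤ h / 2 ^ 40 := by positivity
  have h1v : 1 - h / 2 ^ 40 ≤ ‖1 + v‖ := by
    have h3 : ‖(1 : ℂ)‖ ≤ ‖1 + v‖ + ‖v‖ := by
      calc ‖(1 : ℂ)‖ = ‖(1 + v) - v‖ := by congr 1; ring
        _ ≤ ‖1 + v‖ + ‖v‖ := norm_sub_le _ _
    rw [norm_one] at h3
    linarith
  have h1vpos : 0 < ‖1 + v‖ := by linarith
  have h1v0 : 1 + v ≠ 0 := norm_pos_iff.mp h1vpos
  refine ⟨by rw [hcv]; exact mul_ne_zero hc h1v0, ?_⟩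
  obtain ⟨A, hA0⟩ : ∃ A : ℂ, A = w * lin / 2 ^ 40 := ⟨_, rfl⟩
  obtain ⟨B, hB0⟩ : ∃ B : ℂ, B = w * quad / 2 ^ 40 := ⟨_, rfl⟩
  rw [← hA0] at hL
  rw [← hB0] at hN
  have hA : ‖A‖ ≤ h := by
    rw [hA0, fi_nd, norm_mul, div_le_iff₀ (by positivity)]
    exact (mul_le_mul hU hlin (norm_nonneg _) hU0).trans hUG
  have hB : ‖B‖ ≤ h := by
    rw [hB0, fi_nd, norm_mul, div_le_iff₀ (by positivity)]
    exact (mul_le_mul hU hquad (norm_nonneg _) hU0).trans hUQ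
  have hrnd := fi_rnd hh0 hh2 hA hB hL hN hp
  have hid : 2 ^ 80 / (c + δ) - (w + t) =
      -(w - W) + -(W ^ 2 * ρ / 2 ^ 80) + (w ^ 2 - W ^ 2) * (lin + quad + cub) / 2 ^ 80 +
      W ^ 3 * (δ ^ 2 - (lin ^ 2 + 2 * lin * quad)) / 2 ^ 160 +
      (W ^ 3 - w ^ 3) * (lin ^ 2 + 2 * lin * quad) / 2 ^ 160 +
      -(W ^ 4 * (δ ^ 3 - lin ^ 3) / 2 ^ 240) + -((W ^ 4 - w ^ 4) * lin ^ 3 / 2 ^ 240) +
      (A * (A + 2 * B - A ^ 2 / 2 ^ 40) - L * (L + 2 * N - p)) * w / 2 ^ 80 +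
      -((s - L * (L + 2 * N - p) / 2 ^ 40) * w / 2 ^ 40) +
      (y - w * (lin + quad + cub) / 2 ^ 40) * w / 2 ^ 40 + -(t - (s - y) * w / 2 ^ 40) +
      W * v ^ 4 * (1 + v)⁻¹ := by
    have e1 : (1 + v)⁻¹ = 1 - v + v ^ 2 - v ^ 3 + v ^ 4 * (1 + v)⁻¹ := by
      field_simp
      ring
    have e2 : 2 ^ 80 / (c + δ) = W - W * v + W * v ^ 2 - W * v ^ 3 + W * v ^ 4 * (1 + v)⁻¹ := by
      have e3 : 2 ^ 80 / (c + δ) = W * (1 + v)⁻¹ := by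
        rw [hcv, hW]
        field_simp
      rw [e3]
      calc W * (1 + v)⁻¹ = W * (1 - v + v ^ 2 - v ^ 3 + v ^ 4 * (1 + v)⁻¹) := by rw [← e1]
        _ = _ := by ring
    have e4 : W * v = W ^ 2 * δ / 2 ^ 80 := by rw [hvW]; ring
    have e5 : W * v ^ 2 = W ^ 3 * δ ^ 2 / 2 ^ 160 := by rw [hvW]; ring
    have e6 : W * v ^ 3 = W ^ 4 * δ ^ 3 / 2 ^ 240 := by rw [hvW]; ring
    have e7 : W ^ 2 * δ = W ^ 2 * (lin + quad + cub) + W ^ 2 * ρ := by rw [hδ0]; ring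
    rw [e2, e4, e5, e6, e7, hA0, hB0]
    ring
  have b1 : ‖-(w - W)‖ ≤ 2 := by rw [norm_neg]; exact hw
  have b2 : ‖-(W ^ 2 * ρ / 2 ^ 80)‖ ≤ U ^ 2 * r / 2 ^ 80 := by
    rw [norm_neg, fi_nd, norm_mul, norm_pow]
    gcongr
  have b3 : ‖(w ^ 2 - W ^ 2) * (lin + quad + cub) / 2 ^ 80‖ ≤ 2 := by
    have e : w ^ 2 - W ^ 2 = (w - W) * (w + W) := by ring
    rw [fi_nd, norm_mul, e, norm_mul, div_le_iff₀ (by positivity)]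
    have h1 : ‖w + W‖ ≤ 2 * U := (norm_add_le _ _).trans (by linarith)
    calc ‖w - W‖ * ‖w + W‖ * ‖lin + quad + cub‖ ≤ 2 * (2 * U) * D := by gcongr
      _ = 4 * (U * D) := by ring
      _ ≤ 4 * (h * 2 ^ 40) := by gcongr
      _ ≤ 4 * (2 ^ 39 * 2 ^ 40) := by gcongr
      _ = 2 * 2 ^ 80 := by norm_num
  have b4 : ‖W ^ 3 * (δ ^ 2 - (lin ^ 2 + 2 * lin * quad)) / 2 ^ 160‖ ≤
      U ^ 3 * (D ^ 2 - G * (G + 2 * Q)) / 2 ^ 160 := by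
    rw [fi_nd, norm_mul, norm_pow]
    gcongr
  have hGQ : ‖lin ^ 2 + 2 * lin * quad‖ ≤ D ^ 2 := by
    have h1 : ‖lin ^ 2‖ ≤ G ^ 2 := by
      rw [norm_pow]
      gcongr
    have h2 : ‖2 * lin * quad‖ ≤ 2 * G * Q := by
      have h4 : ‖(2 : ℂ)‖ = 2 := by simp
      rw [norm_mul, norm_mul, h4]
      gcongr
    refine (norm_add_le_of_le h1 h2).trans ?_
    have h3 : (G + Q) ^ 2 ≤ D ^ 2 := pow_le_pow_left₀ (by linarith) (by linarith) 2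
    have h4 : 0 ≤ Q ^ 2 := sq_nonneg Q
    have h5 : (G + Q) ^ 2 = G ^ 2 + 2 * G * Q + Q ^ 2 := by ring
    linarith
  have b5 : ‖(W ^ 3 - w ^ 3) * (lin ^ 2 + 2 * lin * quad) / 2 ^ 160‖ ≤ 2 := by
    have e : W ^ 3 - w ^ 3 = -((w - W) * (W ^ 2 + W * w + w ^ 2)) := by ring
    rw [fi_nd, norm_mul, e, norm_neg, norm_mul, div_le_iff₀ (by positivity)]
    have h1 : ‖W ^ 2 + W * w + w ^ 2‖ ≤ 3 * U ^ 2 := by
      refine (norm_add_le _ _).trans ?_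
      have n1 := norm_add_le (W ^ 2) (W * w)
      have n2 : ‖W ^ 2‖ ≤ U ^ 2 := by rw [norm_pow]; gcongr
      have n3 : ‖w ^ 2‖ ≤ U ^ 2 := by rw [norm_pow]; gcongr
      have n4 : ‖W * w‖ ≤ U * U := by
        rw [norm_mul]
        gcongr
      linarith
    calc ‖w - W‖ * ‖W ^ 2 + W * w + w ^ 2‖ * ‖lin ^ 2 + 2 * lin * quad‖
        ≤ 2 * (3 * U ^ 2) * D ^ 2 := by gcongr
      _ = 6 * (U * D) ^ 2 := by ring
      _ ≤ 6 * (h * 2 ^ 40) ^ 2 := by gcongr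
      _ ≤ 6 * (2 ^ 39 * 2 ^ 40) ^ 2 := by gcongr
      _ ≤ 2 * 2 ^ 160 := by norm_num
  have b6 : ‖-(W ^ 4 * (δ ^ 3 - lin ^ 3) / 2 ^ 240)‖ ≤ U ^ 4 * (D ^ 3 - G ^ 3) / 2 ^ 240 := by
    rw [norm_neg, fi_nd, norm_mul, norm_pow]
    gcongr
  have b7 : ‖-((W ^ 4 - w ^ 4) * lin ^ 3 / 2 ^ 240)‖ ≤ 1 := by
    have e : W ^ 4 - w ^ 4 = -((w - W) * ((w + W) * (w ^ 2 + W ^ 2))) := by ring
    rw [norm_neg, fi_nd, norm_mul, e, norm_neg, norm_mul, norm_mul, norm_pow,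
      div_le_iff₀ (by positivity)]
    have h1 : ‖w + W‖ ≤ 2 * U := (norm_add_le _ _).trans (by linarith)
    have h2 : ‖w ^ 2 + W ^ 2‖ ≤ 2 * U ^ 2 := by
      have n2 : ‖W ^ 2‖ ≤ U ^ 2 := by rw [norm_pow]; gcongr
      have n3 : ‖w ^ 2‖ ≤ U ^ 2 := by rw [norm_pow]; gcongr
      have n1 := norm_add_le (w ^ 2) (W ^ 2)
      linarith
    calc ‖w - W‖ * (‖w + W‖ * ‖w ^ 2 + W ^ 2‖) * ‖lin‖ ^ 3
        ≤ 2 * (2 * U * (2 * U ^ 2)) * G ^ 3 := by gcongr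
      _ = 8 * (U * G) ^ 3 := by ring
      _ ≤ 8 * (h * 2 ^ 40) ^ 3 := by gcongr
      _ ≤ 8 * (2 ^ 39 * 2 ^ 40) ^ 3 := by gcongr
      _ = 1 * 2 ^ 240 := by norm_num
  have b8 : ‖(A * (A + 2 * B - A ^ 2 / 2 ^ 40) - L * (L + 2 * N - p)) * w / 2 ^ 80‖ ≤
      450 * U / 2 ^ 40 := by
    rw [fi_nd, norm_mul, div_le_div_iff₀ (by positivity) (by positivity)]
    calc ‖A * (A + 2 * B - A ^ 2 / 2 ^ 40) - L * (L + 2 * N - p)‖ * ‖w‖ * 2 ^ 40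
        ≤ (450 * 2 ^ 40) * U * 2 ^ 40 := by gcongr
      _ = 450 * U * 2 ^ 80 := by ring
  have b9 : ‖-((s - L * (L + 2 * N - p) / 2 ^ 40) * w / 2 ^ 40)‖ ≤ 50 * U / 2 ^ 40 := by
    rw [norm_neg, fi_nd, norm_mul]
    gcongr
  have b10 : ‖(y - w * (lin + quad + cub) / 2 ^ 40) * w / 2 ^ 40‖ ≤ 50 * U / 2 ^ 40 := by
    rw [fi_nd, norm_mul]
    gcongr
  have b11 : ‖-(t - (s - y) * w / 2 ^ 40)‖ ≤ 50 := by rw [norm_neg]; exact ht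
  have hKh : (0 : ℝ) < 2 ^ 40 - h := by
    have : (2 : ℝ) ^ 39 < 2 ^ 40 := by norm_num
    linarith
  have b12 : ‖W * v ^ 4 * (1 + v)⁻¹‖ ≤ U * h ^ 4 / (2 ^ 120 * (2 ^ 40 - h)) := by
    rw [norm_mul, norm_mul, norm_pow, norm_inv]
    have hp : (0 : ℝ) < 1 - h / 2 ^ 40 := by linarith
    have hi : ‖1 + v‖⁻¹ ≤ 1 / (1 - h / 2 ^ 40) := by
      rw [inv_eq_one_div]
      exact one_div_le_one_div_of_le hp h1v
    calc ‖W‖ * ‖v‖ ^ 4 * ‖1 + v‖⁻¹ ≤ U * (h / 2 ^ 40) ^ 4 * (1 / (1 - h / 2 ^ 40)) := by gcongr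
      _ = U * h ^ 4 / (2 ^ 120 * (2 ^ 40 - h)) := by
          have e0 : 1 - h / 2 ^ 40 = (2 ^ 40 - h) / 2 ^ 40 := by field_simp
          rw [e0]
          field_simp
  rw [hid]
  have hsum := norm_add_le_of_le (norm_add_le_of_le (norm_add_le_of_le (norm_add_le_of_le
    (norm_add_le_of_le (norm_add_le_of_le (norm_add_le_of_le (norm_add_le_of_le (norm_add_le_of_le
    (norm_add_le_of_le (norm_add_le_of_le b1 b2) b3) b4) b5) b6) b7) b8) b9) b10) b11) b12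
  refine hsum.trans ?_
  have e1 : U ^ 2 * (2 ^ 160 * r + U * (2 ^ 80 * (D ^ 2 - G * (G + 2 * Q)) + U * (D ^ 3 - G ^ 3))) /
        2 ^ 240 =
      U ^ 2 * r / 2 ^ 80 + U ^ 3 * (D ^ 2 - G * (G + 2 * Q)) / 2 ^ 160 +
        U ^ 4 * (D ^ 3 - G ^ 3) / 2 ^ 240 := by
    ring
  have e2 : 600 * U / 2 ^ 40 = 600 * (U / 2 ^ 40) := by ring
  have e3 : 50 * U / 2 ^ 40 = 50 * (U / 2 ^ 40) := by ring
  have e4 : 450 * U / 2 ^ 40 = 450 * (U / 2 ^ 40) := by ring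
  have e5 : 0 ≤ U / 2 ^ 40 := by positivity
  rw [e1, e2, e3, e4]
  linarith

end Pool.Agent.helper14.CF
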