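import Pool.Agent.helper31.IB.Fun

/-!
# CF-5d: logarithm, analytic part (units `2^40`)

Template: `QF/Fun.lean`.
-/

namespace Pool.Agent.helper14.CF

open Complex

private theorem l_nd (z : ℂ) (n : ℕ) : ‖z / 2 ^ n‖ = ‖z‖ / 2 ^ n := by
  rw [norm_div, norm_pow]
  norm_num

/-- remainder of the logarithm -/
private theorem l_rem {v : ℂ} {x : ℝ} (h : ‖v‖ ≤ x) (hx : x ≤ 1 / 2) :
    ‖Complex.log (1 + v) - (v - v ^ 2 / 2 + v ^ 3 / 3)‖ ≤ x ^ 4 / (4 * (1 - x)) := by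
  have hx0 : 0 ≤ x := (norm_nonneg _).trans h
  have hv1 : ‖v‖ < 1 := lt_of_le_of_lt (h.trans hx) (by norm_num)
  have hb := Complex.norm_log_sub_logTaylor_le 3 hv1
  have hs : Complex.logTaylor (3 + 1) v = v - v ^ 2 / 2 + v ^ 3 / 3 := by
    simp [Complex.logTaylor, Finset.sum_range_succ]
    ring
  rw [hs] at hb
  refine hb.trans ?_
  have h5 : (1 - ‖v‖)⁻¹ ≤ (1 - x)⁻¹ := by
    apply inv_anti₀
    · linarith
    · linarith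
  have h50 : 0 ≤ (1 - ‖v‖)⁻¹ := by
    apply inv_nonneg.mpr
    linarith
  have h6 : ‖v‖ ^ (3 + 1) ≤ x ^ 4 := by gcongr
  calc ‖v‖ ^ (3 + 1) * (1 - ‖v‖)⁻¹ / ((3 : ℕ) + 1)
      ≤ x ^ 4 * (1 - x)⁻¹ / ((3 : ℕ) + 1) := by gcongr
    _ = x ^ 4 / (4 * (1 - x)) := by
        have : 1 - x ≠ 0 := by
          have : 0 < 1 - x := by linarith
          exact this.ne'
        push_cast
        field_simp
        ring

/-- the second order -/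
private theorem l_sq {lin quad κ : ℂ} {D G Q : ℝ} (hlin : ‖lin‖ ≤ G) (hquad : ‖quad‖ ≤ Q)
    (hκ : ‖κ‖ ≤ D - G - Q) :
    ‖(lin + quad + κ) ^ 2 - lin * (lin + 2 * quad)‖ ≤ D ^ 2 - G * (G + 2 * Q) := by
  have hG : 0 ≤ G := (norm_nonneg _).trans hlin
  have hQ : 0 ≤ Q := (norm_nonneg _).trans hquad
  have hK : 0 ≤ D - G - Q := (norm_nonneg _).trans hκ
  have e : (lin + quad + κ) ^ 2 - lin * (lin + 2 * quad) =
      quad * quad + κ * (lin + quad + lin + quad + κ) := by ring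
  have h1 : ‖lin + quad + lin + quad + κ‖ ≤ G + Q + G + Q + (D - G - Q) :=
    norm_add_le_of_le (norm_add_le_of_le (norm_add_le_of_le (norm_add_le_of_le hlin hquad) hlin)
      hquad) hκ
  rw [e]
  refine (norm_add_le _ _).trans ?_
  rw [norm_mul, norm_mul]
  calc ‖quad‖ * ‖quad‖ + ‖κ‖ * ‖lin + quad + lin + quad + κ‖
      ≤ Q * Q + (D - G - Q) * (G + Q + G + Q + (D - G - Q)) :=
        add_le_add (mul_le_mul hquad hquad (norm_nonneg _) hQ)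
          (mul_le_mul hκ h1 (norm_nonneg _) hK)
    _ = D ^ 2 - G * (G + 2 * Q) := by ring

/-- the third order -/
private theorem l_cb {lin μ : ℂ} {D G : ℝ} (hlin : ‖lin‖ ≤ G) (hμ : ‖μ‖ ≤ D - G) :
    ‖(lin + μ) ^ 3 - lin ^ 3‖ ≤ D ^ 3 - G ^ 3 := by
  have hG : 0 ≤ G := (norm_nonneg _).trans hlin
  have hK : 0 ≤ D - G := (norm_nonneg _).trans hμ
  have e : (lin + μ) ^ 3 - lin ^ 3 = μ * (3 * lin ^ 2 + 3 * (lin * μ) + μ ^ 2) := by ring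
  have h1 : ‖3 * lin ^ 2 + 3 * (lin * μ) + μ ^ 2‖ ≤ 3 * G ^ 2 + 3 * (G * (D - G)) + (D - G) ^ 2 := by
    refine norm_add_le_of_le (norm_add_le_of_le ?_ ?_) ?_
    · rw [norm_mul, norm_pow]
      have : ‖(3 : ℂ)‖ = 3 := by simp
      rw [this]
      gcongr
    · rw [norm_mul, norm_mul]
      have : ‖(3 : ℂ)‖ = 3 := by simp
      rw [this]
      gcongr
    · rw [norm_pow]
      gcongr
  rw [e, norm_mul]
  calc ‖μ‖ * ‖3 * lin ^ 2 + 3 * (lin * μ) + μ ^ 2‖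
      ≤ (D - G) * (3 * G ^ 2 + 3 * (G * (D - G)) + (D - G) ^ 2) :=
        mul_le_mul hμ h1 (norm_nonneg _) hK
    _ = D ^ 3 - G ^ 3 := by ring

/-- rounding of the second order -/
private theorem l_r2 {L N l n : ℂ} (hln : ‖l‖ + ‖n‖ ≤ 2 ^ 39) (hL : ‖L - l‖ ≤ 6)
    (hN : ‖N - n‖ ≤ 15) : ‖(L * (L + 2 * N) - l * (l + 2 * n)) / 2 ^ 41‖ ≤ 11 := by
  obtain ⟨a, ha⟩ : ∃ a : ℂ, a = L - l := ⟨_, rfl⟩
  obtain ⟨b, hb⟩ : ∃ b : ℂ, b = N - n := ⟨_, rfl⟩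
  rw [← ha] at hL
  rw [← hb] at hN
  have e : L * (L + 2 * N) - l * (l + 2 * n) =
      2 * (l * a) + a * a + 2 * (l * b) + 2 * (n * a) + 2 * (a * b) := by
    rw [ha, hb]
    ring
  have n2 : ‖(2 : ℂ)‖ = 2 := by simp
  have hl0 := norm_nonneg l
  have hn0 := norm_nonneg n
  have ha0 := norm_nonneg a
  have hb0 := norm_nonneg b
  have h1 : ‖2 * (l * a)‖ ≤ 2 * (‖l‖ * 6) := by
    rw [norm_mul, norm_mul, n2]; gcongr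
  have h2 : ‖a * a‖ ≤ 6 * 6 := by
    rw [norm_mul]; gcongr
  have h3 : ‖2 * (l * b)‖ ≤ 2 * (‖l‖ * 15) := by
    rw [norm_mul, norm_mul, n2]; gcongr
  have h4 : ‖2 * (n * a)‖ ≤ 2 * (‖n‖ * 6) := by
    rw [norm_mul, norm_mul, n2]; gcongr
  have h5 : ‖2 * (a * b)‖ ≤ 2 * (6 * 15) := by
    rw [norm_mul, norm_mul, n2]; gcongr
  have h6 := norm_add_le_of_le (norm_add_le_of_le (norm_add_le_of_le (norm_add_le_of_le h1 h2) h3)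
    h4) h5
  rw [e, l_nd, div_le_iff₀ (by positivity)]
  refine h6.trans ?_
  have h7 : 2 * (‖l‖ * 6) + 6 * 6 + 2 * (‖l‖ * 15) + 2 * (‖n‖ * 6) + 2 * (6 * 15) ≤
      42 * (2 : ℝ) ^ 39 + 216 := by linarith
  refine h7.trans ?_
  norm_num

/-- rounding of the third order -/
private theorem l_r3 {L l p w3 : ℂ} (hl : ‖l‖ ≤ 2 ^ 39) (hL : ‖L - l‖ ≤ 6)
    (hp : ‖p - L ^ 2 / 2 ^ 40‖ ≤ 50) (hw3 : ‖w3 - p * 733007751851 / 2 ^ 40‖ ≤ 50) :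
    ‖L * w3 / 2 ^ 41 - l ^ 3 / (3 * 2 ^ 80)‖ ≤ 30 := by
  obtain ⟨a, ha⟩ : ∃ a : ℂ, a = L - l := ⟨_, rfl⟩
  obtain ⟨b, hb⟩ : ∃ b : ℂ, b = p - L ^ 2 / 2 ^ 40 := ⟨_, rfl⟩
  obtain ⟨d, hd⟩ : ∃ d : ℂ, d = w3 - p * 733007751851 / 2 ^ 40 := ⟨_, rfl⟩
  rw [← ha] at hL
  rw [← hb] at hp
  rw [← hd] at hw3
  have eL : L = l + a := by rw [ha]; ring
  have hLn : ‖L‖ ≤ 2 ^ 39 + 6 := by
    rw [eL]
    exact norm_add_le_of_le hl hL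
  have e : L * w3 / 2 ^ 41 - l ^ 3 / (3 * 2 ^ 80) =
      L * d / 2 ^ 41 + 733007751851 * (L * b) / 2 ^ 81 + L ^ 3 / (3 * 2 ^ 121) +
        a * (3 * l ^ 2 + 3 * (l * a) + a ^ 2) / (3 * 2 ^ 80) := by
    rw [hd, hb, eL]
    ring
  have n3 : ‖(3 : ℂ)‖ = 3 := by simp
  have n3' : ∀ (z : ℂ) (n : ℕ), ‖z / (3 * 2 ^ n)‖ = ‖z‖ / (3 * 2 ^ n) := by
    intro z n
    rw [norm_div, norm_mul, norm_pow, n3]
    norm_num
  have ha0 := norm_nonneg a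
  have hl0 := norm_nonneg l
  have h1 : ‖L * d / 2 ^ 41‖ ≤ (2 ^ 39 + 6) * 50 / 2 ^ 41 := by
    rw [l_nd, norm_mul]; gcongr
  have h2 : ‖733007751851 * (L * b) / 2 ^ 81‖ ≤ 733007751851 * ((2 ^ 39 + 6) * 50) / 2 ^ 81 := by
    have : ‖(733007751851 : ℂ)‖ = 733007751851 := by simp
    rw [l_nd, norm_mul, norm_mul, this]; gcongr
  have h3 : ‖L ^ 3 / (3 * 2 ^ 121)‖ ≤ (2 ^ 39 + 6) ^ 3 / (3 * 2 ^ 121) := by
    rw [n3', norm_pow]; gcongr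
  have h4 : ‖a * (3 * l ^ 2 + 3 * (l * a) + a ^ 2) / (3 * 2 ^ 80)‖ ≤
      6 * (3 * (2 ^ 39) ^ 2 + 3 * (2 ^ 39 * 6) + 6 ^ 2) / (3 * 2 ^ 80) := by
    have h5 : ‖3 * l ^ 2 + 3 * (l * a) + a ^ 2‖ ≤
        3 * (2 ^ 39) ^ 2 + 3 * (2 ^ 39 * 6) + 6 ^ 2 := by
      refine norm_add_le_of_le (norm_add_le_of_le ?_ ?_) ?_
      · rw [norm_mul, norm_pow, n3]; gcongr
      · rw [norm_mul, norm_mul, n3]; gcongr
      · rw [norm_pow]; gcongr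
    rw [n3', norm_mul]
    gcongr
  rw [e]
  refine (norm_add_le_of_le (norm_add_le_of_le (norm_add_le_of_le h1 h2) h3) h4).trans ?_
  norm_num

/-- F4 -/
theorem log_core {c lin quad cub ρ w y L N p w3 s : ℂ} {U D G Q r h : ℝ} (hc : c ≠ 0)
    (hw : ‖w - 2 ^ 80 / c‖ ≤ 2) (hU : ‖w‖ ≤ U) (hU2 : ‖(2 : ℂ) ^ 80 / c‖ ≤ U) (hU3 : U ≤ 2 ^ 52)
    (hU4 : 2 ≤ U)
    (hlin : ‖lin‖ ≤ G) (hquad : ‖quad‖ ≤ Q) (hR : ‖cub + ρ‖ ≤ D - G - Q) (hρ : ‖ρ‖ ≤ r)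
    (hq : ‖lin + quad + cub‖ ≤ D) (hh : U * D / 2 ^ 40 ≤ h) (hh2 : h ≤ 2 ^ 39)
    (hy : ‖y - w * (lin + quad + cub) / 2 ^ 40‖ ≤ 50) (hL : ‖L - w * lin / 2 ^ 40‖ ≤ 6)
    (hN : ‖N - w * quad / 2 ^ 40‖ ≤ 15) (hp : ‖p - L ^ 2 / 2 ^ 40‖ ≤ 50)
    (hw3 : ‖w3 - p * 733007751851 / 2 ^ 40‖ ≤ 50)
    (hs : ‖s - L * (L + 2 * N - w3) / 2 ^ 41‖ ≤ 50) :
    ‖(lin + quad + cub + ρ) / c‖ ≤ 1 / 2 ∧
      ‖Complex.log (1 + (lin + quad + cub + ρ) / c)‖ ≤ 2 * h / 2 ^ 40 ∧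
      ‖Complex.log (1 + (lin + quad + cub + ρ) / c) * 2 ^ 40 - (y - s)‖ ≤
      8 * D / 2 ^ 40 +
        U * (2 ^ 161 * r + U * (2 ^ 80 * (D ^ 2 - G * (G + 2 * Q)) + U * (D ^ 3 - G ^ 3))) /
        2 ^ 201 + h ^ 4 / (2 ^ 82 * (2 ^ 40 - h)) + 590 := by
  obtain ⟨W, hW⟩ : ∃ W : ℂ, W = 2 ^ 80 / c := ⟨_, rfl⟩
  rw [← hW] at hw hU2
  have hU0 : 0 ≤ U := by linarith
  have hG0 : 0 ≤ G := (norm_nonneg _).trans hlin
  have hQ0 : 0 ≤ Q := (norm_nonneg _).trans hquad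
  have hK0 : 0 ≤ D - G - Q := (norm_nonneg _).trans hR
  have hD0 : 0 ≤ D := (norm_nonneg _).trans hq
  have hr0 : 0 ≤ r := (norm_nonneg _).trans hρ
  have hUD : U * D ≤ h * 2 ^ 40 := by rwa [div_le_iff₀ (by positivity)] at hh
  have hGD : G ≤ D := by linarith
  have hUG : U * G ≤ h * 2 ^ 40 := le_trans (mul_le_mul_of_nonneg_left hGD hU0) hUD
  have hh0 : 0 ≤ h := le_trans (by positivity) hh
  have hsq := l_sq hlin hquad hR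
  have hμ : ‖quad + (cub + ρ)‖ ≤ D - G := by
    refine (norm_add_le_of_le hquad hR).trans (le_of_eq ?_)
    ring
  have hcb := l_cb hlin hμ
  have hδn : ‖lin + quad + (cub + ρ)‖ ≤ D := by
    refine (norm_add_le_of_le (norm_add_le_of_le hlin hquad) hR).trans (le_of_eq ?_)
    ring
  obtain ⟨δ, hδ0⟩ : ∃ δ : ℂ, δ = lin + quad + cub + ρ := ⟨_, rfl⟩
  have eδ : lin + quad + (cub + ρ) = δ := by rw [hδ0]; ring
  have eδ2 : lin + (quad + (cub + ρ)) = δ := by rw [hδ0]; ring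
  rw [eδ] at hsq hδn
  rw [eδ2] at hcb
  rw [← hδ0]
  obtain ⟨v, hv⟩ : ∃ v : ℂ, v = δ / c := ⟨_, rfl⟩
  rw [← hv]
  have hvW : v = W * δ / 2 ^ 80 := by rw [hv, hW]; field_simp
  have hvn : ‖v‖ ≤ h / 2 ^ 40 := by
    rw [hvW, l_nd, norm_mul, div_le_iff₀ (by positivity)]
    refine (mul_le_mul hU2 hδn (norm_nonneg _) hU0).trans (hUD.trans (le_of_eq ?_))
    ring
  have hhK : h / 2 ^ 40 ≤ 1 / 2 := by
    rw [div_le_iff₀ (by positivity)]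
    linarith
  have hv2 : ‖v‖ ≤ 1 / 2 := hvn.trans hhK
  refine ⟨hv2, ?_, ?_⟩
  · have h1 := Complex.norm_log_one_add_half_le_self hv2
    have h0 := norm_nonneg v
    have e : 2 * h / 2 ^ 40 = 2 * (h / 2 ^ 40) := by ring
    rw [e]
    linarith
  have hRm := l_rem hvn hhK
  obtain ⟨R, hR0⟩ : ∃ R : ℂ, R = Complex.log (1 + v) - (v - v ^ 2 / 2 + v ^ 3 / 3) := ⟨_, rfl⟩
  rw [← hR0] at hRm
  obtain ⟨l, hl0⟩ : ∃ l : ℂ, l = w * lin / 2 ^ 40 := ⟨_, rfl⟩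
  obtain ⟨n, hn0⟩ : ∃ n : ℂ, n = w * quad / 2 ^ 40 := ⟨_, rfl⟩
  rw [← hl0] at hL
  rw [← hn0] at hN
  have hid : Complex.log (1 + v) * 2 ^ 40 - (y - s) =
      R * 2 ^ 40 + -((w - W) * (lin + quad + cub) / 2 ^ 40) + W * ρ / 2 ^ 40 +
      -(y - w * (lin + quad + cub) / 2 ^ 40) +
      -(W ^ 2 * (δ ^ 2 - lin * (lin + 2 * quad)) / 2 ^ 121) +
      (w ^ 2 - W ^ 2) * (lin * (lin + 2 * quad)) / 2 ^ 121 +
      (L * (L + 2 * N) - l * (l + 2 * n)) / 2 ^ 41 +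
      W ^ 3 * (δ ^ 3 - lin ^ 3) / (3 * 2 ^ 200) +
      -((w ^ 3 - W ^ 3) * lin ^ 3 / (3 * 2 ^ 200)) +
      -(L * w3 / 2 ^ 41 - l ^ 3 / (3 * 2 ^ 80)) +
      (s - L * (L + 2 * N - w3) / 2 ^ 41) := by
    have e1 : Complex.log (1 + v) = R + (v - v ^ 2 / 2 + v ^ 3 / 3) := by rw [hR0]; ring
    rw [e1, hvW, hl0, hn0]
    have e2 : ρ = δ - lin - quad - cub := by rw [hδ0]; ring
    rw [e2]
    ring
  have hKh : (0 : ℝ) < 2 ^ 40 - h := by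
    have : (2 : ℝ) ^ 39 < 2 ^ 40 := by norm_num
    linarith
  have n3' : ∀ (z : ℂ) (n : ℕ), ‖z / (3 * 2 ^ n)‖ = ‖z‖ / (3 * 2 ^ n) := by
    intro z n
    have n3 : ‖(3 : ℂ)‖ = 3 := by simp
    rw [norm_div, norm_mul, norm_pow, n3]
    norm_num
  have b1 : ‖R * 2 ^ 40‖ ≤ h ^ 4 / (2 ^ 82 * (2 ^ 40 - h)) := by
    rw [norm_mul, norm_pow]
    have : ‖(2 : ℂ)‖ = 2 := by simp
    rw [this]
    calc ‖R‖ * 2 ^ 40 ≤ (h / 2 ^ 40) ^ 4 / (4 * (1 - h / 2 ^ 40)) * 2 ^ 40 := by gcongr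
      _ = h ^ 4 / (2 ^ 82 * (2 ^ 40 - h)) := by
          have e0 : 1 - h / 2 ^ 40 = (2 ^ 40 - h) / 2 ^ 40 := by field_simp
          rw [e0]
          field_simp
          norm_num
  have b2 : ‖-((w - W) * (lin + quad + cub) / 2 ^ 40)‖ ≤ 2 * D / 2 ^ 40 := by
    rw [norm_neg, l_nd, norm_mul]
    gcongr
  have b3 : ‖W * ρ / 2 ^ 40‖ ≤ U * r / 2 ^ 40 := by
    rw [l_nd, norm_mul]
    gcongr
  have b4 : ‖-(y - w * (lin + quad + cub) / 2 ^ 40)‖ ≤ 50 := by rw [norm_neg]; exact hy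
  have b5 : ‖-(W ^ 2 * (δ ^ 2 - lin * (lin + 2 * quad)) / 2 ^ 121)‖ ≤
      U ^ 2 * (D ^ 2 - G * (G + 2 * Q)) / 2 ^ 121 := by
    rw [norm_neg, l_nd, norm_mul, norm_pow]
    gcongr
  have b6 : ‖(w ^ 2 - W ^ 2) * (lin * (lin + 2 * quad)) / 2 ^ 121‖ ≤ D / 2 ^ 40 := by
    have e : w ^ 2 - W ^ 2 = (w - W) * (w + W) := by ring
    rw [l_nd, norm_mul, e, norm_mul, norm_mul, div_le_div_iff₀ (by positivity) (by positivity)]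
    have h1 : ‖w + W‖ ≤ 2 * U := (norm_add_le _ _).trans (by linarith)
    have h2 : ‖lin + 2 * quad‖ ≤ G + 2 * Q := by
      refine norm_add_le_of_le hlin ?_
      rw [norm_mul]
      have : ‖(2 : ℂ)‖ = 2 := by simp
      rw [this]
      gcongr
    have h3 : G * (G + 2 * Q) ≤ D * D := by
      have h4 : G * (G + 2 * Q) ≤ (G + Q) * (G + Q) := by nlinarith [mul_nonneg hQ0 hQ0]
      have h5 : G + Q ≤ D := by linarith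
      have h6 : (G + Q) * (G + Q) ≤ D * D := mul_le_mul h5 h5 (by positivity) hD0
      linarith
    calc ‖w - W‖ * ‖w + W‖ * (‖lin‖ * ‖lin + 2 * quad‖) * 2 ^ 40
        ≤ 2 * (2 * U) * (G * (G + 2 * Q)) * 2 ^ 40 := by gcongr
      _ ≤ 2 * (2 * U) * (D * D) * 2 ^ 40 := by gcongr
      _ = 4 * (U * D) * D * 2 ^ 40 := by ring
      _ ≤ 4 * (h * 2 ^ 40) * D * 2 ^ 40 := by gcongr
      _ ≤ 4 * (2 ^ 39 * 2 ^ 40) * D * 2 ^ 40 := by gcongr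
      _ = D * 2 ^ 121 := by ring
  have hln : ‖l‖ + ‖n‖ ≤ 2 ^ 39 := by
    rw [hl0, hn0, l_nd, l_nd, norm_mul, norm_mul, ← add_div, div_le_iff₀ (by positivity)]
    calc ‖w‖ * ‖lin‖ + ‖w‖ * ‖quad‖ ≤ U * G + U * Q := by gcongr
      _ = U * (G + Q) := by ring
      _ ≤ U * D := mul_le_mul_of_nonneg_left (by linarith) hU0
      _ ≤ h * 2 ^ 40 := hUD
      _ ≤ 2 ^ 39 * 2 ^ 40 := by gcongr
  have b7 := l_r2 hln hL hN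
  have hl39 : ‖l‖ ≤ 2 ^ 39 := by
    have := norm_nonneg n
    linarith
  have b8 : ‖W ^ 3 * (δ ^ 3 - lin ^ 3) / (3 * 2 ^ 200)‖ ≤ U ^ 3 * (D ^ 3 - G ^ 3) / 2 ^ 201 := by
    have hDG3 : 0 ≤ D ^ 3 - G ^ 3 := (norm_nonneg _).trans hcb
    rw [n3', norm_mul, norm_pow]
    calc ‖W‖ ^ 3 * ‖δ ^ 3 - lin ^ 3‖ / (3 * 2 ^ 200) ≤
        U ^ 3 * (D ^ 3 - G ^ 3) / (3 * 2 ^ 200) := by gcongr
      _ ≤ U ^ 3 * (D ^ 3 - G ^ 3) / 2 ^ 201 := by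
          refine div_le_div_of_nonneg_left (by positivity) (by positivity) ?_
          norm_num
  have b9 : ‖-((w ^ 3 - W ^ 3) * lin ^ 3 / (3 * 2 ^ 200))‖ ≤ D / 2 ^ 40 := by
    have e : w ^ 3 - W ^ 3 = (w - W) * (w ^ 2 + w * W + W ^ 2) := by ring
    have h1 : ‖w ^ 2 + w * W + W ^ 2‖ ≤ U ^ 2 + U * U + U ^ 2 := by
      refine norm_add_le_of_le (norm_add_le_of_le ?_ ?_) ?_
      · rw [norm_pow]; gcongr
      · rw [norm_mul]; gcongr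
      · rw [norm_pow]; gcongr
    rw [norm_neg, n3', norm_mul, e, norm_mul, norm_pow,
      div_le_div_iff₀ (by positivity) (by positivity)]
    calc ‖w - W‖ * ‖w ^ 2 + w * W + W ^ 2‖ * ‖lin‖ ^ 3 * 2 ^ 40
        ≤ 2 * (U ^ 2 + U * U + U ^ 2) * G ^ 3 * 2 ^ 40 := by gcongr
      _ = 6 * ((U * G) * (U * G)) * G * 2 ^ 40 := by ring
      _ ≤ 6 * ((h * 2 ^ 40) * (h * 2 ^ 40)) * D * 2 ^ 40 := by gcongr
      _ ≤ 6 * ((2 ^ 39 * 2 ^ 40) * (2 ^ 39 * 2 ^ 40)) * D * 2 ^ 40 := by gcongr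
      _ ≤ D * (3 * 2 ^ 200) := by
          have : (6 * (((2 : ℝ) ^ 39 * 2 ^ 40) * (2 ^ 39 * 2 ^ 40))) * 2 ^ 40 ≤ 3 * 2 ^ 200 := by
            norm_num
          calc 6 * (((2 : ℝ) ^ 39 * 2 ^ 40) * (2 ^ 39 * 2 ^ 40)) * D * 2 ^ 40
              = D * (6 * (((2 : ℝ) ^ 39 * 2 ^ 40) * (2 ^ 39 * 2 ^ 40)) * 2 ^ 40) := by ring
            _ ≤ D * (3 * 2 ^ 200) := by gcongr
  have b10 : ‖-(L * w3 / 2 ^ 41 - l ^ 3 / (3 * 2 ^ 80))‖ ≤ 30 := by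
    rw [norm_neg]
    exact l_r3 hl39 hL hp hw3
  rw [hid]
  have hsum := norm_add_le_of_le (norm_add_le_of_le (norm_add_le_of_le (norm_add_le_of_le
    (norm_add_le_of_le (norm_add_le_of_le (norm_add_le_of_le (norm_add_le_of_le
      (norm_add_le_of_le (norm_add_le_of_le b1 b2) b3) b4) b5) b6) b7) b8) b9) b10) hs
  refine hsum.trans ?_
  have e1 : U * (2 ^ 161 * r + U * (2 ^ 80 * (D ^ 2 - G * (G + 2 * Q)) + U * (D ^ 3 - G ^ 3))) /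
        2 ^ 201 = U * r / 2 ^ 40 + U ^ 2 * (D ^ 2 - G * (G + 2 * Q)) / 2 ^ 121 +
        U ^ 3 * (D ^ 3 - G ^ 3) / 2 ^ 201 := by
    ring
  have e2 : 8 * D / 2 ^ 40 = 8 * (D / 2 ^ 40) := by ring
  have e3 : 2 * D / 2 ^ 40 = 2 * (D / 2 ^ 40) := by ring
  have e4 : 0 ≤ D / 2 ^ 40 := by positivity
  rw [e1, e2, e3]
  linarith

end Pool.Agent.helper14.CF
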