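import Pool.Agent.helper14.CF.Prod
import Pool.Agent.helper14.CF.Cmp
import Pool.Agent.helper14.CF.FunD
import Pool.Agent.helper14.CF.FunI
import Pool.Agent.helper14.CF.FunE
import Pool.Agent.helper14.CF.FunL
import Pool.Agent.helper31.IB.Fun
import Pool.Agent.helper31.IF.Spec

/-!
# CF-5: third order models: inverse, exponential, logarithm

Template: `QF/Fun.lean`.  Write the value of `x` as `c + δ`, `δ = lin + quad + R`, `R = cub + ρ`,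
`‖lin‖ ≤ G`, `‖quad‖ ≤ Q`, `‖R‖ ≤ D - G - Q` (units), so
`‖δ² - lin² - 2 lin quad‖ ≤ D² - G (G + 2 Q)` and `‖δ³ - lin³‖ ≤ D³ - G³`.

* inverse, `v = δ/c`, `‖v‖ ≤ h`: `1/(c + δ) = (1/c)(1 - v + v² - v³ + v⁴/(1 + v))`.
* exponential: `exp (c + δ) = exp c (1 + δ + δ²/2 + δ³/6 + R)`,
  `‖R‖ ≤ ‖δ‖⁴ (4 + ‖δ‖)/96` for `‖δ‖ ≤ 1`.
* logarithm: `log (1 + v) = v - v²/2 + v³/3 + R`, `‖R‖ ≤ ‖v‖⁴/(4 (1 - ‖v‖))`; the principal value
  and the slit plane as in `QF/Fun.lean`.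
-/

namespace Pool.Agent.helper14.CF

open Complex
open Pool.Agent.helper31.IA (Z Small get RealL)
open Pool.Agent.helper31.IB (fd One bz mg ofZ zinv dmag)
open Pool.Agent.helper31.IF (zexp zlog)

/-! ### tools -/

private theorem f_mono_zero (ε : List ℂ) : mono ε 0 = 1 := by simp [mono]

private theorem f_ev_cen (z : GaussianInt) (ε : List ℂ) :
    ev (fun k => if k = 0 then z else 0) ε = toC z := by
  unfold ev
  rw [Finset.sum_eq_single 0]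
  · beta_reduce
    rw [if_pos rfl, f_mono_zero, mul_one]
  · intro k _ hk
    beta_reduce
    rw [if_neg hk, map_zero, zero_mul]
  · intro h
    exact absurd (Finset.mem_range.2 (by norm_num)) h

/-- a number added at the centre -/
private theorem f_ev_add (z : GaussianInt) (a : Nat → GaussianInt) (ε : List ℂ) :
    ev (fun k => if k = 0 then a 0 + z else a k) ε = ev a ε + toC z := by
  rw [← f_ev_cen z ε, ← ev_add]
  refine ev_congr (fun k _ => ?_) ε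
  by_cases h : k = 0
  · rw [if_pos h, if_pos h, h]
  · rw [if_neg h, if_neg h, add_zero]

private theorem f_evl_congr {l : List Nat} (hl : ∀ i ∈ l, i < 70) {a b : Nat → GaussianInt}
    (h : ∀ k, k < 70 → a k = b k) (ε : List ℂ) : evl l a ε = evl l b ε := by
  unfold evl
  congr 1
  apply List.map_congr_left
  intro k hk
  rw [h k (hl k hk)]

private theorem f_PL : ∀ i ∈ PL, i < 70 := by decide

private theorem f_PQ : ∀ i ∈ PQ, i < 70 := by decide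

private theorem f_norm_list {ε : List ℂ} (hε : Small ε) (a : Nat → GaussianInt) (l : List Nat) :
    ‖(l.map fun k => toC (a k) * mono ε k).sum‖ ≤ (l.map fun k => ‖toC (a k)‖).sum := by
  induction l with
  | nil => simp
  | cons k l ih =>
    simp only [List.map_cons, List.sum_cons]
    refine (norm_add_le _ _).trans (add_le_add ?_ ih)
    rw [norm_mul]
    exact mul_le_of_le_one_right (norm_nonneg _) (mono_small hε k)

private theorem f_dev (a : Nat → GaussianInt) (ε : List ℂ) :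
    ev a ε - toC (a 0) = evL a ε + evQ a ε + evT a ε := by
  rw [ev_split]
  ring

/-- everything about the value -/
private theorem f_data {ε : List ℂ} (hε : Small ε) {x : A} {z : ℂ} (h : MemC ε x z) :
    ∃ ρ : ℂ, z * 2 ^ 40 = toC (cd x.X 0) + (evL (cd x.X) ε + evQ (cd x.X) ε + evT (cd x.X) ε + ρ) ∧
      ‖ρ‖ ≤ (x.r : ℝ) ∧ ‖evL (cd x.X) ε‖ ≤ (x.G : ℝ) ∧ ‖evQ (cd x.X) ε‖ ≤ (x.Q : ℝ) ∧
      ‖evT (cd x.X) ε + ρ‖ ≤ (x.D : ℝ) - x.G - x.Q ∧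
      ‖evL (cd x.X) ε + evQ (cd x.X) ε + evT (cd x.X) ε‖ ≤ (x.D : ℝ) ∧ x.G + x.Q ≤ x.D := by
  obtain ⟨ρ, h1, h2, h3, h4, h5, h6⟩ := h.split hε
  have h7 := f_norm_list hε (cd x.X) PT
  change ‖evT (cd x.X) ε‖ ≤ _ at h7
  have h8 := h.dev
  have h9 : (0 : ℝ) ≤ x.r := Nat.cast_nonneg _
  refine ⟨ρ, ?_, h2, h3, h4, h5, ?_, ?_⟩
  · rw [h1]
    ring
  · have n1 := norm_add_le (evL (cd x.X) ε + evQ (cd x.X) ε) (evT (cd x.X) ε)
    have n2 := norm_add_le (evL (cd x.X) ε) (evQ (cd x.X) ε)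
    linarith
  · exact_mod_cast h6

private theorem f_bz {c : Nat} : bz c 0 * 2 ^ 40 = toC (zd c) := by
  rw [bz_zd]
  have h : (2 : ℂ) ^ 40 ≠ 0 := by norm_num
  exact div_mul_cancel₀ _ h

private theorem f_dmag {x : ℕ} (h : One (2 ^ 62) x) : ‖toC (zd x)‖ ≤ (dmag x : ℝ) := by
  have h1 := Pool.Agent.helper31.IB.dmag_spec (Pool.Agent.helper31.IB.clean_mono
    (Pool.Agent.helper31.IB.clean_of_one h) (by norm_num : 2 ^ 62 ≤ 2 ^ 90))
  refine le_trans ?_ h1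
  rw [← f_bz, norm_mul]
  have h2 : ‖bz x 0‖ ≤ ∑ j ∈ Finset.range 8, ‖bz x j‖ :=
    Finset.single_le_sum (f := fun j => ‖bz x j‖) (fun j _ => norm_nonneg _)
      (Finset.mem_range.mpr (by norm_num))
  have h3 : ‖(2 : ℂ) ^ 40‖ = 2 ^ 40 := by
    rw [norm_pow]
    norm_num
  rw [h3]
  exact mul_le_mul_of_nonneg_right h2 (by positivity)

/-- coordinates from the norm -/
private theorem f_coord {z : GaussianInt} {n : Nat} (h : ‖toC z‖ ≤ (n : ℝ)) :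
    |z.re| ≤ n ∧ |z.im| ≤ n := by
  constructor
  · have h1 := (Complex.abs_re_le_norm (toC z)).trans h
    rw [← GaussianInt.intCast_re] at h1
    exact_mod_cast h1
  · have h1 := (Complex.abs_im_le_norm (toC z)).trans h
    rw [← GaussianInt.intCast_im] at h1
    exact_mod_cast h1

private theorem f_shr (N s : ℕ) : (N : ℝ) / 2 ^ s ≤ ((Nat.shiftRight N s : ℕ) : ℝ) + 1 := by
  have h1 : Nat.shiftRight N s = N / 2 ^ s := Nat.shiftRight_eq_div_pow N s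
  rw [h1, div_le_iff₀ (by positivity)]
  have h2 : N < 2 ^ s * (N / 2 ^ s + 1) := Nat.lt_mul_div_succ N (by positivity)
  have h3 : (N : ℝ) < 2 ^ s * (((N / 2 ^ s : ℕ) : ℝ) + 1) := by exact_mod_cast h2
  linarith

private theorem f_div (n d : ℕ) (hd : 0 < d) :
    (n : ℝ) / d ≤ ((Nat.div n d : ℕ) : ℝ) + 1 := by
  have hd' : (0 : ℝ) < d := by exact_mod_cast hd
  rw [div_le_iff₀ hd']
  have h2 : n < d * (n / d + 1) := Nat.lt_mul_div_succ n hd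
  have h3 : (n : ℝ) < d * (((n / d : ℕ) : ℝ) + 1) := by exact_mod_cast h2
  have h4 : ((Nat.div n d : ℕ) : ℝ) = ((n / d : ℕ) : ℝ) := rfl
  rw [h4]
  linarith

private theorem cadd (a b : ℕ) : ((Nat.add a b : ℕ) : ℝ) = (a : ℝ) + b := Nat.cast_add a b

private theorem cmul (a b : ℕ) : ((Nat.mul a b : ℕ) : ℝ) = (a : ℝ) * b := Nat.cast_mul a b

private theorem cshl (a s : ℕ) : ((Nat.shiftLeft a s : ℕ) : ℝ) = (a : ℝ) * 2 ^ s := by
  have e0 : Nat.shiftLeft a s = a * 2 ^ s := Nat.shiftLeft_eq _ _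
  rw [e0]
  push_cast
  ring

/-- `D * D - G * (G + 2 * Q)` -/
private theorem csq {x : A} (h : x.G + x.Q ≤ x.D) :
    ((sqN x : ℕ) : ℝ) = (x.D : ℝ) ^ 2 - (x.G : ℝ) * (x.G + 2 * x.Q) := by
  have e : sqN x = x.D * x.D - x.G * (x.G + 2 * x.Q) := rfl
  have h1 : x.G * (x.G + 2 * x.Q) ≤ x.D * x.D := by
    have h2 := Nat.mul_le_mul h h
    refine le_trans ?_ h2
    nlinarith
  rw [e, Nat.cast_sub h1]
  push_cast
  ring

/-- `D * (D * D) - G * (G * G)` -/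
private theorem ccu {x : A} (h : x.G + x.Q ≤ x.D) :
    ((cuN x : ℕ) : ℝ) = (x.D : ℝ) ^ 3 - (x.G : ℝ) ^ 3 := by
  have e : cuN x = x.D * (x.D * x.D) - x.G * (x.G * x.G) := rfl
  have h0 : x.G ≤ x.D := le_trans (Nat.le_add_right _ _) h
  have h1 : x.G * (x.G * x.G) ≤ x.D * (x.D * x.D) := Nat.mul_le_mul h0 (Nat.mul_le_mul h0 h0)
  rw [e, Nat.cast_sub h1]
  push_cast
  ring

private theorem bif_ok {b : Bool} {U r : ℕ}
    (h : (bif b then mU U r true else bad : A).ok = true) : b = true := by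
  cases b with
  | true => rfl
  | false => exact h

private theorem c_sub {h : Nat} (hh : (h : ℝ) ≤ 2 ^ 39) :
    ((Nat.sub 1099511627776 h : ℕ) : ℝ) = 2 ^ 40 - (h : ℝ) := by
  have hle : h ≤ 1099511627776 := by
    have : (h : ℝ) ≤ (1099511627776 : ℕ) := hh.trans (by norm_num)
    exact_mod_cast this
  have e : Nat.sub 1099511627776 h = 1099511627776 - h := rfl
  rw [e, Nat.cast_sub hle]
  norm_num

private theorem f_spos {k : Nat} (hk : (k : ℝ) ≤ 2 ^ 39) (m : Nat) :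
    0 < Nat.shiftLeft (Nat.sub 1099511627776 k) m := by
  have h : (0 : ℝ) < ((Nat.shiftLeft (Nat.sub 1099511627776 k) m : ℕ) : ℝ) := by
    rw [cshl, c_sub hk]
    have h2 : (2 : ℝ) ^ 39 < 2 ^ 40 := by norm_num
    have h0 : (0 : ℝ) < 2 ^ 40 - k := by linarith
    positivity
  exact_mod_cast h

private theorem f_z70 {z : GaussianInt} (hz : |z.re| ≤ (4503599627370496 : ℕ) ∧
    |z.im| ≤ (4503599627370496 : ℕ)) : |z.re| ≤ 2 ^ 70 ∧ |z.im| ≤ 2 ^ 70 := by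
  have e : ((4503599627370496 : ℕ) : ℤ) ≤ 2 ^ 70 := by norm_num
  exact ⟨hz.1.trans e, hz.2.trans e⟩

/-! ### digits of the intermediate results, in terms of the stored numbers -/

/-- deviation times a number -/
private theorem g_dev {ε : List ℂ} (hε : Small ε) {X c n y : Nat} {z : GaussianInt} (hX : Good X)
    (hc : ((c : ℕ) : ZMod NN) = phi z) (hz : |z.re| ≤ n ∧ |z.im| ≤ n) (hn : n ≤ 2 ^ 54)
    (hy : y = r40 (Nat.mul (dev X) c)) (h : okU y = true) :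
    St (cut y) (cd (cut y)) ∧
      ‖ev (cd (cut y)) ε - toC z * (evL (cd X) ε + evQ (cd X) ε + evT (cd X) ε) / 2 ^ 40‖ ≤ 50 ∧
      ‖evL (cd (cut y)) ε - toC z * evL (cd X) ε / 2 ^ 40‖ ≤ 6 ∧
      ‖evQ (cd (cut y)) ε - toC z * evQ (cd X) ε / 2 ^ 40‖ ≤ 15 := by
  subst hy
  obtain ⟨a, h1, h2, h3, h4⟩ := devmul_spec hε hX hc hz hn h
  refine ⟨⟨h1.good, fun _ _ => rfl⟩, ?_, ?_, ?_⟩
  · rw [ev_congr h1.eq, ← f_dev]
    exact h2
  · have e : evL (cd (cut (r40 (Nat.mul (dev X) c)))) ε = evL a ε := f_evl_congr f_PL h1.eq ε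
    rw [e]
    exact h3
  · have e : evQ (cd (cut (r40 (Nat.mul (dev X) c)))) ε = evQ a ε := f_evl_congr f_PQ h1.eq ε
    rw [e]
    exact h4

/-! ### the three functions -/

/-- the common part of `inv` and `log` -/
private theorem f_inv0 {x : A} {w U h : Nat} (hg : Good x.X) (hw0 : w = (zinv (cen x.X)).1)
    (hn : 1099511627776 ≤ (zinv (cen x.X)).2) (hU0 : U = Nat.add (dmag w) 2)
    (hh0 : h = Nat.add (Nat.shiftRight (Nat.mul U x.D) 40) 1)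
    (hU : U ≤ 4503599627370496) (hh : h ≤ 549755813888) :
    toC (cd x.X 0) ≠ 0 ∧ ‖toC (zd w) - 2 ^ 80 / toC (cd x.X 0)‖ ≤ 2 ∧
    ‖toC (zd w)‖ ≤ (U : ℝ) ∧ ‖(2 : ℂ) ^ 80 / toC (cd x.X 0)‖ ≤ (U : ℝ) ∧
    (U : ℝ) ≤ 2 ^ 52 ∧ (2 : ℝ) ≤ (U : ℝ) ∧ (U : ℝ) * x.D / 2 ^ 40 ≤ (h : ℝ) ∧ (h : ℝ) ≤ 2 ^ 39 ∧
    ((toF w : ℕ) : ZMod NN) = phi (zd w) ∧
    (|(zd w).re| ≤ (4503599627370496 : ℕ) ∧ |(zd w).im| ≤ (4503599627370496 : ℕ)) := by
  obtain ⟨hc1, hc2⟩ := cen_spec hg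
  obtain ⟨hw1, hcne, hwn, -⟩ := Pool.Agent.helper31.IB.zinv_spec hc1 hn
  rw [← hw0] at hw1 hwn
  have hb : bz (cen x.X) 0 = toC (cd x.X 0) / 2 ^ 40 := by rw [bz_zd, hc2]
  have hm := f_dmag hw1
  have hUr : (U : ℝ) = dmag w + 2 := by rw [hU0, cadd]; norm_num
  have hc0 : toC (cd x.X 0) ≠ 0 := by
    intro h0
    rw [hb, h0, zero_div] at hcne
    exact hcne rfl
  have hw2 : ‖toC (zd w) - 2 ^ 80 / toC (cd x.X 0)‖ ≤ 2 := by
    have e : toC (zd w) - 2 ^ 80 / toC (cd x.X 0) = (bz w 0 - (bz (cen x.X) 0)⁻¹) * 2 ^ 40 := by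
      rw [← f_bz, hb]
      have h40 : (2 : ℂ) ^ 40 ≠ 0 := by norm_num
      field_simp
    rw [e, norm_mul]
    have h3 : ‖(2 : ℂ) ^ 40‖ = 2 ^ 40 := by
      rw [norm_pow]
      norm_num
    rw [h3, ← le_div_iff₀ (by positivity)]
    exact hwn
  have hmU : ‖toC (zd w)‖ ≤ (U : ℝ) := by
    rw [hUr]
    linarith
  have hU52 : (U : ℝ) ≤ 2 ^ 52 := by
    have : (U : ℝ) ≤ (4503599627370496 : ℕ) := by exact_mod_cast hU
    refine this.trans ?_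
    norm_num
  have hmU2 : ‖toC (zd w)‖ ≤ ((4503599627370496 : ℕ) : ℝ) := by
    refine hmU.trans (hU52.trans ?_)
    norm_num
  refine ⟨hc0, hw2, hmU, ?_, hU52, ?_, ?_, ?_, ?_, ?_⟩
  · have e : (2 : ℂ) ^ 80 / toC (cd x.X 0) = toC (zd w) - (toC (zd w) - 2 ^ 80 / toC (cd x.X 0)) := by
      ring
    rw [e, hUr]
    exact (norm_sub_le _ _).trans (add_le_add hm hw2)
  · rw [hUr]
    have : (0 : ℝ) ≤ dmag w := Nat.cast_nonneg _
    linarith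
  · have h1 := f_shr (Nat.mul U x.D) 40
    rw [cmul] at h1
    rw [hh0, cadd (Nat.shiftRight _ _), Nat.cast_one]
    exact h1
  · have : (h : ℝ) ≤ (549755813888 : ℕ) := by exact_mod_cast hh
    refine this.trans ?_
    norm_num
  · exact toF_spec (by norm_num) hw1
  · exact f_coord hmU2

private theorem inv_def (x : A) {w n2 U h uf y p s t : Nat} (hw : w = (zinv (cen x.X)).1)
    (hn : n2 = (zinv (cen x.X)).2) (hU : U = Nat.add (dmag w) 2)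
    (hh : h = Nat.add (Nat.shiftRight (Nat.mul U x.D) 40) 1) (huf : uf = toF w)
    (hy : y = r40 (Nat.mul (dev x.X) uf))
    (hp : p = r40 (Nat.mul (linV (cut y)) (linV (cut y))))
    (hs : s = r40 (Nat.mul (linV (cut y)) (Nat.add (Nat.add (linV (cut y))
      (Nat.add (quaV (cut y)) (quaV (cut y)))) (Nat.sub kN (cut p)))))
    (ht : t = r40 (Nat.mul (Nat.sub (Nat.add (cut s) NN) (cut y)) uf)) :
    x.inv = bif x.ok && Nat.ble 1099511627776 n2 && Nat.ble U 4503599627370496 &&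
      Nat.ble h 549755813888 && okU y && okU p && okU s && okU t then
    mU (Nat.mod (Nat.add (Nat.add (cut t) fT) uf) NN)
      (Nat.add
        (Nat.add
          (Nat.shiftRight (Nat.mul (Nat.mul U U) (Nat.add (Nat.shiftLeft x.r 160)
            (Nat.mul U (Nat.add (Nat.shiftLeft (sqN x) 80) (Nat.mul U (cuN x)))))) 240)
          (Nat.div (Nat.mul U (Nat.mul (Nat.mul h h) (Nat.mul h h)))
            (Nat.shiftLeft (Nat.sub 1099511627776 h) 120)))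
        (Nat.add (Nat.shiftRight (Nat.mul 600 U) 40) 200))
      true
    else bad := by
  rw [ht, hs, hp, hy, huf, hh, hU, hn, hw]
  simp only [A.inv]

theorem Mem.inv {ε : List ℂ} (hε : Small ε) {x : A} {u : ℂ} (hx : Mem ε x u)
    (h : x.inv.ok = true) : u ≠ 0 ∧ Mem ε x.inv u⁻¹ := by
  obtain ⟨w, hw⟩ : ∃ w, w = (zinv (cen x.X)).1 := ⟨_, rfl⟩
  obtain ⟨n2, hn2⟩ : ∃ n2, n2 = (zinv (cen x.X)).2 := ⟨_, rfl⟩
  obtain ⟨U, hU⟩ : ∃ U, U = Nat.add (dmag w) 2 := ⟨_, rfl⟩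
  obtain ⟨k, hk⟩ : ∃ k, k = Nat.add (Nat.shiftRight (Nat.mul U x.D) 40) 1 := ⟨_, rfl⟩
  obtain ⟨uf, huf⟩ : ∃ uf, uf = toF w := ⟨_, rfl⟩
  obtain ⟨y, hy⟩ : ∃ y, y = r40 (Nat.mul (dev x.X) uf) := ⟨_, rfl⟩
  obtain ⟨p, hp⟩ : ∃ p, p = r40 (Nat.mul (linV (cut y)) (linV (cut y))) := ⟨_, rfl⟩
  obtain ⟨s, hs⟩ : ∃ s, s = r40 (Nat.mul (linV (cut y)) (Nat.add (Nat.add (linV (cut y))
      (Nat.add (quaV (cut y)) (quaV (cut y)))) (Nat.sub kN (cut p)))) := ⟨_, rfl⟩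
  obtain ⟨t, ht⟩ : ∃ t, t = r40 (Nat.mul (Nat.sub (Nat.add (cut s) NN) (cut y)) uf) := ⟨_, rfl⟩
  have hdef := inv_def x hw hn2 hU hk huf hy hp hs ht
  rw [hdef] at h ⊢
  have hb := bif_ok h
  rw [hb, cond_true]
  simp only [Bool.and_eq_true, Nat.ble_eq] at hb
  obtain ⟨⟨⟨⟨⟨⟨⟨hxok, hn⟩, hUb⟩, hkb⟩, hoy⟩, hop⟩, hos⟩, hot⟩ := hb
  have hM := hx hxok
  rw [hn2] at hn
  obtain ⟨hc0, hw2, hwU, hcU, hU52, hU2, hUD, hk39, hphi, hz⟩ :=
    f_inv0 hM.good hw hn hU hk hUb hkb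
  rw [← huf] at hphi
  obtain ⟨sy, vy, vL, vN⟩ := g_dev hε hM.good hphi hz (by norm_num) hy hoy
  obtain ⟨pa, sp, pz, vp⟩ : ∃ a, St (cut p) a ∧ (∀ k, k ∉ PQ → a k = 0) ∧
      ‖ev a ε - evL (cd (cut y)) ε ^ 2 / 2 ^ 40‖ ≤ 50 := by
    rw [hp] at hop ⊢
    exact sq_spec hε sy.good hop
  obtain ⟨sa, ss, vs⟩ : ∃ b, St (cut s) b ∧
      ‖ev b ε - evL (cd (cut y)) ε * (evL (cd (cut y)) ε + 2 * evQ (cd (cut y)) ε - ev pa ε) /
        2 ^ 40‖ ≤ 50 := by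
    rw [hs] at hos ⊢
    exact cubN40_spec hε sy.good sp pz hos
  obtain ⟨ta, st, vt⟩ : ∃ a, St (cut t) a ∧
      ‖ev a ε - (ev sa ε - ev (cd (cut y)) ε) * toC (zd w) / 2 ^ 40‖ ≤ 50 := by
    rw [ht] at hot ⊢
    exact invmul_spec hε ss sy hphi hz (by norm_num) hot
  obtain ⟨ρ, hu, hρ, hl, hq, hR, hlq, hGD⟩ := f_data hε hM
  have key := inv_core hc0 hw2 hwU hcU hU52 hU2 hl hq hR hρ hlq hUD hk39 vy vL vN vp vs vt
  rw [← hu] at key
  have hu0 : u ≠ 0 := by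
    intro h0
    rw [h0, zero_mul] at key
    exact key.1 rfl
  refine ⟨hu0, ?_⟩
  refine mem_mU (a := fun k => if k = 0 then ta 0 + zd w else ta k) fun _ hok => ?_
  refine ⟨addc_spec st hphi (f_z70 hz) hok, ?_⟩
  have e0 : u⁻¹ * 2 ^ 40 = 2 ^ 80 / (u * 2 ^ 40) := by
    have h40 : (2 : ℂ) ^ 40 ≠ 0 := by norm_num
    field_simp
  rw [f_ev_add, e0, add_comm (ev ta ε)]
  refine key.2.trans ?_
  have s1 := f_shr (Nat.mul (Nat.mul U U) (Nat.add (Nat.shiftLeft x.r 160)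
            (Nat.mul U (Nat.add (Nat.shiftLeft (sqN x) 80) (Nat.mul U (cuN x)))))) 240
  have s2 := f_div (Nat.mul U (Nat.mul (Nat.mul k k) (Nat.mul k k))) _ (f_spos hk39 120)
  have s3 := f_shr (Nat.mul 600 U) 40
  simp only [cmul, cadd, cshl, csq hGD, ccu hGD] at s1
  simp only [cmul, cshl, c_sub hk39] at s2
  simp only [cmul] at s3
  simp only [cadd]
  have e1 : (U : ℝ) * U * ((x.r : ℝ) * 2 ^ 160 + U * (((x.D : ℝ) ^ 2 - (x.G : ℝ) *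
        (x.G + 2 * x.Q)) * 2 ^ 80 + U * ((x.D : ℝ) ^ 3 - (x.G : ℝ) ^ 3))) / 2 ^ 240 =
      (U : ℝ) ^ 2 * (2 ^ 160 * (x.r : ℝ) + U * (2 ^ 80 * ((x.D : ℝ) ^ 2 - (x.G : ℝ) *
        (x.G + 2 * x.Q)) + U * ((x.D : ℝ) ^ 3 - (x.G : ℝ) ^ 3))) / 2 ^ 240 := by ring
  have e2 : (U : ℝ) * ((k : ℝ) * k * ((k : ℝ) * k)) / ((2 ^ 40 - (k : ℝ)) * 2 ^ 120) =
      (U : ℝ) * (k : ℝ) ^ 4 / (2 ^ 120 * (2 ^ 40 - (k : ℝ))) := by
    rw [mul_comm ((2 : ℝ) ^ 40 - (k : ℝ))]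
    ring
  rw [e1] at s1
  rw [e2] at s2
  push_cast at s3 ⊢
  linarith

private theorem exp_def (x : A) {E e2 M p w s ef t z : Nat} {b3 : Bool}
    (hE : E = (zexp (cen x.X)).1) (he2 : e2 = (zexp (cen x.X)).2.1)
    (hb3 : b3 = (zexp (cen x.X)).2.2) (hM : M = Nat.add (dmag E) e2)
    (hp : p = r40 (Nat.mul (linV x.X) (linV x.X)))
    (hw : w = r40 (Nat.mul (Nat.add (cut p) kX) 366503875925))
    (hs : s = r41 (Nat.mul (linV x.X) (Nat.add (Nat.add (linV x.X)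
      (Nat.add (quaV x.X) (quaV x.X))) (Nat.add (cut w) kX)))) (hef : ef = toF E)
    (ht : t = r40 (Nat.mul (Nat.add (dev x.X) (Nat.add (cut s) kX)) ef))
    (hz : z = Nat.add (Nat.add (Nat.shiftRight (sqN x) 41)
    (Nat.add (Nat.div (cuN x) (Nat.shiftLeft 6 80))
      (Nat.div (Nat.mul (Nat.mul (Nat.mul x.D x.D) (Nat.mul x.D x.D)) (Nat.add 4398046511104 x.D))
        (Nat.shiftLeft 24 162)))) 120) :
    x.exp = bif x.ok && b3 && Nat.ble x.D 1099511627776 && Nat.ble M 4503599627370496 &&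
      okU p && okU w && okU s && okU t then
    mU (Nat.mod (Nat.add (Nat.add (cut t) fT) ef) NN)
      (Nat.add
        (Nat.add e2 (Nat.shiftRight (Nat.mul e2 (Nat.mul 2 x.D)) 40))
        (Nat.add (Nat.shiftRight (Nat.mul M (Nat.add x.r z)) 40) 150))
      true
    else bad := by
  rw [hz, ht, hef, hs, hw, hp, hM, hb3, he2, hE]
  simp only [A.exp]

theorem Mem.exp {ε : List ℂ} (hε : Small ε) {x : A} {u : ℂ} (hx : Mem ε x u) :
    Mem ε x.exp (Complex.exp u) := by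
  intro hok
  obtain ⟨E, hE⟩ : ∃ E, E = (zexp (cen x.X)).1 := ⟨_, rfl⟩
  obtain ⟨e2, he2⟩ : ∃ e2, e2 = (zexp (cen x.X)).2.1 := ⟨_, rfl⟩
  obtain ⟨b3, hb3⟩ : ∃ b3, b3 = (zexp (cen x.X)).2.2 := ⟨_, rfl⟩
  obtain ⟨M, hM0⟩ : ∃ M, M = Nat.add (dmag E) e2 := ⟨_, rfl⟩
  obtain ⟨p, hp⟩ : ∃ p, p = r40 (Nat.mul (linV x.X) (linV x.X)) := ⟨_, rfl⟩
  obtain ⟨w, hw⟩ : ∃ w, w = r40 (Nat.mul (Nat.add (cut p) kX) 366503875925) := ⟨_, rfl⟩
  obtain ⟨s, hs⟩ : ∃ s, s = r41 (Nat.mul (linV x.X) (Nat.add (Nat.add (linV x.X)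
      (Nat.add (quaV x.X) (quaV x.X))) (Nat.add (cut w) kX))) := ⟨_, rfl⟩
  obtain ⟨ef, hef⟩ : ∃ ef, ef = toF E := ⟨_, rfl⟩
  obtain ⟨t, ht⟩ : ∃ t, t = r40 (Nat.mul (Nat.add (dev x.X) (Nat.add (cut s) kX)) ef) := ⟨_, rfl⟩
  obtain ⟨z, hz0⟩ : ∃ z, z = Nat.add (Nat.add (Nat.shiftRight (sqN x) 41)
    (Nat.add (Nat.div (cuN x) (Nat.shiftLeft 6 80))
      (Nat.div (Nat.mul (Nat.mul (Nat.mul x.D x.D) (Nat.mul x.D x.D)) (Nat.add 4398046511104 x.D))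
        (Nat.shiftLeft 24 162)))) 120 := ⟨_, rfl⟩
  have hdef := exp_def x hE he2 hb3 hM0 hp hw hs hef ht hz0
  rw [hdef] at hok ⊢
  have hb := bif_ok hok
  rw [hb, cond_true] at hok ⊢
  simp only [Bool.and_eq_true, Nat.ble_eq] at hb
  obtain ⟨⟨⟨⟨⟨⟨⟨hxok, hbt⟩, hD1⟩, hMb⟩, hop⟩, how⟩, hos⟩, hot⟩ := hb
  have hM := hx hxok
  rw [hb3] at hbt
  obtain ⟨hc1, hc2⟩ := cen_spec hM.good
  obtain ⟨hE1, hE3⟩ := Pool.Agent.helper31.IF.zexp_spec hc1 hbt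
  rw [← hE, ← he2] at hE3
  rw [← hE] at hE1
  have hbc : bz (cen x.X) 0 = toC (cd x.X 0) / 2 ^ 40 := by rw [bz_zd, hc2]
  have hm := f_dmag hE1
  have hMr : (M : ℝ) = dmag E + e2 := by rw [hM0, cadd]
  have he20 : (0 : ℝ) ≤ e2 := Nat.cast_nonneg _
  have hEM : ‖toC (zd E)‖ ≤ (M : ℝ) := by
    rw [hMr]
    linarith
  have hEM2 : ‖toC (zd E)‖ ≤ ((4503599627370496 : ℕ) : ℝ) := by
    refine hEM.trans ?_
    exact_mod_cast hMb
  have hz := f_coord hEM2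
  have hphi : ((ef : ℕ) : ZMod NN) = phi (zd E) := by
    rw [hef]
    exact toF_spec (by norm_num) hE1
  have hE4 : ‖toC (zd E) - Complex.exp (toC (cd x.X 0) / 2 ^ 40) * 2 ^ 40‖ ≤ (e2 : ℝ) := by
    have e : toC (zd E) - Complex.exp (toC (cd x.X 0) / 2 ^ 40) * 2 ^ 40 =
        (bz E 0 - Complex.exp (bz (cen x.X) 0)) * 2 ^ 40 := by
      rw [← f_bz, hbc]
      ring
    rw [e, norm_mul]
    have h3 : ‖(2 : ℂ) ^ 40‖ = 2 ^ 40 := by
      rw [norm_pow]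
      norm_num
    rw [h3, ← le_div_iff₀ (by positivity)]
    exact hE3
  obtain ⟨pa, sp, pz, vp⟩ : ∃ a, St (cut p) a ∧ (∀ k, k ∉ PQ → a k = 0) ∧
      ‖ev a ε - evL (cd x.X) ε ^ 2 / 2 ^ 40‖ ≤ 50 := by
    rw [hp] at hop ⊢
    exact sq_spec hε hM.good hop
  obtain ⟨wa, sw, wz, vw⟩ : ∃ b, St (cut w) b ∧ (∀ k, k ∉ PQ → b k = 0) ∧
      ‖ev b ε - ev pa ε * ((366503875925 : ℕ) : ℂ) / 2 ^ 40‖ ≤ 50 := by
    rw [hw] at how ⊢
    exact third_spec hε sp pz (by norm_num) how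
  obtain ⟨sa, ss, vs⟩ : ∃ b, St (cut s) b ∧
      ‖ev b ε - evL (cd x.X) ε * (evL (cd x.X) ε + 2 * evQ (cd x.X) ε + ev wa ε) / 2 ^ 41‖ ≤
        50 := by
    rw [hs] at hos ⊢
    exact cub_spec hε hM.good sw wz hos
  obtain ⟨ta, st, vt⟩ : ∃ a, St (cut t) a ∧
      ‖ev a ε - (ev (cd x.X) ε - toC (cd x.X 0) + ev sa ε) * toC (zd E) / 2 ^ 40‖ ≤ 50 := by
    rw [ht] at hot ⊢
    exact expmul_spec hε hM.good ss hphi hz (by norm_num) hot
  obtain ⟨ρ, hu, hρ, hl, hq, hR, hlq, hGD⟩ := f_data hε hM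
  rw [f_dev] at vt
  have hDK : (x.D : ℝ) ≤ 2 ^ 40 := by
    have : (x.D : ℝ) ≤ (1099511627776 : ℕ) := by exact_mod_cast hD1
    refine this.trans ?_
    norm_num
  have vw' : ‖ev wa ε - ev pa ε * 366503875925 / 2 ^ 40‖ ≤ 50 := by
    have e : ((366503875925 : ℕ) : ℂ) = 366503875925 := by norm_num
    rw [e] at vw
    exact vw
  have key := exp_core hE4 hEM hl hq hR hρ hlq hDK vp vw' vs vt
  rw [← hu] at key
  have e0 : u * 2 ^ 40 / 2 ^ 40 = u := by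
    have h40 : (2 : ℂ) ^ 40 ≠ 0 := by norm_num
    exact mul_div_cancel_right₀ _ h40
  rw [e0] at key
  have hgoal : Mem ε (mU (Nat.mod (Nat.add (Nat.add (cut t) fT) ef) NN)
      (Nat.add
        (Nat.add e2 (Nat.shiftRight (Nat.mul e2 (Nat.mul 2 x.D)) 40))
        (Nat.add (Nat.shiftRight (Nat.mul M (Nat.add x.r z)) 40) 150))
      true) (Complex.exp u) := by
    refine mem_mU (a := fun k => if k = 0 then ta 0 + zd E else ta k)
      fun _ hok => ?_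
    refine ⟨addc_spec st hphi (f_z70 hz) hok, ?_⟩
    rw [f_ev_add, add_comm (ev ta ε)]
    refine key.trans ?_
    have s1 := f_shr (Nat.mul e2 (Nat.mul 2 x.D)) 40
    have s2 := f_shr (Nat.mul M (Nat.add x.r z)) 40
    have s3 := f_shr (sqN x) 41
    have s4 := f_div (cuN x) (Nat.shiftLeft 6 80) (by norm_num [Nat.shiftLeft_eq])
    have s5 := f_div (Nat.mul (Nat.mul (Nat.mul x.D x.D) (Nat.mul x.D x.D))
      (Nat.add 4398046511104 x.D)) (Nat.shiftLeft 24 162) (by norm_num [Nat.shiftLeft_eq])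
    simp only [cmul] at s1
    simp only [cmul, cadd] at s2
    rw [csq hGD] at s3
    simp only [cshl, ccu hGD] at s4
    simp only [cmul, cadd, cshl] at s5
    have hzr : (z : ℝ) = ((Nat.shiftRight (sqN x) 41 : ℕ) : ℝ) +
        (((Nat.div (cuN x) (Nat.shiftLeft 6 80) : ℕ) : ℝ) +
        ((Nat.div (Nat.mul (Nat.mul (Nat.mul x.D x.D) (Nat.mul x.D x.D))
          (Nat.add 4398046511104 x.D)) (Nat.shiftLeft 24 162) : ℕ) : ℝ)) + 120 := by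
      rw [hz0, cadd, cadd, cadd]
      norm_num
    have e5 : (x.D : ℝ) * x.D * ((x.D : ℝ) * x.D) * (((4398046511104 : ℕ) : ℝ) + x.D) /
        (((24 : ℕ) : ℝ) * 2 ^ 162) = (x.D : ℝ) ^ 4 * (2 ^ 42 + x.D) / (24 * 2 ^ 162) := by
      push_cast
      ring
    rw [e5] at s5
    have e4 : ((6 : ℕ) : ℝ) = 6 := by norm_num
    rw [e4] at s4
    have s6 : (x.r : ℝ) + (((x.D : ℝ) ^ 2 - (x.G : ℝ) * (x.G + 2 * x.Q)) / 2 ^ 41 +
        (((x.D : ℝ) ^ 3 - (x.G : ℝ) ^ 3) / (6 * 2 ^ 80) +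
          (x.D : ℝ) ^ 4 * (2 ^ 42 + x.D) / (24 * 2 ^ 162)) + 110) ≤ (x.r : ℝ) + z := by
      rw [hzr]
      linarith
    have s7 : (M : ℝ) * ((x.r : ℝ) + (((x.D : ℝ) ^ 2 - (x.G : ℝ) * (x.G + 2 * x.Q)) / 2 ^ 41 +
        (((x.D : ℝ) ^ 3 - (x.G : ℝ) ^ 3) / (6 * 2 ^ 80) +
          (x.D : ℝ) ^ 4 * (2 ^ 42 + x.D) / (24 * 2 ^ 162)) + 110)) / 2 ^ 40 ≤
        (M : ℝ) * ((x.r : ℝ) + z) / 2 ^ 40 :=
      div_le_div_of_nonneg_right (mul_le_mul_of_nonneg_left s6 (Nat.cast_nonneg _)) (by positivity)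
    simp only [cadd]
    push_cast at s1 ⊢
    linarith
  exact hgoal hok

private theorem log_def (x : A) {l l2 u n2 U h im uf y p w s : Nat} {b3 : Bool}
    (hl : l = (zlog (cen x.X)).1) (hl2 : l2 = (zlog (cen x.X)).2.1)
    (hb3 : b3 = (zlog (cen x.X)).2.2) (hu : u = (zinv (cen x.X)).1)
    (hn : n2 = (zinv (cen x.X)).2) (hU : U = Nat.add (dmag u) 2)
    (hh : h = Nat.add (Nat.shiftRight (Nat.mul U x.D) 40) 1)
    (him : im = Nat.add (Nat.sub (fd l 1) (fd l 3)) (Nat.sub (fd l 3) (fd l 1)))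
    (huf : uf = toF u) (hy : y = r40 (Nat.mul (dev x.X) uf))
    (hp : p = r40 (Nat.mul (linV (cut y)) (linV (cut y))))
    (hw : w = r40 (Nat.mul (Nat.add (cut p) kX) 733007751851))
    (hs : s = r41 (Nat.mul (linV (cut y)) (Nat.add (Nat.add (linV (cut y))
      (Nat.add (quaV (cut y)) (quaV (cut y)))) (Nat.sub kN (cut w))))) :
    x.log = bif x.ok && b3 && Nat.ble 1099511627776 n2 && Nat.ble U 4503599627370496 &&
     Nat.ble h 549755813888 &&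
     Nat.ble (Nat.add im (Nat.add l2 (Nat.mul 2 h))) 3452466511216 && okU y && okU p && okU w &&
     okU s then
    mU (Nat.mod (Nat.add (Nat.sub (Nat.add (cut y) fD) (cut s)) (toF l)) NN)
      (Nat.add
        (Nat.add (Nat.add l2 (Nat.shiftRight (Nat.mul 8 x.D) 40))
          (Nat.shiftRight (Nat.mul U (Nat.add (Nat.shiftLeft x.r 161)
            (Nat.mul U (Nat.add (Nat.shiftLeft (sqN x) 80) (Nat.mul U (cuN x)))))) 201))
        (Nat.add (Nat.div (Nat.mul (Nat.mul h h) (Nat.mul h h))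
            (Nat.shiftLeft (Nat.sub 1099511627776 h) 82)) 600))
      true
    else bad := by
  rw [hs, hw, hp, hy, huf, him, hh, hU, hn, hu, hb3, hl2, hl]
  simp only [A.log]

theorem Mem.log {ε : List ℂ} (hε : Small ε) {x : A} {u : ℂ} (hx : Mem ε x u)
    (h : x.log.ok = true) : u ∈ slitPlane ∧ Mem ε x.log (Complex.log u) := by
  obtain ⟨l, hl0⟩ : ∃ l, l = (zlog (cen x.X)).1 := ⟨_, rfl⟩
  obtain ⟨l2, hl2⟩ : ∃ l2, l2 = (zlog (cen x.X)).2.1 := ⟨_, rfl⟩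
  obtain ⟨b3, hb3⟩ : ∃ b3, b3 = (zlog (cen x.X)).2.2 := ⟨_, rfl⟩
  obtain ⟨w, hw⟩ : ∃ w, w = (zinv (cen x.X)).1 := ⟨_, rfl⟩
  obtain ⟨n2, hn2⟩ : ∃ n2, n2 = (zinv (cen x.X)).2 := ⟨_, rfl⟩
  obtain ⟨U, hU⟩ : ∃ U, U = Nat.add (dmag w) 2 := ⟨_, rfl⟩
  obtain ⟨k, hk⟩ : ∃ k, k = Nat.add (Nat.shiftRight (Nat.mul U x.D) 40) 1 := ⟨_, rfl⟩
  obtain ⟨im, him0⟩ : ∃ im, im = Nat.add (Nat.sub (fd l 1) (fd l 3))
    (Nat.sub (fd l 3) (fd l 1)) := ⟨_, rfl⟩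
  obtain ⟨uf, huf⟩ : ∃ uf, uf = toF w := ⟨_, rfl⟩
  obtain ⟨y, hy⟩ : ∃ y, y = r40 (Nat.mul (dev x.X) uf) := ⟨_, rfl⟩
  obtain ⟨p, hp⟩ : ∃ p, p = r40 (Nat.mul (linV (cut y)) (linV (cut y))) := ⟨_, rfl⟩
  obtain ⟨w3, hw3⟩ : ∃ w3, w3 = r40 (Nat.mul (Nat.add (cut p) kX) 733007751851) := ⟨_, rfl⟩
  obtain ⟨s, hs⟩ : ∃ s, s = r41 (Nat.mul (linV (cut y)) (Nat.add (Nat.add (linV (cut y))
      (Nat.add (quaV (cut y)) (quaV (cut y)))) (Nat.sub kN (cut w3)))) := ⟨_, rfl⟩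
  have hdef := log_def x hl0 hl2 hb3 hw hn2 hU hk him0 huf hy hp hw3 hs
  rw [hdef] at h ⊢
  have hb := bif_ok h
  rw [hb, cond_true]
  simp only [Bool.and_eq_true, Nat.ble_eq] at hb
  obtain ⟨⟨⟨⟨⟨⟨⟨⟨⟨hxok, hlok⟩, hn⟩, hUb⟩, hkb⟩, hpi⟩, hoy⟩, hop⟩, how⟩, hos⟩ := hb
  have hM := hx hxok
  rw [hn2] at hn
  rw [hb3] at hlok
  obtain ⟨hc0, hw2, hwU, hcU, hU52, hU2, hUD, hk39, hphi, hz⟩ :=
    f_inv0 hM.good hw hn hU hk hUb hkb
  rw [← huf] at hphi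
  obtain ⟨hc1, hc2⟩ := cen_spec hM.good
  have hbc : bz (cen x.X) 0 = toC (cd x.X 0) / 2 ^ 40 := by rw [bz_zd, hc2]
  obtain ⟨hl1, L, hL, hl⟩ := Pool.Agent.helper31.IF.zlog_spec hc1 hlok
  rw [← hl0] at hl1 hl
  rw [← hl2, norm_sub_rev] at hl
  rw [hbc] at hL
  obtain ⟨sy, vy, vL, vN⟩ := g_dev hε hM.good hphi hz (by norm_num) hy hoy
  obtain ⟨pa, sp, pz, vp⟩ : ∃ a, St (cut p) a ∧ (∀ k, k ∉ PQ → a k = 0) ∧
      ‖ev a ε - evL (cd (cut y)) ε ^ 2 / 2 ^ 40‖ ≤ 50 := by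
    rw [hp] at hop ⊢
    exact sq_spec hε sy.good hop
  obtain ⟨wa, sw, wz, vw⟩ : ∃ b, St (cut w3) b ∧ (∀ k, k ∉ PQ → b k = 0) ∧
      ‖ev b ε - ev pa ε * ((733007751851 : ℕ) : ℂ) / 2 ^ 40‖ ≤ 50 := by
    rw [hw3] at how ⊢
    exact third_spec hε sp pz (by norm_num) how
  obtain ⟨sa, ss, vs⟩ : ∃ b, St (cut s) b ∧
      ‖ev b ε - evL (cd (cut y)) ε * (evL (cd (cut y)) ε + 2 * evQ (cd (cut y)) ε - ev wa ε) /
        2 ^ 41‖ ≤ 50 := by
    rw [hs] at hos ⊢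
    exact cubN41_spec hε sy.good sw wz hos
  obtain ⟨ρ, hu, hρ, hl', hq, hR, hlq, hGD⟩ := f_data hε hM
  have vw' : ‖ev wa ε - ev pa ε * 733007751851 / 2 ^ 40‖ ≤ 50 := by
    have e : ((733007751851 : ℕ) : ℂ) = 733007751851 := by norm_num
    rw [e] at vw
    exact vw
  have key := log_core hc0 hw2 hwU hcU hU52 hU2 hl' hq hR hρ hlq hUD hk39 vy vL vN vp vw' vs
  have hK : (0 : ℝ) < 2 ^ 40 := by positivity
  have h40 : (2 : ℂ) ^ 40 ≠ 0 := by norm_num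
  -- the value is `exp L * (1 + v)`
  obtain ⟨v, hv⟩ : ∃ v : ℂ, v = (evL (cd x.X) ε + evQ (cd x.X) ε + evT (cd x.X) ε + ρ) /
    toC (cd x.X 0) := ⟨_, rfl⟩
  rw [← hv] at key
  obtain ⟨hv2, hlog1, hkey⟩ := key
  have huv : u = Complex.exp L * (1 + v) := by
    have e1 : u * 2 ^ 40 = (Complex.exp L * (1 + v)) * 2 ^ 40 := by
      rw [hu, hL, hv]
      field_simp
    exact mul_right_cancel₀ h40 e1
  have hv1 : ‖v‖ < 1 := lt_of_le_of_lt hv2 (by norm_num)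
  have h1v0 : 1 + v ≠ 0 := by
    intro h0
    have : v = -1 := by linear_combination h0
    rw [this] at hv1
    simp at hv1
  have hexp : Complex.exp (L + Complex.log (1 + v)) = u := by
    rw [Complex.exp_add, Complex.exp_log h1v0, huv]
  have himv : (bz l 0).im = ((fd l 1 : ℝ) - fd l 3) / 2 ^ 40 := by
    unfold Pool.Agent.helper31.IB.bz
    simp only [Nat.mul_zero, Nat.zero_add, add_im, mul_im, ofReal_im, ofReal_re, I_im, I_re]
    ring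
  have him : |(bz l 0).im| ≤ (im : ℝ) / 2 ^ 40 := by
    rw [himv, abs_div, abs_of_pos hK, him0, cadd]
    gcongr
    rcases le_total (fd l 1) (fd l 3) with hcd | hcd
    · have e1 : ((Nat.sub (fd l 3) (fd l 1) : ℕ) : ℝ) = fd l 3 - fd l 1 :=
        Nat.cast_sub hcd
      have e2 : (0 : ℝ) ≤ ((Nat.sub (fd l 1) (fd l 3) : ℕ) : ℝ) := Nat.cast_nonneg _
      have e3 : (fd l 1 : ℝ) ≤ fd l 3 := by exact_mod_cast hcd
      rw [e1, abs_of_nonpos (by linarith)]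
      linarith
    · have e1 : ((Nat.sub (fd l 1) (fd l 3) : ℕ) : ℝ) = fd l 1 - fd l 3 :=
        Nat.cast_sub hcd
      have e2 : (0 : ℝ) ≤ ((Nat.sub (fd l 3) (fd l 1) : ℕ) : ℝ) := Nat.cast_nonneg _
      have e3 : (fd l 3 : ℝ) ≤ fd l 1 := by exact_mod_cast hcd
      rw [e1, abs_of_nonneg (by linarith)]
      linarith
  have hpi' : (im : ℝ) + ((l2 : ℝ) + 2 * k) ≤ 3.14 * 2 ^ 40 := by
    have : ((Nat.add im (Nat.add l2 (Nat.mul 2 k)) : ℕ) : ℝ) ≤ (3452466511216 : ℕ) := by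
      exact_mod_cast hpi
    simp only [cadd, cmul] at this
    push_cast at this
    refine this.trans ?_
    norm_num
  have himL : |(L + Complex.log (1 + v)).im| ≤ 3.14 := by
    have e1 : (L + Complex.log (1 + v)).im =
        (bz l 0).im + (L - bz l 0).im + (Complex.log (1 + v)).im := by
      simp
    rw [e1]
    have t1 : |(L - bz l 0).im| ≤ (l2 : ℝ) / 2 ^ 40 := (Complex.abs_im_le_norm _).trans hl
    have t2 : |(Complex.log (1 + v)).im| ≤ 2 * (k : ℝ) / 2 ^ 40 :=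
      (Complex.abs_im_le_norm _).trans hlog1
    have t3 : (im : ℝ) / 2 ^ 40 + (l2 : ℝ) / 2 ^ 40 + 2 * (k : ℝ) / 2 ^ 40 ≤ 3.14 := by
      have : (im : ℝ) / 2 ^ 40 + (l2 : ℝ) / 2 ^ 40 + 2 * (k : ℝ) / 2 ^ 40 =
          ((im : ℝ) + ((l2 : ℝ) + 2 * k)) / 2 ^ 40 := by ring
      rw [this, div_le_iff₀ hK]
      exact hpi'
    calc |(bz l 0).im + (L - bz l 0).im + (Complex.log (1 + v)).im|
        ≤ |(bz l 0).im| + |(L - bz l 0).im| + |(Complex.log (1 + v)).im| := by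
          refine (abs_add_le _ _).trans (add_le_add ?_ le_rfl)
          exact abs_add_le _ _
      _ ≤ 3.14 := by linarith
  have hpi3 : (3.14 : ℝ) < Real.pi := Real.pi_gt_d2
  have himb := abs_le.mp himL
  have hlog : Complex.log u = L + Complex.log (1 + v) := by
    rw [← hexp]
    exact Complex.log_exp (by linarith) (by linarith)
  have hu0 : u ≠ 0 := by
    rw [huv]
    exact mul_ne_zero (Complex.exp_ne_zero _) h1v0
  refine ⟨?_, ?_⟩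
  · rw [Complex.mem_slitPlane_iff_arg]
    refine ⟨?_, hu0⟩
    have : Complex.arg u = (Complex.log u).im := by
      rw [Complex.log_im]
    rw [this, hlog]
    intro hh3
    linarith
  · have hphil : ((toF l : ℕ) : ZMod NN) = phi (zd l) := toF_spec (by norm_num) hl1
    have hzl : |(zd l).re| ≤ 2 ^ 70 ∧ |(zd l).im| ≤ 2 ^ 70 := by
      have h1 := zd_bound hl1
      have e : (((2 : ℕ) ^ 63 : ℕ) : ℤ) ≤ 2 ^ 70 := by norm_num
      exact ⟨h1.1.le.trans e, h1.2.le.trans e⟩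
    refine mem_mU (a := fun k => if k = 0 then cd (cut y) 0 - sa 0 + zd l
      else cd (cut y) k - sa k) fun _ hok => ?_
    refine ⟨subc_spec sy ss hphil hzl hok, ?_⟩
    have e0 : ev (fun k => if k = 0 then cd (cut y) 0 - sa 0 + zd l
        else cd (cut y) k - sa k) ε = ev (cd (cut y)) ε - ev sa ε + toC (zd l) := by
      rw [← ev_sub]
      exact f_ev_add (zd l) (fun k => cd (cut y) k - sa k) ε
    have e1 : Complex.log u * 2 ^ 40 - (ev (cd (cut y)) ε - ev sa ε + toC (zd l)) =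
        (L - bz l 0) * 2 ^ 40 +
          (Complex.log (1 + v) * 2 ^ 40 - (ev (cd (cut y)) ε - ev sa ε)) := by
      rw [hlog, ← f_bz]
      ring
    have h3 : ‖(2 : ℂ) ^ 40‖ = 2 ^ 40 := by
      rw [norm_pow]
      norm_num
    have b1 : ‖(L - bz l 0) * 2 ^ 40‖ ≤ (l2 : ℝ) := by
      rw [norm_mul, h3, ← le_div_iff₀ (by positivity)]
      exact hl
    rw [e0, e1]
    refine (norm_add_le_of_le b1 hkey).trans ?_
    have s1 := f_shr (Nat.mul 8 x.D) 40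
    have s2 := f_shr (Nat.mul U (Nat.add (Nat.shiftLeft x.r 161)
            (Nat.mul U (Nat.add (Nat.shiftLeft (sqN x) 80) (Nat.mul U (cuN x)))))) 201
    have s3 := f_div (Nat.mul (Nat.mul k k) (Nat.mul k k)) _ (f_spos hk39 82)
    simp only [cmul] at s1
    simp only [cmul, cadd, cshl, csq hGD, ccu hGD] at s2
    simp only [cmul, cshl, c_sub hk39] at s3
    simp only [cadd]
    have e2 : (U : ℝ) * ((x.r : ℝ) * 2 ^ 161 + U * (((x.D : ℝ) ^ 2 - (x.G : ℝ) *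
          (x.G + 2 * x.Q)) * 2 ^ 80 + U * ((x.D : ℝ) ^ 3 - (x.G : ℝ) ^ 3))) / 2 ^ 201 =
        (U : ℝ) * (2 ^ 161 * (x.r : ℝ) + U * (2 ^ 80 * ((x.D : ℝ) ^ 2 - (x.G : ℝ) *
          (x.G + 2 * x.Q)) + U * ((x.D : ℝ) ^ 3 - (x.G : ℝ) ^ 3))) / 2 ^ 201 := by ring
    have e3 : (k : ℝ) * k * ((k : ℝ) * k) / ((2 ^ 40 - (k : ℝ)) * 2 ^ 82) =
        (k : ℝ) ^ 4 / (2 ^ 82 * (2 ^ 40 - (k : ℝ))) := by
      rw [mul_comm ((2 : ℝ) ^ 40 - (k : ℝ))]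
      ring
    rw [e2] at s2
    rw [e3] at s3
    push_cast at s1 ⊢
    linarith

end Pool.Agent.helper14.CF
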