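import Pool.Agent.helper14.CF.Defs
import Pool.Agent.helper31.IX.Eng

/-!
# CF: operations of the third order engine modulo a Fermat number
-/

namespace Pool.Agent.helper14.CF

open Complex
open Pool.Agent.helper31.IA (Z Small get RealL InBox)
open Pool.Agent.helper31.IC (Ops Laws)
open Pool.Agent.helper31.IX (XOps)

def opsF : Ops where
  α := A
  cst := A.const
  add := A.add
  sub := A.sub
  mul := A.mul
  scale := fun z x => A.scale z x
  neg := A.neg
  inv := A.inv
  exp := A.exp
  log := A.log
  ok := fun x => x.ok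
  isPos := fun n x => A.isPos n x
  isLt := A.isLt
  bad := ⟨0, 0, 0, 0, 0, 0, false⟩
  models := fun b n => models b 0 n

def okF (box : List (Nat × Nat)) (nd : Nat) : Bool := Nat.ble (Nat.add box.length nd) 4

def ballA (B : Nat) (x : A) : A := ⟨x.X, x.m, x.G, x.Q, Nat.add x.D B, Nat.add x.r B, x.ok⟩

def rballA (x y : A) : A :=
  let B := Nat.add y.m y.D
  ⟨x.X, x.m, x.G, x.Q, Nat.add x.D B, Nat.add x.r B, x.ok && y.ok⟩

def xC : XOps := ⟨opsF, ballA, rballA⟩

end Pool.Agent.helper14.CF
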