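import Pool.Agent.helper14.CF.Fun
import Pool.Agent.helper14.CF.Ops
import Pool.Agent.helper31.IX.Eng

/-!
# CF-6: the engine as an instance of the abstract engine
-/

namespace Pool.Agent.helper14.CF

open Complex
open Pool.Agent.helper31.IA (Z Op Small get RealL InBox)
open Pool.Agent.helper31.IC (Ops Laws)

/-- the noise symbols of a point of a box -/
private noncomputable def noise : List (Nat × Nat) → List ℝ → List ℂ
  | [], _ => []
  | _ :: _, [] => []
  | b :: bs, t :: ts =>
      (((t - (b.1 : ℝ) / 2 ^ 40) / ((b.2 : ℝ) / 2 ^ 40) : ℝ) : ℂ) :: noise bs ts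

private theorem n_noise_eq {b : Nat × Nat} {t : ℝ}
    (h : |t - (b.1 : ℝ) / 2 ^ 40| ≤ (b.2 : ℝ) / 2 ^ 40) :
    t = (b.1 : ℝ) / 2 ^ 40 + (b.2 : ℝ) / 2 ^ 40 *
      ((t - (b.1 : ℝ) / 2 ^ 40) / ((b.2 : ℝ) / 2 ^ 40)) := by
  rcases eq_or_ne ((b.2 : ℝ) / 2 ^ 40) 0 with h0 | h0
  · rw [h0] at h ⊢
    have := abs_nonpos_iff.1 h
    rw [zero_mul, add_zero]
    linarith
  · rw [mul_div_cancel₀ _ h0]
    ring

private theorem n_noise_le {b : Nat × Nat} {t : ℝ}
    (h : |t - (b.1 : ℝ) / 2 ^ 40| ≤ (b.2 : ℝ) / 2 ^ 40) :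
    ‖(((t - (b.1 : ℝ) / 2 ^ 40) / ((b.2 : ℝ) / 2 ^ 40) : ℝ) : ℂ)‖ ≤ 1 := by
  rw [Complex.norm_real, Real.norm_eq_abs, abs_div,
    abs_of_nonneg (by positivity : (0 : ℝ) ≤ (b.2 : ℝ) / 2 ^ 40)]
  exact div_le_one_of_le₀ h (by positivity)

private theorem n_noise_small {box : List (Nat × Nat)} {u : List ℝ} (h : InBox box u) :
    Small (noise box u) := by
  unfold InBox at h
  induction h with
  | nil =>
    intro z hz
    simp [noise] at hz
  | cons hbt _ ih =>
    intro z hz
    simp only [noise, List.mem_cons] at hz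
    rcases hz with rfl | hz
    · exact n_noise_le hbt
    · exact ih z hz

private theorem n_noise_real {box : List (Nat × Nat)} {u : List ℝ} (h : InBox box u)
    (x : List ℂ) : RealL box.length (noise box u ++ x) := by
  unfold InBox at h
  induction h with
  | nil =>
    intro i hi
    exact absurd hi (Nat.not_lt_zero i)
  | cons hbt _ ih =>
    intro i hi
    cases i with
    | zero =>
      simp only [noise, List.cons_append, Pool.Agent.helper31.IA.get]
      exact ofReal_im _
    | succ n =>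
      simp only [noise, List.cons_append, Pool.Agent.helper31.IA.get]
      exact ih n (by simpa using hi)

private theorem n_get_append (pre : List ℂ) (e : ℂ) (rest : List ℂ) :
    get (pre ++ e :: rest) pre.length = e := by
  induction pre with
  | nil => rfl
  | cons a l ih => exact ih

private theorem n_models_disc : ∀ (x pre : List ℂ), pre.length + x.length ≤ 4 →
    List.Forall₂ (Mem (pre ++ x)) (discs x.length pre.length) x
  | [], _, _ => List.Forall₂.nil
  | e :: es, pre, hl => by
    have hl' : pre.length + (es.length + 1) ≤ 4 := hl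
    have ih := n_models_disc es (pre ++ [e]) (by
      rw [List.length_append, List.length_singleton]
      omega)
    rw [List.append_assoc, List.singleton_append, List.length_append, List.length_singleton] at ih
    refine List.Forall₂.cons ?_ ih
    have h1 := mem_disc (j := pre.length) (by omega) (pre ++ e :: es)
    rw [n_get_append] at h1
    exact h1

private theorem n_models (x : List ℂ) {box : List (Nat × Nat)} {u : List ℝ} (h : InBox box u) :
    ∀ pre : List ℂ, pre.length + (box.length + x.length) ≤ 4 →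
      List.Forall₂ (Mem (pre ++ (noise box u ++ x))) (models box pre.length x.length)
      (u.map (fun t : ℝ => (t : ℂ)) ++ x) := by
  unfold InBox at h
  induction h with
  | nil =>
    intro pre hl
    exact n_models_disc x pre (by simpa using hl)
  | @cons b t bs ts hbt _ ih =>
    intro pre hl
    have hl' : pre.length + ((bs.length + 1) + x.length) ≤ 4 := hl
    have ih' := ih (pre ++ [(((t - (b.1 : ℝ) / 2 ^ 40) / ((b.2 : ℝ) / 2 ^ 40) : ℝ) : ℂ)]) (by
      rw [List.length_append, List.length_singleton]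
      omega)
    rw [List.append_assoc, List.singleton_append, List.length_append, List.length_singleton] at ih'
    refine List.Forall₂.cons ?_ ih'
    refine mem_var (j := pre.length) (by omega) ?_
    simp only [noise, List.cons_append]
    rw [n_get_append, ← ofReal_mul, ← ofReal_add, ← n_noise_eq hbt]

/-- `ε = (u - c)/h` (`0` if `h = 0`) for the reals, then `x` (see `IB/Inst.lean`) -/
theorem models_sound (box : List (Nat × Nat)) (nd : Nat) (u : List ℝ) (x : List ℂ)
    (h : okF box nd = true) (hu : InBox box u) (hx : x.length = nd) (h1 : ∀ z ∈ x, ‖z‖ ≤ 1) :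
    ∃ ε : List ℂ, Small ε ∧ RealL box.length ε ∧
      List.Forall₂ (Mem ε) (models box 0 nd) (u.map (fun t : ℝ => (t : ℂ)) ++ x) := by
  subst hx
  have hl : box.length + x.length ≤ 4 := Nat.le_of_ble_eq_true h
  refine ⟨noise box u ++ x, ?_, n_noise_real hu x, ?_⟩
  · intro z hz
    rcases List.mem_append.1 hz with hz | hz
    · exact n_noise_small hu z hz
    · exact h1 z hz
  · have h2 := n_models x hu [] (by simpa using hl)
    rw [List.nil_append, List.length_nil] at h2
    exact h2

/-- the laws; every field is one of the theorems of `CF/Model.lean`, `CF/Fun.lean` -/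
theorem lawsF_mem : ∃ L : Laws opsF, L.Mem = Mem ∧ L.okBox = okF := by
  refine ⟨{
    Mem := Mem
    cst := fun {ε} _ z _ => Mem.const ε z
    add := fun {ε} _ {x y u v} hx hy _ => Mem.add hx hy
    sub := fun {ε} _ {x y u v} hx hy _ => Mem.sub hx hy
    mul := fun {ε} hε {x y u v} hx hy _ => Mem.mul hε hx hy
    scale := fun {ε} hε z {x u} hx _ => Mem.scale hε z hx
    neg := fun {ε} _ {x u} hx _ => Mem.neg hx
    inv := fun {ε} hε {x u} hx h => Mem.inv hε hx h
    exp := fun {ε} hε {x u} hx _ => Mem.exp hε hx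
    log := fun {ε} hε {x u} hx h => Mem.log hε hx h
    isPos := fun {nr ε} hε hr {x u} hx h => isPos_sound hε hr hx h
    isLt := fun {ε} hε {x u B} hx h => isLt_sound hε hx h
    bad := fun ε z hok => by simp [opsF] at hok
    okBox := okF
    models := ?_ }, rfl, rfl⟩
  intro box nd u x hb hu hx h1
  exact models_sound box nd u x hb hu hx h1

/-! ### balls -/

open Pool.Agent.helper31.IX (XOps XLaws runX Cov CovD cov_of_verify covD_of_verify)

private theorem add_ball {ε : List ℂ} {x : A} {u v : ℂ} {B : Nat} {b : Bool} (hx : MemC ε x u)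
    (h : ‖v - u‖ ≤ (B : ℝ) / 2 ^ 40) :
    MemC ε ⟨x.X, x.m, x.G, x.Q, Nat.add x.D B, Nat.add x.r B, b⟩ v := by
  have h2 : ((Nat.add x.D B : ℕ) : ℝ) = (x.D : ℝ) + B := Nat.cast_add _ _
  have h3 : ((Nat.add x.r B : ℕ) : ℝ) = (x.r : ℝ) + B := Nat.cast_add _ _
  refine ⟨hx.good, hx.cenb, hx.linb, hx.quab, ?_, ?_⟩
  · have h1 := hx.dev
    show _ + ((Nat.add x.r B : ℕ) : ℝ) ≤ ((Nat.add x.D B : ℕ) : ℝ)
    rw [h2, h3]
    linarith
  · have h1 := hx.mem
    show ‖v * 2 ^ 40 - ev (cd x.X) ε‖ ≤ ((Nat.add x.r B : ℕ) : ℝ)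
    rw [h3]
    have h4 : v * 2 ^ 40 - ev (cd x.X) ε = (u * 2 ^ 40 - ev (cd x.X) ε) + (v - u) * 2 ^ 40 := by
      ring
    have h5 : ‖(v - u) * 2 ^ 40‖ ≤ (B : ℝ) := by
      rw [norm_mul]
      have h6 : ‖(2 : ℂ) ^ 40‖ = 2 ^ 40 := by simp
      rw [h6, ← le_div_iff₀ (by positivity)]
      exact h
    rw [h4]
    exact (norm_add_le _ _).trans (add_le_add h1 h5)

theorem norm_le {ε : List ℂ} (hε : Small ε) {y : A} {w : ℂ} (hy : MemC ε y w) :
    ‖w‖ ≤ ((Nat.add y.m y.D : ℕ) : ℝ) / 2 ^ 40 := by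
  obtain ⟨ρ, hz, -, hG, hQ, hD, -⟩ := hy.split hε
  have hm := hy.cenb
  have h5 : ((Nat.add y.m y.D : ℕ) : ℝ) = (y.m : ℝ) + y.D := Nat.cast_add _ _
  have h6 : ‖(2 : ℂ) ^ 40‖ = 2 ^ 40 := by simp
  rw [h5, le_div_iff₀ (by positivity)]
  have h7 : ‖w‖ * 2 ^ 40 = ‖w * 2 ^ 40‖ := by rw [norm_mul, h6]
  rw [h7, hz]
  have h8 := norm_add_le (evL (cd y.X) ε) (evQ (cd y.X) ε + (evT (cd y.X) ε + ρ))
  have h9 := norm_add_le (toC (cd y.X 0)) (evL (cd y.X) ε + (evQ (cd y.X) ε +
    (evT (cd y.X) ε + ρ)))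
  have h10 := norm_add_le (evQ (cd y.X) ε) (evT (cd y.X) ε + ρ)
  linarith

theorem xlaws : ∃ XL : XLaws xC, XL.L.okBox = okF := by
  obtain ⟨L, hM, hok⟩ := lawsF_mem
  refine ⟨⟨L, ?_, ?_⟩, hok⟩
  · intro ε hε x u v B hx h _
    rw [hM] at hx ⊢
    intro hok'
    exact add_ball (hx hok') h
  · intro ε hε x y u v w hx hy h _
    rw [hM] at hx hy ⊢
    intro hok'
    have hok2 : (x.ok && y.ok) = true := hok'
    rw [Bool.and_eq_true] at hok2
    exact add_ball (hx hok2.1) (h.trans (norm_le hε (hy hok2.2)))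

theorem cov_C {nr nd : Nat} {ops : List Pool.Agent.helper31.IX.Op} {chk : List A → Bool}
    (hchk : ∀ m, chk m = true → runX xC nr ops m = true) (t : Pool.Agent.helper31.IA.T)
    (box : List (Nat × Nat)) (hb : box.length = nr)
    (h : Pool.Agent.helper31.IC.verifyG opsF okF nd chk t box = true) : Cov nd ops box := by
  obtain ⟨XL, hok⟩ := xlaws
  refine cov_of_verify XL hchk t box hb ?_
  rw [hok]
  exact h

theorem covD_C {nr nd : Nat} {progs : List (List Pool.Agent.helper31.IX.Op)} {chks : List (List A → Bool)}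
    (hchk : List.Forall₂ (fun (ops : List Pool.Agent.helper31.IX.Op) (chk : List A → Bool) =>
      ∀ m, chk m = true → runX xC nr ops m = true) progs chks) (t : Pool.Agent.helper31.IC.TD)
    (box : List (Nat × Nat)) (hb : box.length = nr)
    (h : Pool.Agent.helper31.IC.verifyD opsF okF nd chks t box = true) : CovD nd progs box := by
  obtain ⟨XL, hok⟩ := xlaws
  refine covD_of_verify XL hchk t box hb ?_
  rw [hok]
  exact h

end Pool.Agent.helper14.CF
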