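import Pool.Agent.helper14.CF.Inst

/-!
# CF with a sharper radius in `rball`

The engine `CF` bounds the norm of the centre of the radius by an octagon norm (up to `8.2` per cent
too large); here one Newton step `(m + s / m) / 2` is applied to it, `s` the square of the norm
(at most `0.4` per cent too large).
-/

namespace Pool.Agent.helper14.CF

open Complex
open Pool.Agent.helper31.IA (Z Small get RealL InBox)
open Pool.Agent.helper31.IB (fd)
open Pool.Agent.helper31.IC (Ops Laws)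
open Pool.Agent.helper31.IX (XOps XLaws runX Cov CovD cov_of_verify covD_of_verify)

/-- bound of the norm of the centre -/
def nE (y : A) : Nat :=
  let c := cen y.X
  let p := Nat.add (fd c 0) (fd c 2)
  let q := Nat.add (fd c 1) (fd c 3)
  Nat.add (Nat.shiftRight (Nat.add y.m (Nat.div (Nat.add (Nat.mul p p) (Nat.mul q q)) y.m)) 1) 2

def rballE (x y : A) : A :=
  let B := Nat.add (nE y) y.D
  ⟨x.X, x.m, x.G, x.Q, Nat.add x.D B, Nat.add x.r B, x.ok && y.ok⟩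

def xE : XOps := ⟨opsF, ballA, rballE⟩

/-- one Newton step -/
theorem newton_le {n : ℝ} {m s : ℕ} (hm : n ≤ m) (hs : n ^ 2 ≤ s) :
    n ≤ ((((m + s / m) / 2 + 2 : ℕ)) : ℝ) := by
  rcases Nat.eq_zero_or_pos m with h0 | h0
  · subst h0
    have h1 : n ≤ 0 := by simpa using hm
    exact h1.trans (Nat.cast_nonneg _)
  have hm0 : (0 : ℝ) < m := by exact_mod_cast h0
  have h1 : (s : ℝ) < ((s / m : ℕ) + 1 : ℝ) * m := by
    have h := Nat.lt_div_mul_add (a := s) h0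
    have h' : s < (s / m + 1) * m := by
      rw [add_mul, one_mul]
      exact h
    exact_mod_cast h'
  have h2 : ((m + s / m : ℕ) : ℝ) ≤ 2 * (((m + s / m) / 2 : ℕ) : ℝ) + 1 := by
    have h : m + s / m ≤ 2 * ((m + s / m) / 2) + 1 := by omega
    exact_mod_cast h
  push_cast at h2 ⊢
  have h3 : 2 * n * m ≤ (m : ℝ) ^ 2 + s := by nlinarith [sq_nonneg (n - m)]
  have h4 : 2 * n * m < ((m : ℝ) + ((s / m : ℕ) : ℝ) + 1) * m := by nlinarith
  have h5 : 2 * n < (m : ℝ) + ((s / m : ℕ) : ℝ) + 1 := lt_of_mul_lt_mul_right h4 hm0.le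
  linarith

private theorem normSq_e (z : GaussianInt) : ‖toC z‖ ^ 2 = (z.re : ℝ) ^ 2 + (z.im : ℝ) ^ 2 := by
  rw [← Complex.normSq_eq_norm_sq, Complex.normSq_apply, GaussianInt.intCast_re,
    GaussianInt.intCast_im]
  ring

theorem cen_le_nE {ε : List ℂ} {y : A} {w : ℂ} (hy : MemC ε y w) :
    ‖toC (cd y.X 0)‖ ≤ ((nE y : ℕ) : ℝ) := by
  obtain ⟨hone, hzd⟩ := cen_spec hy.good
  have hp : ∀ a b : Nat, (((a : ℤ) - b : ℤ) : ℝ) ^ 2 ≤ ((a + b : Nat) : ℝ) ^ 2 := by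
    intro a b
    push_cast
    have ha : (0 : ℝ) ≤ a := Nat.cast_nonneg _
    have hb : (0 : ℝ) ≤ b := Nat.cast_nonneg _
    nlinarith [mul_nonneg ha hb]
  have hs : ‖toC (cd y.X 0)‖ ^ 2 ≤
      (((fd (cen y.X) 0 + fd (cen y.X) 2) * (fd (cen y.X) 0 + fd (cen y.X) 2) +
        (fd (cen y.X) 1 + fd (cen y.X) 3) * (fd (cen y.X) 1 + fd (cen y.X) 3) : ℕ) : ℝ) := by
    rw [← hzd, normSq_e]
    have a1 := hp (fd (cen y.X) 0) (fd (cen y.X) 2)
    have a2 := hp (fd (cen y.X) 1) (fd (cen y.X) 3)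
    have e1 : (zd (cen y.X)).re = (fd (cen y.X) 0 : ℤ) - fd (cen y.X) 2 := rfl
    have e2 : (zd (cen y.X)).im = (fd (cen y.X) 1 : ℤ) - fd (cen y.X) 3 := rfl
    rw [e1, e2]
    push_cast at a1 a2 ⊢
    nlinarith
  have h := newton_le hy.cenb hs
  have e : nE y = (y.m + ((fd (cen y.X) 0 + fd (cen y.X) 2) * (fd (cen y.X) 0 + fd (cen y.X) 2) +
        (fd (cen y.X) 1 + fd (cen y.X) 3) * (fd (cen y.X) 1 + fd (cen y.X) 3)) / y.m) / 2 + 2 := by
    show Nat.shiftRight _ 1 + 2 = _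
    have h6 : ∀ a : ℕ, Nat.shiftRight a 1 = a / 2 := fun a => Nat.shiftRight_eq_div_pow a 1
    rw [h6]
    rfl
  rw [e]
  exact h

theorem norm_leE {ε : List ℂ} (hε : Small ε) {y : A} {w : ℂ} (hy : MemC ε y w) :
    ‖w‖ ≤ ((Nat.add (nE y) y.D : ℕ) : ℝ) / 2 ^ 40 := by
  obtain ⟨ρ, hz, -, hG, hQ, hD, -⟩ := hy.split hε
  have hm := cen_le_nE hy
  have h5 : ((Nat.add (nE y) y.D : ℕ) : ℝ) = (nE y : ℝ) + y.D := Nat.cast_add _ _
  have h6 : ‖(2 : ℂ) ^ 40‖ = 2 ^ 40 := by simp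
  rw [h5, le_div_iff₀ (by positivity)]
  have h7 : ‖w‖ * 2 ^ 40 = ‖w * 2 ^ 40‖ := by rw [norm_mul, h6]
  rw [h7, hz]
  have h8 := norm_add_le (evL (cd y.X) ε) (evQ (cd y.X) ε + (evT (cd y.X) ε + ρ))
  have h9 := norm_add_le (toC (cd y.X 0)) (evL (cd y.X) ε + (evQ (cd y.X) ε +
    (evT (cd y.X) ε + ρ)))
  have h10 := norm_add_le (evQ (cd y.X) ε) (evT (cd y.X) ε + ρ)
  linarith

private theorem add_ballE {ε : List ℂ} {x : A} {u v : ℂ} {B : Nat} {b : Bool} (hx : MemC ε x u)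
    (h : ‖v - u‖ ≤ (B : ℝ) / 2 ^ 40) :
    MemC ε ⟨x.X, x.m, x.G, x.Q, Nat.add x.D B, Nat.add x.r B, b⟩ v := by
  have h2 : ((Nat.add x.D B : ℕ) : ℝ) = (x.D : ℝ) + B := Nat.cast_add _ _
  have h3 : ((Nat.add x.r B : ℕ) : ℝ) = (x.r : ℝ) + B := Nat.cast_add _ _
  refine ⟨hx.good, hx.cenb, hx.linb, hx.quab, ?_, ?_⟩
  · have h1 := hx.dev
    show _ + ((Nat.add x.r B : ℕ) : ℝ) ≤ ((Nat.add x.D B : ℕ) : ℝ)
    rw [h2, h3]
    linarith
  · have h1 := hx.mem
    show ‖v * 2 ^ 40 - ev (cd x.X) ε‖ ≤ ((Nat.add x.r B : ℕ) : ℝ)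
    rw [h3]
    have h4 : v * 2 ^ 40 - ev (cd x.X) ε = (u * 2 ^ 40 - ev (cd x.X) ε) + (v - u) * 2 ^ 40 := by
      ring
    have h5 : ‖(v - u) * 2 ^ 40‖ ≤ (B : ℝ) := by
      rw [norm_mul]
      have h6 : ‖(2 : ℂ) ^ 40‖ = 2 ^ 40 := by simp
      rw [h6, ← le_div_iff₀ (by positivity)]
      exact h
    rw [h4]
    exact (norm_add_le _ _).trans (add_le_add h1 h5)

theorem xlawsE : ∃ XL : XLaws xE, XL.L.okBox = okF := by
  obtain ⟨L, hM, hok⟩ := lawsF_mem
  refine ⟨⟨L, ?_, ?_⟩, hok⟩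
  · intro ε hε x u v B hx h _
    rw [hM] at hx ⊢
    intro hok'
    exact add_ballE (hx hok') h
  · intro ε hε x y u v w hx hy h _
    rw [hM] at hx hy ⊢
    intro hok'
    have hok2 : (x.ok && y.ok) = true := hok'
    rw [Bool.and_eq_true] at hok2
    exact add_ballE (hx hok2.1) (h.trans (norm_leE hε (hy hok2.2)))

theorem cov_E {nr nd : Nat} {ops : List Pool.Agent.helper31.IX.Op} {chk : List A → Bool}
    (hchk : ∀ m, chk m = true → runX xE nr ops m = true) (t : Pool.Agent.helper31.IA.T)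
    (box : List (Nat × Nat)) (hb : box.length = nr)
    (h : Pool.Agent.helper31.IC.verifyG opsF okF nd chk t box = true) : Cov nd ops box := by
  obtain ⟨XL, hok⟩ := xlawsE
  refine cov_of_verify XL hchk t box hb ?_
  rw [hok]
  exact h

theorem covD_E {nr nd : Nat} {progs : List (List Pool.Agent.helper31.IX.Op)} {chks : List (List A → Bool)}
    (hchk : List.Forall₂ (fun (ops : List Pool.Agent.helper31.IX.Op) (chk : List A → Bool) =>
      ∀ m, chk m = true → runX xE nr ops m = true) progs chks) (t : Pool.Agent.helper31.IC.TD)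
    (box : List (Nat × Nat)) (hb : box.length = nr)
    (h : Pool.Agent.helper31.IC.verifyD opsF okF nd chks t box = true) : CovD nd progs box := by
  obtain ⟨XL, hok⟩ := xlawsE
  refine covD_of_verify XL hchk t box hb ?_
  rw [hok]
  exact h

end Pool.Agent.helper14.CF
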