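import Pool.Agent.helper14.CF.Rep
import Pool.Agent.helper31.IA.Run

/-!
# CF-4: third order models, ring operations and comparisons

All bounds are in units `2^(-40)`: `ev (cd x.X) ε` is `2^40` times the polynomial part.
A product with floors loses at most `√2` units at each of the `35` positions, `50` units together.
Template: `QF/Model.lean` (second order, five symbols).
-/

namespace Pool.Agent.helper14.CF

open Complex
open Pool.Agent.helper31.IA (Z Small get RealL)
open Pool.Agent.helper31.IB (fd One bz mg ofZ)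

noncomputable abbrev toC : GaussianInt →+* ℂ := GaussianInt.toComplex

/-- monomial of a position -/
noncomputable def mono (ε : List ℂ) (k : Nat) : ℂ :=
  if k = 0 then 1 else
  if k = 1 then get ε 0 else
  if k = 15 then get ε 1 else
  if k = 18 then get ε 2 else
  if k = 23 then get ε 3 else
  if k = 2 then get ε 0 * get ε 0 else
  if k = 16 then get ε 0 * get ε 1 else
  if k = 19 then get ε 0 * get ε 2 else
  if k = 24 then get ε 0 * get ε 3 else
  if k = 30 then get ε 1 * get ε 1 else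
  if k = 33 then get ε 1 * get ε 2 else
  if k = 38 then get ε 1 * get ε 3 else
  if k = 36 then get ε 2 * get ε 2 else
  if k = 41 then get ε 2 * get ε 3 else
  if k = 46 then get ε 3 * get ε 3 else
  if k = 3 then get ε 0 * get ε 0 * get ε 0 else
  if k = 17 then get ε 0 * get ε 0 * get ε 1 else
  if k = 20 then get ε 0 * get ε 0 * get ε 2 else
  if k = 25 then get ε 0 * get ε 0 * get ε 3 else
  if k = 31 then get ε 0 * get ε 1 * get ε 1 else
  if k = 34 then get ε 0 * get ε 1 * get ε 2 else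
  if k = 39 then get ε 0 * get ε 1 * get ε 3 else
  if k = 37 then get ε 0 * get ε 2 * get ε 2 else
  if k = 42 then get ε 0 * get ε 2 * get ε 3 else
  if k = 47 then get ε 0 * get ε 3 * get ε 3 else
  if k = 45 then get ε 1 * get ε 1 * get ε 1 else
  if k = 48 then get ε 1 * get ε 1 * get ε 2 else
  if k = 53 then get ε 1 * get ε 1 * get ε 3 else
  if k = 51 then get ε 1 * get ε 2 * get ε 2 else
  if k = 56 then get ε 1 * get ε 2 * get ε 3 else
  if k = 61 then get ε 1 * get ε 3 * get ε 3 else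
  if k = 54 then get ε 2 * get ε 2 * get ε 2 else
  if k = 59 then get ε 2 * get ε 2 * get ε 3 else
  if k = 64 then get ε 2 * get ε 3 * get ε 3 else
  if k = 69 then get ε 3 * get ε 3 * get ε 3 else 0

/-- value of the polynomial with the coefficients `a` -/
noncomputable def ev (a : Nat → GaussianInt) (ε : List ℂ) : ℂ :=
  ∑ k ∈ Finset.range 70, toC (a k) * mono ε k

/-- part at the positions of a list -/
noncomputable def evl (l : List Nat) (a : Nat → GaussianInt) (ε : List ℂ) : ℂ :=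
  (l.map fun k => toC (a k) * mono ε k).sum

/-- linear, quadratic, cubic part -/
noncomputable abbrev evL (a : Nat → GaussianInt) (ε : List ℂ) : ℂ := evl PL a ε

noncomputable abbrev evQ (a : Nat → GaussianInt) (ε : List ℂ) : ℂ := evl PQ a ε

noncomputable abbrev evT (a : Nat → GaussianInt) (ε : List ℂ) : ℂ := evl PT a ε

theorem get_small {ε : List ℂ} (hε : Small ε) (i : Nat) : ‖get ε i‖ ≤ 1 := by
  induction ε generalizing i with
  | nil =>
    show ‖(0 : ℂ)‖ ≤ 1
    simp
  | cons a t ih =>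
    cases i with
    | zero => exact hε a (List.mem_cons_self ..)
    | succ n => exact ih (fun z hz => hε z (List.mem_cons_of_mem _ hz)) n

private theorem ite_small {p : Prop} [Decidable p] {x y : ℂ} (h1 : ‖x‖ ≤ 1) (h2 : ‖y‖ ≤ 1) :
    ‖if p then x else y‖ ≤ 1 := by
  split_ifs
  · exact h1
  · exact h2

theorem mono_small {ε : List ℂ} (hε : Small ε) (k : Nat) : ‖mono ε k‖ ≤ 1 := by
  have h : ∀ a b : Nat, ‖get ε a * get ε b‖ ≤ 1 := by
    intro a b
    rw [norm_mul]
    exact mul_le_one₀ (get_small hε a) (norm_nonneg _) (get_small hε b)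
  have h3 : ∀ a b c : Nat, ‖get ε a * get ε b * get ε c‖ ≤ 1 := by
    intro a b c
    rw [norm_mul]
    exact mul_le_one₀ (h a b) (norm_nonneg _) (get_small hε c)
  unfold mono
  have h1 : ‖(1 : ℂ)‖ ≤ 1 := by simp
  have h0 : ‖(0 : ℂ)‖ ≤ 1 := by simp
  refine ite_small h1 (ite_small (get_small hε _) (ite_small (get_small hε _)
    (ite_small (get_small hε _) (ite_small (get_small hε _) ?_))))
  refine ite_small (h _ _) (ite_small (h _ _) (ite_small (h _ _) (ite_small (h _ _)
    (ite_small (h _ _) (ite_small (h _ _) (ite_small (h _ _) (ite_small (h _ _)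
    (ite_small (h _ _) (ite_small (h _ _) ?_)))))))))
  refine ite_small (h3 _ _ _) (ite_small (h3 _ _ _) (ite_small (h3 _ _ _) (ite_small (h3 _ _ _)
    (ite_small (h3 _ _ _) (ite_small (h3 _ _ _) (ite_small (h3 _ _ _) (ite_small (h3 _ _ _)
    (ite_small (h3 _ _ _) (ite_small (h3 _ _ _) ?_)))))))))
  exact ite_small (h3 _ _ _) (ite_small (h3 _ _ _) (ite_small (h3 _ _ _) (ite_small (h3 _ _ _)
    (ite_small (h3 _ _ _) (ite_small (h3 _ _ _) (ite_small (h3 _ _ _) (ite_small (h3 _ _ _)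
    (ite_small (h3 _ _ _) (ite_small (h3 _ _ _) h0)))))))))

private theorem mem_PL {i : Nat} (hi : i ∈ PL) : i = 1 ∨ i = 15 ∨ i = 18 ∨ i = 23 := by
  simpa [PL] using hi

private theorem mem_PLQ {i : Nat} (hi : i ∈ PLQ) : i = 1 ∨ i = 15 ∨ i = 18 ∨ i = 23 ∨ i = 2 ∨
    i = 16 ∨ i = 19 ∨ i = 24 ∨ i = 30 ∨ i = 33 ∨ i = 36 ∨ i = 38 ∨ i = 41 ∨ i = 46 := by
  simpa [PLQ, PL, PQ] using hi

/-- products of two linear monomials -/
theorem mono_add (ε : List ℂ) {i j : Nat} (hi : i ∈ PL) (hj : j ∈ PLQ) :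
    mono ε (i + j) = mono ε i * mono ε j := by
  rcases mem_PL hi with rfl | rfl | rfl | rfl <;>
    rcases mem_PLQ hj with rfl | rfl | rfl | rfl | rfl | rfl | rfl | rfl | rfl | rfl | rfl | rfl |
      rfl | rfl <;>
    (simp only [mono, Nat.reduceAdd, Nat.reduceEqDiff, reduceIte, OfNat.ofNat_ne_zero,
      OfNat.ofNat_ne_one, OfNat.one_ne_ofNat, one_ne_zero]; try ring)

private theorem mono_zero (ε : List ℂ) : mono ε 0 = 1 := by simp [mono]

private theorem PL_nodup : PL.Nodup := by decide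
private theorem PQ_nodup : PQ.Nodup := by decide
private theorem PT_nodup : PT.Nodup := by decide
private theorem PL_lt70 : ∀ i ∈ PL, i < 70 := by decide
private theorem PQ_lt70 : ∀ i ∈ PQ, i < 70 := by decide
private theorem PT_lt70 : ∀ i ∈ PT, i < 70 := by decide

/-- a sum over all positions is the sum over a list if the other terms are `0` -/
private theorem sum_list {l : List Nat} (hl : l.Nodup) (h : ∀ i ∈ l, i < 70) (f : Nat → ℂ)
    (h0 : ∀ k, k < 70 → k ∉ l → f k = 0) : ∑ k ∈ Finset.range 70, f k = (l.map f).sum := by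
  rw [← List.sum_toFinset f hl]
  symm
  apply Finset.sum_subset
  · intro k hk
    exact Finset.mem_range.2 (h k (List.mem_toFinset.1 hk))
  · intro k hk hk2
    exact h0 k (Finset.mem_range.1 hk) (fun h => hk2 (List.mem_toFinset.2 h))

private theorem mono_none (ε : List ℂ) {k : Nat} (h0 : k ≠ 0) (h1 : k ∉ PL) (h2 : k ∉ PQ)
    (h3 : k ∉ PT) : mono ε k = 0 := by
  simp only [PL, PQ, PT, List.mem_cons, List.not_mem_nil, or_false, not_or] at h1 h2 h3
  unfold mono
  simp [h0, h1, h2, h3]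

theorem ev_split (a : Nat → GaussianInt) (ε : List ℂ) :
    ev a ε = toC (a 0) + (evL a ε + (evQ a ε + evT a ε)) := by
  have h1 : (0 :: (PL ++ (PQ ++ PT))).Nodup := by decide
  have h2 : ∀ i ∈ (0 :: (PL ++ (PQ ++ PT))), i < 70 := by decide
  unfold ev
  rw [sum_list h1 h2]
  · rw [List.map_cons, List.sum_cons, List.map_append, List.sum_append, List.map_append,
      List.sum_append, mono_zero, mul_one]
    rfl
  · intro k _ hk
    simp only [List.mem_cons, List.mem_append, not_or] at hk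
    rw [mono_none ε hk.1 hk.2.1 hk.2.2.1 hk.2.2.2, mul_zero]

theorem ev_congr {a b : Nat → GaussianInt} (h : ∀ k, k < 70 → a k = b k) (ε : List ℂ) :
    ev a ε = ev b ε := by
  unfold ev
  refine Finset.sum_congr rfl fun k hk => ?_
  rw [h k (Finset.mem_range.1 hk)]

theorem ev_add (a b : Nat → GaussianInt) (ε : List ℂ) :
    ev (fun k => a k + b k) ε = ev a ε + ev b ε := by
  unfold ev
  rw [← Finset.sum_add_distrib]
  refine Finset.sum_congr rfl fun k _ => ?_
  rw [map_add]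
  ring

theorem ev_sub (a b : Nat → GaussianInt) (ε : List ℂ) :
    ev (fun k => a k - b k) ε = ev a ε - ev b ε := by
  unfold ev
  rw [← Finset.sum_sub_distrib]
  refine Finset.sum_congr rfl fun k _ => ?_
  rw [map_sub]
  ring

theorem ev_mul (z : GaussianInt) (a : Nat → GaussianInt) (ε : List ℂ) :
    ev (fun k => z * a k) ε = toC z * ev a ε := by
  unfold ev
  rw [Finset.mul_sum]
  refine Finset.sum_congr rfl fun k _ => ?_
  rw [map_mul]
  ring

private theorem ev_list (l : List Nat) (F : Nat → Nat → GaussianInt) (ε : List ℂ) :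
    ev (fun k => (l.map fun i => F i k).sum) ε = (l.map fun i => ev (F i) ε).sum := by
  induction l with
  | nil => simp [ev]
  | cons i l ih =>
    simp only [List.map_cons, List.sum_cons]
    rw [ev_add, ih]

private theorem ev_single (z : GaussianInt) {p : Nat} (hp : p < 70) (ε : List ℂ) :
    ev (fun k => if p = k then z else 0) ε = toC z * mono ε p := by
  unfold ev
  rw [Finset.sum_eq_single p]
  · simp only [if_true]
  · intro k _ hk
    simp only [if_neg (Ne.symm hk), map_zero, zero_mul]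
  · intro h
    exact absurd (Finset.mem_range.2 hp) h

theorem ev_res {l : List Nat} (hl : l.Nodup) (h : ∀ i ∈ l, i < 70) (a : Nat → GaussianInt)
    (ε : List ℂ) : ev (res l a) ε = evl l a ε := by
  unfold ev evl
  rw [sum_list hl h]
  · congr 1
    apply List.map_congr_left
    intro k hk
    unfold res
    rw [if_pos hk]
  · intro k _ hk
    unfold res
    rw [if_neg hk, map_zero, zero_mul]

theorem ev_CV {l1 l2 : List Nat} {ε : List ℂ} (h : ∀ i ∈ l1, ∀ j ∈ l2, i + j < 70)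
    (hm : ∀ i ∈ l1, ∀ j ∈ l2, mono ε (i + j) = mono ε i * mono ε j) (a b : Nat → GaussianInt) :
    ev (CV l1 l2 a b) ε = evl l1 a ε * evl l2 b ε := by
  have e : ev (CV l1 l2 a b) ε = (l1.map fun i => (l2.map fun j =>
      ev (fun k => if i + j = k then a i * b j else 0) ε).sum).sum := by
    unfold CV
    rw [ev_list]
    congr 1
    apply List.map_congr_left
    intro i _
    rw [ev_list]
  have e2 : evl l1 a ε * evl l2 b ε = (l1.map fun i => (l2.map fun j =>
      (toC (a i) * mono ε i) * (toC (b j) * mono ε j)).sum).sum := by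
    unfold evl
    rw [← List.sum_map_mul_right]
    congr 1
    apply List.map_congr_left
    intro i _
    rw [List.sum_map_mul_left]
  rw [e, e2]
  congr 1
  apply List.map_congr_left
  intro i hi
  congr 1
  apply List.map_congr_left
  intro j hj
  rw [ev_single _ (h i hi j hj), hm i hi j hj, map_mul]
  ring

private theorem PLQ_sub : ∀ i ∈ PL, i ∈ PLQ := by decide
private theorem PLQ_add : ∀ i ∈ PL, ∀ j ∈ PLQ, i + j < 70 := by decide

/-- linear times linear (plus quadratic) -/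
theorem ev_LQ (a b : Nat → GaussianInt) (ε : List ℂ) :
    ev (CV PL PLQ a b) ε = evL a ε * (evL b ε + evQ b ε) := by
  rw [ev_CV PLQ_add (fun i hi j hj => mono_add ε hi hj)]
  have e : evl PLQ b ε = evL b ε + evQ b ε := by
    unfold evL evQ evl PLQ
    rw [List.map_append, List.sum_append]
  rw [e]

theorem ev_LL (a b : Nat → GaussianInt) (ε : List ℂ) : ev (CV PL PL a b) ε = evL a ε * evL b ε := by
  exact ev_CV (fun i hi j hj => PLQ_add i hi j (PLQ_sub j hj))
    (fun i hi j hj => mono_add ε hi (PLQ_sub j hj)) a b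

/-- floors -/
def fl (s : Nat) (a : Nat → GaussianInt) (k : Nat) : GaussianInt :=
  ⟨(a k).re / 2 ^ s, (a k).im / 2 ^ s⟩

private theorem norm_toC_sq (z : GaussianInt) : ‖toC z‖ ^ 2 = (z.re : ℝ) ^ 2 + (z.im : ℝ) ^ 2 := by
  rw [← Complex.normSq_eq_norm_sq, Complex.normSq_apply, GaussianInt.intCast_re,
    GaussianInt.intCast_im]
  ring

private theorem floor_err (x : ℤ) (s : Nat) : |((x / 2 ^ s : ℤ) : ℝ) - (x : ℝ) / 2 ^ s| ≤ 1 := by
  have h1 : (0 : ℤ) < 2 ^ s := by positivity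
  have h2 := Int.mul_ediv_add_emod x (2 ^ s)
  have h3 := Int.emod_nonneg x (ne_of_gt h1)
  have h4 := Int.emod_lt_of_pos x h1
  have h5 : (x : ℝ) = (2 : ℝ) ^ s * ((x / 2 ^ s : ℤ) : ℝ) + ((x % 2 ^ s : ℤ) : ℝ) := by
    exact_mod_cast h2.symm
  have h6 : (0 : ℝ) ≤ ((x % 2 ^ s : ℤ) : ℝ) := by exact_mod_cast h3
  have h7 : ((x % 2 ^ s : ℤ) : ℝ) ≤ 2 ^ s := by exact_mod_cast h4.le
  have h8 : (0 : ℝ) < 2 ^ s := by positivity
  have e : ((x / 2 ^ s : ℤ) : ℝ) - (x : ℝ) / 2 ^ s = -(((x % 2 ^ s : ℤ) : ℝ) / 2 ^ s) := by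
    conv_lhs => rw [h5]
    field_simp
    ring
  rw [e, abs_neg, abs_of_nonneg (by positivity), div_le_one h8]
  exact h7

private theorem fl_err (s : Nat) (a : Nat → GaussianInt) (k : Nat) :
    ‖toC (fl s a k) - toC (a k) / 2 ^ s‖ ≤ 71 / 50 := by
  have h1 := floor_err (a k).re s
  have h2 := floor_err (a k).im s
  have e : ‖toC (fl s a k) - toC (a k) / 2 ^ s‖ ^ 2 =
      ((((a k).re / 2 ^ s : ℤ) : ℝ) - ((a k).re : ℝ) / 2 ^ s) ^ 2 +
      ((((a k).im / 2 ^ s : ℤ) : ℝ) - ((a k).im : ℝ) / 2 ^ s) ^ 2 := by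
    have e1 : (toC (fl s a k) - toC (a k) / 2 ^ s).re =
        ((((a k).re / 2 ^ s : ℤ) : ℝ) - ((a k).re : ℝ) / 2 ^ s) := by
      have h : (2 : ℂ) ^ s = ((2 ^ s : ℝ) : ℂ) := by push_cast; rfl
      rw [Complex.sub_re, h, Complex.div_ofReal_re, ← GaussianInt.intCast_re,
        ← GaussianInt.intCast_re]
      rfl
    have e2 : (toC (fl s a k) - toC (a k) / 2 ^ s).im =
        ((((a k).im / 2 ^ s : ℤ) : ℝ) - ((a k).im : ℝ) / 2 ^ s) := by
      have h : (2 : ℂ) ^ s = ((2 ^ s : ℝ) : ℂ) := by push_cast; rfl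
      rw [Complex.sub_im, h, Complex.div_ofReal_im, ← GaussianInt.intCast_im,
        ← GaussianInt.intCast_im]
      rfl
    rw [← Complex.normSq_eq_norm_sq, Complex.normSq_apply, e1, e2]
    ring
  have h3 := (sq_le_one_iff_abs_le_one _).2 h1
  have h4 := (sq_le_one_iff_abs_le_one _).2 h2
  apply le_of_sq_le_sq _ (by norm_num)
  rw [e]
  linarith

private theorem term_err {ε : List ℂ} (hε : Small ε) (s : Nat) (a : Nat → GaussianInt) (k : Nat) :
    ‖toC (fl s a k) * mono ε k - toC (a k) * mono ε k / 2 ^ s‖ ≤ 71 / 50 := by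
  have e : toC (fl s a k) * mono ε k - toC (a k) * mono ε k / 2 ^ s =
      (toC (fl s a k) - toC (a k) / 2 ^ s) * mono ε k := by ring
  rw [e, norm_mul]
  exact (mul_le_of_le_one_right (norm_nonneg _) (mono_small hε k)).trans (fl_err s a k)

private theorem list_err {ε : List ℂ} (hε : Small ε) (s : Nat) (a : Nat → GaussianInt)
    (l : List Nat) :
    ‖(l.map fun k => toC (fl s a k) * mono ε k).sum -
      (l.map fun k => toC (a k) * mono ε k).sum / 2 ^ s‖ ≤ (l.length : ℝ) * (71 / 50) := by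
  induction l with
  | nil => simp
  | cons k l ih =>
    simp only [List.map_cons, List.sum_cons, List.length_cons]
    have e : toC (fl s a k) * mono ε k + (l.map fun k => toC (fl s a k) * mono ε k).sum -
        (toC (a k) * mono ε k + (l.map fun k => toC (a k) * mono ε k).sum) / 2 ^ s =
        (toC (fl s a k) * mono ε k - toC (a k) * mono ε k / 2 ^ s) +
        ((l.map fun k => toC (fl s a k) * mono ε k).sum -
          (l.map fun k => toC (a k) * mono ε k).sum / 2 ^ s) := by ring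
    rw [e]
    refine (norm_add_le _ _).trans ?_
    have h1 := term_err hε s a k
    push_cast
    linarith

theorem ev_fl {ε : List ℂ} (hε : Small ε) (s : Nat) (a : Nat → GaussianInt) :
    ‖ev (fl s a) ε - ev a ε / 2 ^ s‖ ≤ 50 := by
  rw [ev_split, ev_split]
  have h0 := fl_err s a 0
  have h1 := list_err hε s a PL
  have h2 := list_err hε s a PQ
  have h3 := list_err hε s a PT
  have l1 : (PL.length : ℝ) = 4 := by simp [PL]
  have l2 : (PQ.length : ℝ) = 10 := by simp [PQ]
  have l3 : (PT.length : ℝ) = 20 := by simp [PT]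
  rw [l1] at h1
  rw [l2] at h2
  rw [l3] at h3
  have e : toC (fl s a 0) + (evL (fl s a) ε + (evQ (fl s a) ε + evT (fl s a) ε)) -
      (toC (a 0) + (evL a ε + (evQ a ε + evT a ε))) / 2 ^ s =
      (toC (fl s a 0) - toC (a 0) / 2 ^ s) + ((evL (fl s a) ε - evL a ε / 2 ^ s) +
        ((evQ (fl s a) ε - evQ a ε / 2 ^ s) + (evT (fl s a) ε - evT a ε / 2 ^ s))) := by ring
  rw [e]
  have n1 := norm_add_le (toC (fl s a 0) - toC (a 0) / 2 ^ s) ((evL (fl s a) ε - evL a ε / 2 ^ s) +
        ((evQ (fl s a) ε - evQ a ε / 2 ^ s) + (evT (fl s a) ε - evT a ε / 2 ^ s)))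
  have n2 := norm_add_le (evL (fl s a) ε - evL a ε / 2 ^ s)
    ((evQ (fl s a) ε - evQ a ε / 2 ^ s) + (evT (fl s a) ε - evT a ε / 2 ^ s))
  have n3 := norm_add_le (evQ (fl s a) ε - evQ a ε / 2 ^ s) (evT (fl s a) ε - evT a ε / 2 ^ s)
  change ‖evL (fl s a) ε - evL a ε / 2 ^ s‖ ≤ _ at h1
  change ‖evQ (fl s a) ε - evQ a ε / 2 ^ s‖ ≤ _ at h2
  change ‖evT (fl s a) ε - evT a ε / 2 ^ s‖ ≤ _ at h3
  linarith

/-- the quadratic part alone: ten positions -/
theorem evQ_fl {ε : List ℂ} (hε : Small ε) (s : Nat) (a : Nat → GaussianInt) :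
    ‖evQ (fl s a) ε - evQ a ε / 2 ^ s‖ ≤ 15 := by
  have h1 := list_err hε s a PQ
  have l1 : (PQ.length : ℝ) = 10 := by simp [PQ]
  rw [l1] at h1
  change ‖evQ (fl s a) ε - evQ a ε / 2 ^ s‖ ≤ _ at h1
  linarith

/-- the linear part alone: four positions -/
theorem evL_fl {ε : List ℂ} (hε : Small ε) (s : Nat) (a : Nat → GaussianInt) :
    ‖evL (fl s a) ε - evL a ε / 2 ^ s‖ ≤ 6 := by
  have h1 := list_err hε s a PL
  have l1 : (PL.length : ℝ) = 4 := by simp [PL]
  rw [l1] at h1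
  change ‖evL (fl s a) ε - evL a ε / 2 ^ s‖ ≤ _ at h1
  linarith

structure MemC (ε : List ℂ) (x : A) (z : ℂ) : Prop where
  good : Good x.X
  cenb : ‖toC (cd x.X 0)‖ ≤ (x.m : ℝ)
  linb : (PL.map fun k => ‖toC (cd x.X k)‖).sum ≤ (x.G : ℝ)
  quab : (PQ.map fun k => ‖toC (cd x.X k)‖).sum ≤ (x.Q : ℝ)
  dev : (x.G : ℝ) + x.Q + (PT.map fun k => ‖toC (cd x.X k)‖).sum + x.r ≤ (x.D : ℝ)
  mem : ‖z * 2 ^ 40 - ev (cd x.X) ε‖ ≤ (x.r : ℝ)

def Mem (ε : List ℂ) (x : A) (z : ℂ) : Prop := x.ok = true → MemC ε x z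

private theorem norm_list {ε : List ℂ} (hε : Small ε) (a : Nat → GaussianInt) (l : List Nat) :
    ‖(l.map fun k => toC (a k) * mono ε k).sum‖ ≤ (l.map fun k => ‖toC (a k)‖).sum := by
  induction l with
  | nil => simp
  | cons k l ih =>
    simp only [List.map_cons, List.sum_cons]
    refine (norm_add_le _ _).trans (add_le_add ?_ ih)
    rw [norm_mul]
    exact mul_le_of_le_one_right (norm_nonneg _) (mono_small hε k)

private theorem sum_norm_nonneg (a : Nat → GaussianInt) (l : List Nat) :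
    0 ≤ (l.map fun k => ‖toC (a k)‖).sum := by
  apply List.sum_nonneg
  intro x hx
  obtain ⟨k, -, rfl⟩ := List.mem_map.1 hx
  exact norm_nonneg _

/-- `2^40 z = c + (lin + (quad + (cub + ρ)))` -/
theorem MemC.split {ε : List ℂ} (hε : Small ε) {x : A} {z : ℂ} (h : MemC ε x z) :
    ∃ ρ : ℂ, z * 2 ^ 40 =
        toC (cd x.X 0) + (evL (cd x.X) ε + (evQ (cd x.X) ε + (evT (cd x.X) ε + ρ))) ∧
      ‖ρ‖ ≤ (x.r : ℝ) ∧ ‖evL (cd x.X) ε‖ ≤ (x.G : ℝ) ∧ ‖evQ (cd x.X) ε‖ ≤ (x.Q : ℝ) ∧
      ‖evT (cd x.X) ε + ρ‖ ≤ (x.D : ℝ) - x.G - x.Q ∧ (x.G : ℝ) + x.Q ≤ x.D := by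
  have h1 := norm_list hε (cd x.X) PL
  have h2 := norm_list hε (cd x.X) PQ
  have h2' := norm_list hε (cd x.X) PT
  change ‖evL (cd x.X) ε‖ ≤ _ at h1
  change ‖evQ (cd x.X) ε‖ ≤ _ at h2
  change ‖evT (cd x.X) ε‖ ≤ _ at h2'
  have h3 := h.dev
  have h4 := h.mem
  have h5 := h.linb
  have h5' := h.quab
  have h6 := sum_norm_nonneg (cd x.X) PT
  have h7 : (0 : ℝ) ≤ x.r := Nat.cast_nonneg _
  refine ⟨z * 2 ^ 40 - ev (cd x.X) ε, ?_, h4, h1.trans h5, h2.trans h5', ?_, ?_⟩
  · rw [ev_split]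
    ring
  · have n1 := norm_add_le (evT (cd x.X) ε) (z * 2 ^ 40 - ev (cd x.X) ε)
    linarith
  · linarith

private theorem norm_cd (X k : Nat) :
    ‖toC (cd X k)‖ = Real.sqrt ((sd X k : ℝ) ^ 2 + (sd X (k + 70) : ℝ) ^ 2) := by
  rw [← Real.sqrt_sq (norm_nonneg (toC (cd X k))), norm_toC_sq]
  rfl

private theorem norm_cd_le {X : Nat} (hX : Good X) {k : Nat} (hk : k < 70) :
    ‖toC (cd X k)‖ ≤ (dg (magX X) k : ℝ) + 3 := by
  rw [norm_cd]
  exact ((magX_spec hX k).1 hk).2

private theorem norm_cd_list {X : Nat} (hX : Good X) (l : List Nat) (hl : ∀ i ∈ l, i < 70) :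
    (l.map fun k => ‖toC (cd X k)‖).sum ≤ (((l.map (dg (magX X))).sum : Nat) : ℝ) +
      3 * (l.length : ℝ) := by
  induction l with
  | nil => simp
  | cons k l ih =>
    simp only [List.map_cons, List.sum_cons, List.length_cons]
    have h1 := norm_cd_le hX (hl k (List.mem_cons_self ..))
    have h2 := ih fun i hi => hl i (List.mem_cons_of_mem _ hi)
    push_cast
    push_cast at h2
    linarith

private theorem full_eq : full = 2 ^ 116 - 1 := rfl

private theorem land_full_dg (y : Nat) : Nat.land y full = dg y 0 := by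
  rw [full_eq, land_mask, dg_zero]

private theorem mdl_X (X r : Nat) (b : Bool) : (mdl X r b).X = X := rfl
private theorem mdl_m (X r : Nat) (b : Bool) :
    (mdl X r b).m = Nat.add (Nat.land (magX X) full) 3 := rfl
private theorem mdl_G (X r : Nat) (b : Bool) :
    (mdl X r b).G = Nat.add (Nat.mod (Nat.land (magX X) mLM) full) 12 := rfl
private theorem mdl_Q (X r : Nat) (b : Bool) :
    (mdl X r b).Q = Nat.add (Nat.mod (Nat.land (magX X) mQM) full) 30 := rfl
private theorem mdl_D (X r : Nat) (b : Bool) :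
    (mdl X r b).D = Nat.add (Nat.add (Nat.add (Nat.add (Nat.mod (Nat.land (magX X) mLM) full) 12)
      (Nat.add (Nat.mod (Nat.land (magX X) mQM) full) 30))
      (Nat.add (Nat.mod (Nat.land (magX X) mTM) full) 60)) r := rfl
private theorem mdl_r (X r : Nat) (b : Bool) : (mdl X r b).r = r := rfl
private theorem mdl_okk (X r : Nat) (b : Bool) :
    (mdl X r b).ok = (b && Nat.ble r 9007199254740992) := rfl

theorem mU_ok {U r : Nat} {b : Bool} (h : (mU U r b).ok = true) : b = true ∧ okU U = true := by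
  unfold mU at h
  rw [mdl_okk, Bool.and_eq_true, Bool.and_eq_true] at h
  exact h.1

/-- the constructor: the range of the digits is checked (`okU_spec`), `m`, `G`, `Q`, `D` are computed
(`magX_spec`, `mask_sum`) -/
theorem mem_mU {ε : List ℂ} {U r : Nat} {b : Bool} {z : ℂ} {a : Nat → GaussianInt}
    (h : b = true → okU U = true → St (cut U) a ∧ ‖z * 2 ^ 40 - ev a ε‖ ≤ (r : ℝ)) :
    Mem ε (mU U r b) z := by
  intro hok
  obtain ⟨hb, hU⟩ := mU_ok hok
  obtain ⟨hst, hz⟩ := h hb hU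
  have hg := hst.good
  have hL := mask_sum (y := magX (cut U)) (M := mLM) (l := PL) PL_nodup PL_lt70 dg_mLM
    (fun i hi => ((magX_spec hg i).1 (PL_lt70 i hi)).1)
  have hQ := mask_sum (y := magX (cut U)) (M := mQM) (l := PQ) PQ_nodup PQ_lt70 dg_mQM
    (fun i hi => ((magX_spec hg i).1 (PQ_lt70 i hi)).1)
  have hT := mask_sum (y := magX (cut U)) (M := mTM) (l := PT) PT_nodup PT_lt70 dg_mTM
    (fun i hi => ((magX_spec hg i).1 (PT_lt70 i hi)).1)
  have nL := norm_cd_list hg PL PL_lt70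
  have nQ := norm_cd_list hg PQ PQ_lt70
  have nT := norm_cd_list hg PT PT_lt70
  have l1 : (PL.length : ℝ) = 4 := by simp [PL]
  have l2 : (PQ.length : ℝ) = 10 := by simp [PQ]
  have l3 : (PT.length : ℝ) = 20 := by simp [PT]
  rw [l1] at nL
  rw [l2] at nQ
  rw [l3] at nT
  unfold mU
  refine ⟨?_, ?_, ?_, ?_, ?_, ?_⟩
  · rw [mdl_X]
    exact hg
  · rw [mdl_X, mdl_m, land_full_dg, Nat.add_eq]
    have h1 := norm_cd_le hg (k := 0) (by norm_num)
    push_cast
    exact h1
  · rw [mdl_X, mdl_G, hL, Nat.add_eq]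
    push_cast
    push_cast at nL
    linarith
  · rw [mdl_X, mdl_Q, hQ, Nat.add_eq]
    push_cast
    push_cast at nQ
    linarith
  · rw [mdl_X, mdl_G, mdl_Q, mdl_D, mdl_r, hL, hQ, hT]
    simp only [Nat.add_eq]
    push_cast
    push_cast at nL nQ nT
    linarith
  · rw [mdl_X, mdl_r, ev_congr hst.eq]
    exact hz

private theorem bz_val {c : Nat} : bz c 0 * 2 ^ 40 = toC (zd c) := by
  rw [bz_zd]
  have h : (2 : ℂ) ^ 40 ≠ 0 := by norm_num
  exact div_mul_cancel₀ _ h

private theorem ofZ_spec {z : Z} (h : Nat.ble (Nat.add (Nat.add z.a z.b) (Nat.add z.c z.d))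
    4503599627370496 = true) : One (2 ^ 53) (ofZ z) ∧ bz (ofZ z) 0 = z.val := by
  have h1 : z.a + z.b + (z.c + z.d) ≤ 4503599627370496 := Nat.le_of_ble_eq_true h
  have h2 := Pool.Agent.helper31.IB.pack_spec (n := 2 ^ 53) (a := z.a) (b := z.b) (c := z.c)
    (d := z.d) (by norm_num) (by omega) (by omega) (by omega) (by omega)
  have h3 := Pool.Agent.helper31.IB.one_nrm (by norm_num) h2.1
  exact ⟨h3.1, h3.2.trans h2.2.1⟩

private theorem ofZ_zd {z : Z} (h : Nat.ble (Nat.add (Nat.add z.a z.b) (Nat.add z.c z.d))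
    4503599627370496 = true) : toC (zd (ofZ z)) = z.val * 2 ^ 40 := by
  rw [← bz_val, (ofZ_spec h).2]

private theorem ev_cen (z : GaussianInt) (ε : List ℂ) :
    ev (fun k => if k = 0 then z else 0) ε = toC z := by
  have h := ev_single z (p := 0) (by norm_num) ε
  rw [mono_zero, mul_one] at h
  rw [← h]
  refine ev_congr (fun k _ => ?_) ε
  by_cases h0 : k = 0
  · rw [if_pos h0, if_pos h0.symm]
  · rw [if_neg h0, if_neg (Ne.symm h0)]

theorem Mem.const (ε : List ℂ) (z : Z) : Mem ε (A.const z) z.val := by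
  unfold A.const
  refine mem_mU (a := fun k => if k = 0 then zd (ofZ z) else 0) fun hb hU => ?_
  obtain ⟨h1, h2⟩ := ofZ_spec hb
  have h3 := toF_spec (n := 2 ^ 53) (by norm_num) h1
  have h4 := zd_bound h1
  refine ⟨const_spec h3 ?_ hU, ?_⟩
  · constructor
    · refine h4.1.le.trans ?_
      norm_num
    · refine h4.2.le.trans ?_
      norm_num
  · rw [ev_cen, ofZ_zd hb, sub_self, norm_zero]
    norm_num

private theorem cd_eq {X k : Nat} {z : GaussianInt} (h1 : sd X k = z.re)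
    (h2 : sd X (k + 70) = z.im) : cd X k = z := by
  unfold cd
  rw [h1, h2]

private theorem cd_re (X k : Nat) : (cd X k).re = sd X k := rfl
private theorem cd_im (X k : Nat) : (cd X k).im = sd X (k + 70) := rfl

theorem Mem.add {ε : List ℂ} {x y : A} {u v : ℂ} (hx : Mem ε x u) (hy : Mem ε y v) :
    Mem ε (x.add y) (u + v) := by
  unfold A.add
  refine mem_mU (a := fun k => cd x.X k + cd y.X k) fun hb hU => ?_
  rw [Bool.and_eq_true] at hb
  have hx' := hx hb.1
  have hy' := hy hb.2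
  have h := okU_spec (add_spec hx'.good hy'.good) hU
  refine ⟨⟨h.1, fun k hk => cd_eq ?_ ?_⟩, ?_⟩
  · rw [h.2 k (by omega), Zsqrtd.re_add, cd_re, cd_re]
  · rw [h.2 (k + 70) (by omega), Zsqrtd.im_add, cd_im, cd_im]
  · rw [ev_add, Nat.add_eq]
    have e : (u + v) * 2 ^ 40 - (ev (cd x.X) ε + ev (cd y.X) ε) =
        (u * 2 ^ 40 - ev (cd x.X) ε) + (v * 2 ^ 40 - ev (cd y.X) ε) := by ring
    rw [e]
    push_cast
    exact (norm_add_le _ _).trans (add_le_add hx'.mem hy'.mem)

theorem Mem.sub {ε : List ℂ} {x y : A} {u v : ℂ} (hx : Mem ε x u) (hy : Mem ε y v) :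
    Mem ε (x.sub y) (u - v) := by
  unfold A.sub
  refine mem_mU (a := fun k => cd x.X k - cd y.X k) fun hb hU => ?_
  rw [Bool.and_eq_true] at hb
  have hx' := hx hb.1
  have hy' := hy hb.2
  have h := okU_spec (sub_spec hx'.good hy'.good) hU
  refine ⟨⟨h.1, fun k hk => cd_eq ?_ ?_⟩, ?_⟩
  · rw [h.2 k (by omega), Zsqrtd.re_sub, cd_re, cd_re]
  · rw [h.2 (k + 70) (by omega), Zsqrtd.im_sub, cd_im, cd_im]
  · rw [ev_sub, Nat.add_eq]
    have e : (u - v) * 2 ^ 40 - (ev (cd x.X) ε - ev (cd y.X) ε) =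
        (u * 2 ^ 40 - ev (cd x.X) ε) - (v * 2 ^ 40 - ev (cd y.X) ε) := by ring
    rw [e]
    push_cast
    exact (norm_sub_le _ _).trans (add_le_add hx'.mem hy'.mem)

theorem Mem.neg {ε : List ℂ} {x : A} {u : ℂ} (hx : Mem ε x u) : Mem ε x.neg (-u) := by
  unfold A.neg
  refine mem_mU (a := fun k => (-1) * cd x.X k) fun hb hU => ?_
  have hx' := hx hb
  have h := okU_spec (neg_spec hx'.good) hU
  refine ⟨⟨h.1, fun k hk => cd_eq ?_ ?_⟩, ?_⟩
  · rw [h.2 k (by omega), neg_one_mul, Zsqrtd.re_neg, cd_re]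
  · rw [h.2 (k + 70) (by omega), neg_one_mul, Zsqrtd.im_neg, cd_im]
  · rw [ev_mul, map_neg, map_one]
    have e : -u * 2 ^ 40 - -1 * ev (cd x.X) ε = -(u * 2 ^ 40 - ev (cd x.X) ε) := by ring
    rw [e, norm_neg]
    exact hx'.mem

end Pool.Agent.helper14.CF
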