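import Pool.Agent.helper14.CF.Model

/-!
# CF-4b: products of third order models

Template: the section products of `QF/Model.lean` (private lemmas of `CF/Model.lean` may be copied).
-/

namespace Pool.Agent.helper14.CF

open Complex
open Pool.Agent.helper31.IA (Z Small get RealL)
open Pool.Agent.helper31.IB (fd One bz mg ofZ)

/-! ### products -/

/-- digits of a product -/
def mulc (a b : Nat → GaussianInt) (k : Nat) : GaussianInt :=
  (CV PA PB a b k + CV PQ PA a b k) + (if k ∈ PB then 0 else a 0 * b k + b 0 * a k)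

/-- `P` of `A.mul` -/
def mulP (X Y : Nat) : Nat :=
  let a := Nat.land X mA
  let b := Nat.land Y mA
  let c := Nat.land X mB
  let d := Nat.land Y mB
  Nat.add
    (Nat.add (Nat.mul (Nat.add a kA) (Nat.add d kB))
      (Nat.mul (Nat.add (Nat.sub c a) kQ) (Nat.add b kA)))
    (Nat.add (Nat.mul (Nat.add (Nat.land a mC) kC) (Nat.add (Nat.sub Y d) kT))
      (Nat.mul (Nat.add (Nat.land b mC) kC) (Nat.add (Nat.sub X c) kT)))

private theorem mono_zero (ε : List ℂ) : mono ε 0 = 1 := by simp [mono]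

private theorem PA_nodup : PA.Nodup := by decide
private theorem PB_nodup : PB.Nodup := by decide
private theorem PQ_nodup : PQ.Nodup := by decide
private theorem PB_lt70 : ∀ i ∈ PB, i < 70 := by decide
private theorem AB_add : ∀ i ∈ PA, ∀ j ∈ PB, i + j < 70 := by decide
private theorem QA_add : ∀ i ∈ PQ, ∀ j ∈ PA, i + j < 70 := by decide
private theorem PA_sub : ∀ i ∈ PA, i ∈ PB := by decide
private theorem PQ_sub : ∀ i ∈ PQ, i ∈ PB := by decide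

private theorem mem_PA {i : Nat} (h : i ∈ PA) : i = 0 ∨ i ∈ PL := List.mem_cons.1 h
private theorem mem_PB {i : Nat} (h : i ∈ PB) : i = 0 ∨ i ∈ PLQ := List.mem_cons.1 h

private theorem mono_AB (ε : List ℂ) {i j : Nat} (hi : i ∈ PA) (hj : j ∈ PB) :
    mono ε (i + j) = mono ε i * mono ε j := by
  rcases mem_PA hi with rfl | hi
  · rw [Nat.zero_add, mono_zero, one_mul]
  · rcases mem_PB hj with rfl | hj
    · rw [Nat.add_zero, mono_zero, mul_one]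
    · exact mono_add ε hi hj

private theorem evl_PA (a : Nat → GaussianInt) (ε : List ℂ) :
    evl PA a ε = toC (a 0) + evL a ε := by
  unfold evL evl PA
  rw [List.map_cons, List.sum_cons, mono_zero, mul_one]

private theorem evl_PB (a : Nat → GaussianInt) (ε : List ℂ) :
    evl PB a ε = toC (a 0) + (evL a ε + evQ a ε) := by
  unfold evL evQ evl PB
  rw [List.map_cons, List.sum_cons, List.map_append, List.sum_append, mono_zero, mul_one]

private theorem res_rest (a : Nat → GaussianInt) (k : Nat) :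
    a k = res PB a k + (if k ∈ PB then 0 else a k) := by
  unfold res
  by_cases h : k ∈ PB
  · rw [if_pos h, if_pos h, add_zero]
  · rw [if_neg h, if_neg h, zero_add]

private theorem ev_rest (a : Nat → GaussianInt) (ε : List ℂ) :
    ev (fun k => if k ∈ PB then 0 else a k) ε =
      ev a ε - (toC (a 0) + (evL a ε + evQ a ε)) := by
  have h : ev a ε = ev (res PB a) ε + ev (fun k => if k ∈ PB then 0 else a k) ε := by
    rw [← ev_add]
    exact ev_congr (fun k _ => res_rest a k) ε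
  rw [h, ev_res PB_nodup PB_lt70, evl_PB]
  ring

/-- splitting of the last term of `mulc` -/
private theorem rest_eq (a b : Nat → GaussianInt) (k : Nat) :
    (if k ∈ PB then 0 else a 0 * b k + b 0 * a k) =
      a 0 * (if k ∈ PB then 0 else b k) + b 0 * (if k ∈ PB then 0 else a k) := by
  by_cases h : k ∈ PB
  · rw [if_pos h, if_pos h, if_pos h, mul_zero, mul_zero, add_zero]
  · rw [if_neg h, if_neg h, if_neg h]

/-- splitting of `mulc` into four sums -/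
private theorem mulc_eq (a b : Nat → GaussianInt) (k : Nat) : mulc a b k =
    (CV PA PB a b k + CV PQ PA a b k) +
      (a 0 * (if k ∈ PB then 0 else b k) + b 0 * (if k ∈ PB then 0 else a k)) := by
  unfold mulc
  rw [rest_eq]

theorem ev_mulc (a b : Nat → GaussianInt) (ε : List ℂ) :
    ev (mulc a b) ε = toC (a 0) * ev b ε + toC (b 0) * (ev a ε - toC (a 0)) +
      (evL a ε * (evL b ε + evQ b ε) + evQ a ε * evL b ε) := by
  have h1 : ev (CV PA PB a b) ε = evl PA a ε * evl PB b ε :=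
    ev_CV AB_add (fun i hi j hj => mono_AB ε hi hj) a b
  have h2 : ev (CV PQ PA a b) ε = evl PQ a ε * evl PA b ε :=
    ev_CV QA_add (fun i hi j hj => by
      rw [Nat.add_comm, mono_AB ε hj (PQ_sub i hi), mul_comm]) a b
  have e : ev (mulc a b) ε = (ev (CV PA PB a b) ε + ev (CV PQ PA a b) ε) +
      (toC (a 0) * ev (fun k => if k ∈ PB then 0 else b k) ε +
        toC (b 0) * ev (fun k => if k ∈ PB then 0 else a k) ε) := by
    rw [← ev_mul, ← ev_mul, ← ev_add, ← ev_add, ← ev_add]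
    exact ev_congr (fun k _ => mulc_eq a b k) ε
  rw [e, h1, h2, ev_rest, ev_rest, evl_PA, evl_PA, evl_PB]
  change (toC (a 0) + evL a ε) * (toC (b 0) + (evL b ε + evQ b ε)) +
    evQ a ε * (toC (b 0) + evL b ε) + _ = _
  ring

private theorem cd_re (X k : Nat) : (cd X k).re = sd X k := rfl
private theorem cd_im (X k : Nat) : (cd X k).im = sd X (k + 70) := rfl

private theorem mul_small {z w : GaussianInt} (hz : |z.re| ≤ 2 ^ 53 ∧ |z.im| ≤ 2 ^ 53)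
    (hw : |w.re| ≤ 2 ^ 53 ∧ |w.im| ≤ 2 ^ 53) :
    |(z * w).re| ≤ 2 ^ 107 ∧ |(z * w).im| ≤ 2 ^ 107 := by
  have m : ∀ s t : ℤ, |s| ≤ 2 ^ 53 → |t| ≤ 2 ^ 53 → |s * t| ≤ 2 ^ 106 := by
    intro s t hs ht
    rw [abs_mul]
    refine (mul_le_mul hs ht (abs_nonneg _) (by positivity)).trans (le_of_eq (by norm_num))
  have h1 := abs_le.1 (m _ _ hz.1 hw.1)
  have h2 := abs_le.1 (m _ _ hz.2 hw.2)
  have h3 := abs_le.1 (m _ _ hz.1 hw.2)
  have h4 := abs_le.1 (m _ _ hz.2 hw.1)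
  have e : (2 : ℤ) ^ 107 = 2 ^ 106 + 2 ^ 106 := by norm_num
  constructor
  · rw [Zsqrtd.re_mul, abs_le, e]
    constructor <;> linarith [h1.1, h1.2, h2.1, h2.2]
  · rw [Zsqrtd.im_mul, abs_le, e]
    constructor <;> linarith [h3.1, h3.2, h4.1, h4.2]

private theorem cd_bound {X : Nat} (hX : Good X) (k : Nat) :
    |(cd X k).re| ≤ 2 ^ 53 ∧ |(cd X k).im| ≤ 2 ^ 53 := by
  rw [cd_re, cd_im, abs_le, abs_le]
  have h1 := sd_bound hX k
  have h2 := sd_bound hX (k + 70)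
  exact ⟨⟨h1.1, h1.2.le⟩, ⟨h2.1, h2.2.le⟩⟩

private theorem V_mulc (a b : Nat → GaussianInt) : V (mulc a b) =
    (V (res PA a) * V (res PB b) + V (res PQ a) * V (res PA b)) +
      (phi (a 0) * V (fun k => if k ∈ PB then 0 else b k) +
        phi (b 0) * V (fun k => if k ∈ PB then 0 else a k)) := by
  rw [V_res_mul PA_nodup PB_nodup AB_add, V_res_mul PQ_nodup PA_nodup QA_add, ← V_mul, ← V_mul,
    ← V_add, ← V_add, ← V_add]
  exact V_congr fun k _ => mulc_eq a b k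

/-- the last term of `mulc` -/
private theorem rest_bound {X Y : Nat} (hX : Good X) (hY : Good Y) (k : Nat) :
    |(if k ∈ PB then (0 : GaussianInt) else cd X 0 * cd Y k + cd Y 0 * cd X k).re| ≤
        2 * ((if k ∈ PB then 0 else 2 : ℕ) : ℤ) * 2 ^ 106 ∧
      |(if k ∈ PB then (0 : GaussianInt) else cd X 0 * cd Y k + cd Y 0 * cd X k).im| ≤
        2 * ((if k ∈ PB then 0 else 2 : ℕ) : ℤ) * 2 ^ 106 := by
  by_cases h : k ∈ PB
  · rw [if_pos h, if_pos h, Zsqrtd.re_zero, Zsqrtd.im_zero, abs_zero]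
    norm_num
  · rw [if_neg h, if_neg h]
    have h2 := mul_small (cd_bound hX 0) (cd_bound hY k)
    have h3 := mul_small (cd_bound hY 0) (cd_bound hX k)
    have e : (2 : ℤ) * ((2 : ℕ) : ℤ) * 2 ^ 106 = 2 ^ 107 + 2 ^ 107 := by norm_num
    rw [e, Zsqrtd.re_add, Zsqrtd.im_add]
    exact ⟨(abs_add_le _ _).trans (add_le_add h2.1 h3.1),
      (abs_add_le _ _).trans (add_le_add h2.2 h3.2)⟩

/-- `val_A`, `val_B`, `val_BA`, `val_C`, `val_T`, `V_res_mul`; `CV_bound`, `cnt_mul` -/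
theorem mulP_spec {X Y : Nat} (hX : Good X) (hY : Good Y) :
    ((mulP X Y : ℕ) : ZMod NN) = V (mulc (cd X) (cd Y)) ∧
      ∀ k, |(mulc (cd X) (cd Y) k).re| ≤ 2 ^ 110 ∧ |(mulc (cd X) (cd Y) k).im| ≤ 2 ^ 110 := by
  constructor
  · have e : mulP X Y = ((Nat.add (Nat.land X mA) kA) * (Nat.add (Nat.land Y mB) kB) +
        (Nat.add (Nat.sub (Nat.land X mB) (Nat.land X mA)) kQ) * (Nat.add (Nat.land Y mA) kA)) +
        ((Nat.add (Nat.land (Nat.land X mA) mC) kC) * (Nat.add (Nat.sub Y (Nat.land Y mB)) kT) +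
        (Nat.add (Nat.land (Nat.land Y mA) mC) kC) * (Nat.add (Nat.sub X (Nat.land X mB)) kT)) := by
      unfold mulP
      simp only [Nat.mul_eq]
      rfl
    rw [e, Nat.cast_add, Nat.cast_add, Nat.cast_add, Nat.cast_mul, Nat.cast_mul, Nat.cast_mul,
      Nat.cast_mul, val_A hX, val_A hY, val_B hY, val_BA hX, val_C hX, val_C hY, val_T hX, val_T hY,
      V_mulc]
  · intro k
    have h1 := CV_bound (l1 := PA) (l2 := PB) (a := cd X) (b := cd Y) (m := 2 ^ 53) (n := 2 ^ 53)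
      (by positivity) (by positivity) (fun i _ => cd_bound hX i) (fun i _ => cd_bound hY i) k le_rfl
    have h2 := CV_bound (l1 := PQ) (l2 := PA) (a := cd X) (b := cd Y) (m := 2 ^ 53) (n := 2 ^ 53)
      (by positivity) (by positivity) (fun i _ => cd_bound hX i) (fun i _ => cd_bound hY i) k le_rfl
    have h3 := rest_bound hX hY k
    have h4 := cnt_mul k
    have h5 : ((cnt PA PB k : ℕ) : ℤ) + ((cnt PQ PA k : ℕ) : ℤ) +
        ((if k ∈ PB then 0 else 2 : ℕ) : ℤ) ≤ 8 := by exact_mod_cast h4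
    have e1 : (2 : ℤ) ^ 53 * 2 ^ 53 = 2 ^ 106 := by norm_num
    rw [e1] at h1 h2
    have e2 : (2 : ℤ) ^ 110 = 2 * 8 * 2 ^ 106 := by norm_num
    have e3 : (0 : ℤ) < 2 ^ 106 := by positivity
    generalize (2 : ℤ) ^ 106 = T at *
    unfold mulc
    rw [e2, Zsqrtd.re_add, Zsqrtd.im_add, Zsqrtd.re_add, Zsqrtd.im_add]
    have h6 : 2 * ((cnt PA PB k : ℕ) : ℤ) * T + 2 * ((cnt PQ PA k : ℕ) : ℤ) * T +
        2 * ((if k ∈ PB then 0 else 2 : ℕ) : ℤ) * T ≤ 2 * 8 * T := by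
      have h7 := mul_le_mul_of_nonneg_right h5 e3.le
      linarith
    constructor
    · refine (abs_add_le _ _).trans ?_
      have n1 := abs_add_le (CV PA PB (cd X) (cd Y) k).re (CV PQ PA (cd X) (cd Y) k).re
      linarith [h1.1, h2.1, h3.1]
    · refine (abs_add_le _ _).trans ?_
      have n1 := abs_add_le (CV PA PB (cd X) (cd Y) k).im (CV PQ PA (cd X) (cd Y) k).im
      linarith [h1.2, h2.2, h3.2]

private theorem shr40 (N : Nat) : (N : ℝ) / 2 ^ 40 ≤ ((Nat.shiftRight N 40 : Nat) : ℝ) + 1 := by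
  have h1 : Nat.shiftRight N 40 = N / 2 ^ 40 := Nat.shiftRight_eq_div_pow N 40
  rw [h1, div_le_iff₀ (by positivity)]
  have h2 : N < (N / 2 ^ 40 + 1) * 2 ^ 40 := by
    have h3 := Nat.div_add_mod N (2 ^ 40)
    have h4 := Nat.mod_lt N (show 0 < 2 ^ 40 by norm_num)
    omega
  have h3 : (N : ℝ) < ((N / 2 ^ 40 + 1) * 2 ^ 40 : Nat) := by exact_mod_cast h2
  push_cast at h3 ⊢
  linarith

/-- the estimate in `Mem.mul` -/
private theorem mul_core {u v c1 c2 L1 L2 K1 K2 T1 T2 ρ1 ρ2 e : ℂ}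
    {m1 m2 r1 r2 D1 D2 G1 G2 Q1 Q2 : ℝ}
    (hu : u * 2 ^ 40 = c1 + (L1 + (K1 + (T1 + ρ1)))) (hv : v * 2 ^ 40 = c2 + (L2 + (K2 + (T2 + ρ2))))
    (hρ1 : ‖ρ1‖ ≤ r1) (hρ2 : ‖ρ2‖ ≤ r2) (hl1 : ‖L1‖ ≤ G1) (hl2 : ‖L2‖ ≤ G2)
    (hk1 : ‖K1‖ ≤ Q1) (hk2 : ‖K2‖ ≤ Q2)
    (ht1 : ‖T1 + ρ1‖ ≤ D1 - G1 - Q1) (ht2 : ‖T2 + ρ2‖ ≤ D2 - G2 - Q2)
    (hm1 : ‖c1‖ ≤ m1) (hm2 : ‖c2‖ ≤ m2)
    (he : ‖e - (c1 * (c2 + (L2 + (K2 + T2))) + c2 * (c1 + (L1 + (K1 + T1)) - c1) +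
      (L1 * (L2 + K2) + K1 * L2)) / 2 ^ 40‖ ≤ 50) :
    ‖u * v * 2 ^ 40 - e‖ ≤
      (m1 * r2 + m2 * r1 + (D1 * D2 - (G1 * (G2 + Q2) + Q1 * G2))) / 2 ^ 40 + 50 := by
  have g1 : 0 ≤ G1 := (norm_nonneg _).trans hl1
  have g2 : 0 ≤ G2 := (norm_nonneg _).trans hl2
  have b1 : 0 ≤ Q1 := (norm_nonneg _).trans hk1
  have b2 : 0 ≤ Q2 := (norm_nonneg _).trans hk2
  have q1 : 0 ≤ D1 - G1 - Q1 := (norm_nonneg _).trans ht1
  have q2 : 0 ≤ D2 - G2 - Q2 := (norm_nonneg _).trans ht2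
  have s1 : 0 ≤ m1 := (norm_nonneg _).trans hm1
  have s2 : 0 ≤ m2 := (norm_nonneg _).trans hm2
  have p1 : ‖c1 * ρ2‖ ≤ m1 * r2 := by
    rw [norm_mul]
    exact mul_le_mul hm1 hρ2 (norm_nonneg _) s1
  have p2 : ‖c2 * ρ1‖ ≤ m2 * r1 := by
    rw [norm_mul]
    exact mul_le_mul hm2 hρ1 (norm_nonneg _) s2
  have p3 : ‖L1 * (T2 + ρ2)‖ ≤ G1 * (D2 - G2 - Q2) := by
    rw [norm_mul]
    exact mul_le_mul hl1 ht2 (norm_nonneg _) g1
  have p4 : ‖K1 * K2‖ ≤ Q1 * Q2 := by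
    rw [norm_mul]
    exact mul_le_mul hk1 hk2 (norm_nonneg _) b1
  have p5 : ‖K1 * (T2 + ρ2)‖ ≤ Q1 * (D2 - G2 - Q2) := by
    rw [norm_mul]
    exact mul_le_mul hk1 ht2 (norm_nonneg _) b1
  have w1 : ‖L2 + (K2 + (T2 + ρ2))‖ ≤ D2 := by
    have n1 := norm_add_le L2 (K2 + (T2 + ρ2))
    have n2 := norm_add_le K2 (T2 + ρ2)
    linarith
  have p6 : ‖(T1 + ρ1) * (L2 + (K2 + (T2 + ρ2)))‖ ≤ (D1 - G1 - Q1) * D2 := by
    rw [norm_mul]
    exact mul_le_mul ht1 w1 (norm_nonneg _) q1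
  set M : ℂ := (c1 * ρ2 + c2 * ρ1) + ((L1 * (T2 + ρ2) + K1 * K2) + (K1 * (T2 + ρ2) +
    (T1 + ρ1) * (L2 + (K2 + (T2 + ρ2))))) with hM
  have n0 : ‖M‖ ≤ m1 * r2 + m2 * r1 + (D1 * D2 - (G1 * (G2 + Q2) + Q1 * G2)) := by
    have n4 := norm_add_le (c1 * ρ2 + c2 * ρ1) ((L1 * (T2 + ρ2) + K1 * K2) + (K1 * (T2 + ρ2) +
      (T1 + ρ1) * (L2 + (K2 + (T2 + ρ2)))))
    have n5 := norm_add_le (c1 * ρ2) (c2 * ρ1)
    have n6 := norm_add_le (L1 * (T2 + ρ2) + K1 * K2) (K1 * (T2 + ρ2) +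
      (T1 + ρ1) * (L2 + (K2 + (T2 + ρ2))))
    have n7 := norm_add_le (L1 * (T2 + ρ2)) (K1 * K2)
    have n9 := norm_add_le (K1 * (T2 + ρ2)) ((T1 + ρ1) * (L2 + (K2 + (T2 + ρ2))))
    have n8 : G1 * (D2 - G2 - Q2) + Q1 * Q2 + (Q1 * (D2 - G2 - Q2) + (D1 - G1 - Q1) * D2) =
        D1 * D2 - (G1 * (G2 + Q2) + Q1 * G2) := by
      ring
    rw [← hM] at n4
    linarith
  have e1 : u * v * 2 ^ 40 = (u * 2 ^ 40) * (v * 2 ^ 40) / 2 ^ 40 := by
    field_simp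
  have e2 : u * v * 2 ^ 40 - e = M / 2 ^ 40 -
      (e - (c1 * (c2 + (L2 + (K2 + T2))) + c2 * (c1 + (L1 + (K1 + T1)) - c1) +
        (L1 * (L2 + K2) + K1 * L2)) / 2 ^ 40) := by
    rw [e1, hu, hv, hM]
    ring
  rw [e2]
  refine (norm_sub_le _ _).trans (add_le_add ?_ he)
  have e3 : ‖M / 2 ^ 40‖ = ‖M‖ / 2 ^ 40 := by
    rw [norm_div, norm_pow]
    norm_num
  rw [e3]
  exact div_le_div_of_nonneg_right n0 (by positivity)

/-- with `δ = lin + quad + R`, `R = cub + ρ`: the product minus its polynomial part is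
`c2 ρ1 + c1 ρ2 + (δ1 δ2 - lin1 (lin2 + quad2) - quad1 lin2)`, the last bracket has norm
`≤ D1 D2 - G1 (G2 + Q2) - Q1 G2` -/
theorem Mem.mul {ε : List ℂ} (hε : Small ε) {x y : A} {u v : ℂ} (hx : Mem ε x u)
    (hy : Mem ε y v) : Mem ε (x.mul y) (u * v) := by
  have e0 : x.mul y = mU (r40 (mulP x.X y.X))
      (Nat.add (Nat.shiftRight
       (Nat.add (Nat.add (Nat.mul x.m y.r) (Nat.mul y.m x.r)) (dropN x y)) 40) 80)
      (x.ok && y.ok) := rfl
  rw [e0]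
  refine mem_mU (a := fl 40 (mulc (cd x.X) (cd y.X))) fun hb hU => ?_
  rw [Bool.and_eq_true] at hb
  have hx' := hx hb.1
  have hy' := hy hb.2
  obtain ⟨hP, hbd⟩ := mulP_spec hx'.good hy'.good
  have e110 : (2 : ℤ) ^ 110 ≤ 5 * 2 ^ 108 := by norm_num
  refine ⟨r40_spec hP (fun k _ => ⟨(hbd k).1.trans e110, (hbd k).2.trans e110⟩) hU, ?_⟩
  obtain ⟨ρ1, hu, hρ1, hl1, hk1, ht1, hG1⟩ := hx'.split hε
  obtain ⟨ρ2, hv, hρ2, hl2, hk2, ht2, hG2⟩ := hy'.split hε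
  have hfl := ev_fl hε 40 (mulc (cd x.X) (cd y.X))
  rw [ev_mulc, ev_split (cd x.X), ev_split (cd y.X)] at hfl
  have h := mul_core hu hv hρ1 hρ2 hl1 hl2 hk1 hk2 ht1 ht2 hx'.cenb hy'.cenb hfl
  refine h.trans ?_
  generalize hN : Nat.add (Nat.add (Nat.mul x.m y.r) (Nat.mul y.m x.r)) (dropN x y) = N
  have hNr : (N : ℝ) = (x.m : ℝ) * y.r + (y.m : ℝ) * x.r +
      ((x.D : ℝ) * y.D - ((x.G : ℝ) * (y.G + y.Q) + (x.Q : ℝ) * y.G)) := by
    have h1 : x.G * (y.G + y.Q) + x.Q * y.G ≤ x.D * y.D := by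
      have a1 : x.G + x.Q ≤ x.D := by exact_mod_cast hG1
      have a2 : y.G + y.Q ≤ y.D := by exact_mod_cast hG2
      calc x.G * (y.G + y.Q) + x.Q * y.G ≤ x.G * (y.G + y.Q) + x.Q * (y.G + y.Q) :=
            Nat.add_le_add_left (Nat.mul_le_mul_left _ (Nat.le_add_right _ _)) _
        _ = (x.G + x.Q) * (y.G + y.Q) := (Nat.add_mul _ _ _).symm
        _ ≤ x.D * y.D := Nat.mul_le_mul a1 a2
    have h2 : N = x.m * y.r + y.m * x.r + (x.D * y.D - (x.G * (y.G + y.Q) + x.Q * y.G)) := hN.symm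
    rw [h2, Nat.cast_add, Nat.cast_sub h1]
    push_cast
    ring
  rw [← hNr]
  have h40 := shr40 N
  rw [Nat.add_eq]
  push_cast
  linarith

private theorem ofZ_spec {z : Z} (h : Nat.ble (Nat.add (Nat.add z.a z.b) (Nat.add z.c z.d))
    4503599627370496 = true) : One (2 ^ 53) (ofZ z) ∧ bz (ofZ z) 0 = z.val := by
  have h1 : z.a + z.b + (z.c + z.d) ≤ 4503599627370496 := Nat.le_of_ble_eq_true h
  have h2 := Pool.Agent.helper31.IB.pack_spec (n := 2 ^ 53) (a := z.a) (b := z.b) (c := z.c)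
    (d := z.d) (by norm_num) (by omega) (by omega) (by omega) (by omega)
  have h3 := Pool.Agent.helper31.IB.one_nrm (by norm_num) h2.1
  exact ⟨h3.1, h3.2.trans h2.2.1⟩

private theorem ofZ_zd {z : Z} (h : Nat.ble (Nat.add (Nat.add z.a z.b) (Nat.add z.c z.d))
    4503599627370496 = true) : toC (zd (ofZ z)) = z.val * 2 ^ 40 := by
  have h1 := (ofZ_spec h).2
  rw [bz_zd] at h1
  have h2 : (2 : ℂ) ^ 40 ≠ 0 := by norm_num
  rw [← h1]
  exact (div_mul_cancel₀ _ h2).symm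

theorem Mem.scale {ε : List ℂ} (hε : Small ε) (z : Z) {x : A} {u : ℂ} (hx : Mem ε x u) :
    Mem ε (x.scale z) (z.val * u) := by
  have e0 : x.scale z = mU (r40 (Nat.mul (Nat.add x.X kX) (toF (ofZ z))))
      (Nat.add (Nat.shiftRight (Nat.mul (mg (ofZ z)) x.r) 40) 80)
      (x.ok && Nat.ble (Nat.add (Nat.add z.a z.b) (Nat.add z.c z.d)) 4503599627370496) := rfl
  rw [e0]
  refine mem_mU (a := fl 40 (fun k => zd (ofZ z) * cd x.X k)) fun hb hU => ?_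
  rw [Bool.and_eq_true] at hb
  have hx' := hx hb.1
  obtain ⟨h1, h2⟩ := ofZ_spec hb.2
  have h3 := toF_spec (n := 2 ^ 53) (by norm_num) h1
  have h4 := zd_bound h1
  have hP : ((Nat.mul (Nat.add x.X kX) (toF (ofZ z)) : ℕ) : ZMod NN) =
      V (fun k => zd (ofZ z) * cd x.X k) := by
    rw [Nat.mul_eq, Nat.cast_mul, val_X hx'.good, h3, V_mul, mul_comm]
  have hz53 : |(zd (ofZ z)).re| ≤ 2 ^ 53 ∧ |(zd (ofZ z)).im| ≤ 2 ^ 53 := by
    have e1 : (((2 : ℕ) ^ 53 : ℕ) : ℤ) = 2 ^ 53 := by norm_num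
    rw [e1] at h4
    exact ⟨h4.1.le, h4.2.le⟩
  refine ⟨r40_spec hP (fun k _ => ?_) hU, ?_⟩
  · have h5 := mul_small hz53 (cd_bound hx'.good k)
    have e2 : (2 : ℤ) ^ 107 ≤ 5 * 2 ^ 108 := by norm_num
    exact ⟨h5.1.trans e2, h5.2.trans e2⟩
  · have hfl := ev_fl hε 40 (fun k => zd (ofZ z) * cd x.X k)
    rw [ev_mul, ofZ_zd hb.2] at hfl
    have hmg : ‖z.val‖ ≤ (mg (ofZ z) : ℝ) / 2 ^ 40 := by
      rw [← h2]
      exact Pool.Agent.helper31.IB.norm_le_mg (by norm_num) h1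
    have e : z.val * u * 2 ^ 40 - ev (fl 40 (fun k => zd (ofZ z) * cd x.X k)) ε =
        z.val * (u * 2 ^ 40 - ev (cd x.X) ε) -
          (ev (fl 40 (fun k => zd (ofZ z) * cd x.X k)) ε -
            z.val * 2 ^ 40 * ev (cd x.X) ε / 2 ^ 40) := by
      ring
    rw [e]
    have n1 : ‖z.val * (u * 2 ^ 40 - ev (cd x.X) ε)‖ ≤ (mg (ofZ z) : ℝ) / 2 ^ 40 * x.r := by
      rw [norm_mul]
      exact mul_le_mul hmg hx'.mem (norm_nonneg _) (by positivity)
    refine (norm_sub_le _ _).trans ((add_le_add n1 hfl).trans ?_)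
    have h40 := shr40 (Nat.mul (mg (ofZ z)) x.r)
    have e2 : ((Nat.mul (mg (ofZ z)) x.r : Nat) : ℝ) = (mg (ofZ z) : ℝ) * x.r := by
      rw [Nat.mul_eq]
      push_cast
      ring
    rw [e2] at h40
    have e3 : (mg (ofZ z) : ℝ) / 2 ^ 40 * x.r = (mg (ofZ z) : ℝ) * x.r / 2 ^ 40 := by ring
    rw [e3, Nat.add_eq]
    push_cast
    linarith

end Pool.Agent.helper14.CF
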